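import Pool.Agent.T9h27.D.Asm
import Pool.Agent.Y772.DK.Cc

/-!
# The norm of the ideals of a number field (helper27)
-/

set_option autoImplicit false
set_option linter.unusedSectionVars false

open NumberField

namespace Pool.Agent.T9h27.K

open Pool.Agent.T9h27.D
open Pool.Agent.Y772.DK (below norm_over deg_pos)

variable (K : Type) [Field K] [NumberField K]

/-- the norm of the ideals -/
noncomputable abbrev nK : Ideal (𝓞 K) →*₀ ℕ := Ideal.absNorm

variable {K}

lemma dvd_span {q : ℕ} {P : Ideal (𝓞 K)}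
    (hP : P ∈ (Ideal.span {(q : ℤ)}).primesOver (𝓞 K)) : P ∣ Ideal.span {((q : ℕ) : 𝓞 K)} := by
  rw [Ideal.dvd_span_singleton]
  have h2 : P.LiesOver (Ideal.span {(q : ℤ)}) := hP.2
  have h3 : (q : ℤ) ∈ Ideal.under ℤ P := by
    rw [← h2.over]
    exact Ideal.mem_span_singleton_self _
  rw [Ideal.mem_comap] at h3
  simpa using h3

lemma norm_span (q : ℕ) : Ideal.absNorm (Ideal.span {((q : ℕ) : 𝓞 K)}) =
    q ^ Module.finrank ℚ K := by
  rw [Ideal.absNorm_span_natCast, RingOfIntegers.rank]

variable (K)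

/-- **the norm of the ideals of a number field** -/
theorem ns_K : NS (nK K) (Module.finrank ℚ K) where
  n1 := Module.finrank_pos
  pp P hP := by
    obtain ⟨q, hq, hqP⟩ := below hP
    refine ⟨q, P.inertiaDeg ℤ, hq, Nat.one_le_iff_ne_zero.mpr (deg_pos hq hP hqP), ?_,
      norm_over hq hqP⟩
    have h1 := Ideal.absNorm_dvd_absNorm_of_le (Ideal.dvd_iff_le.mp (dvd_span hqP))
    rw [norm_over hq hqP, norm_span] at h1
    exact (Nat.pow_dvd_pow_iff_le_right hq.one_lt).mp h1
  ab q hq := by
    classical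
    have key : ∀ S : Finset (Ideal (𝓞 K)), (∀ P ∈ S, Prime P ∧ q ∣ nK K P) →
        S.card ≤ Module.finrank ℚ K := by
      intro S hS
      have hover : ∀ P ∈ S, P ∈ (Ideal.span {(q : ℤ)}).primesOver (𝓞 K) := by
        intro P hP
        obtain ⟨h1, h2⟩ := hS P hP
        obtain ⟨q', hq', hqP'⟩ := below h1
        have h3 : q ∣ q' ^ P.inertiaDeg ℤ := by
          rw [← norm_over hq' hqP']
          exact h2
        have h4 : q = q' := (Nat.prime_dvd_prime_iff_eq hq hq').mp (hq.dvd_of_dvd_pow h3)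
        rw [h4]
        exact hqP'
      have h1 : ∏ P ∈ S, P ∣ Ideal.span {((q : ℕ) : 𝓞 K)} :=
        Finset.prod_primes_dvd _ (fun P hP => (hS P hP).1) fun P hP => dvd_span (hover P hP)
      have h2 := Ideal.absNorm_dvd_absNorm_of_le (Ideal.dvd_iff_le.mp h1)
      rw [map_prod, norm_span] at h2
      have h3 : q ^ S.card ∣ ∏ P ∈ S, Ideal.absNorm P := by
        rw [← Finset.prod_const]
        refine Finset.prod_dvd_prod_of_dvd _ _ fun P hP => ?_
        exact (hS P hP).2
      exact (Nat.pow_dvd_pow_iff_le_right hq.one_lt).mp (h3.trans h2)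
    have hfin : {P : Ideal (𝓞 K) | Prime P ∧ q ∣ nK K P}.Finite := by
      by_contra hinf
      obtain ⟨t, ht, hc⟩ := Set.Infinite.exists_subset_card_eq hinf (Module.finrank ℚ K + 1)
      have := key t fun P hP => ht hP
      omega
    refine ⟨hfin, ?_⟩
    rw [Set.ncard_eq_toFinset_card _ hfin]
    exact key _ fun P hP => by rwa [Set.Finite.mem_toFinset] at hP

end Pool.Agent.T9h27.K
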