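import Pool.Agent.T9h27.K.Gl
import Pool.Agent.T9h27.K.Nf
import Pool.Agent.Y773.IQ.Good

/-!
# The L-functions of the primitive ray class characters of a number field (helper27)
-/

set_option autoImplicit false
set_option linter.unusedSectionVars false

open NumberField Complex

namespace Pool.Agent.T9h27.K

open Pool.Agent.T9h27.D
open Pool.Agent.Y773 (LI)
open Pool.Agent.Y767 (GGn FEn eq_of_LI)

lemma GLf.mono {M : Type} [CommMonoidWithZero M] {N : M →*₀ ℕ} {A T R R' : ℝ} {n : ℕ}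
    {χ : M →*₀ ℂ} {F : ℂ → ℂ} (hA : 1 ≤ A) (hT : 0 < T) (hR : R ≤ R') (h : GLf N A T R n χ F) :
    GLf N A T R' n χ F where
  diff := h.diff
  ser := h.ser
  le1 := h.le1
  gr s hs := (h.gr s hs).trans (by
    have := Real.exp_le_exp.mpr hR
    gcongr)
  big := h.big
  low := h.low
  fe δ h0 h1 τ := (h.fe δ h0 h1 τ).trans (by
    have : Real.exp (R * δ) ≤ Real.exp (R' * δ) :=
      Real.exp_le_exp.mpr (mul_le_mul_of_nonneg_right hR h0.le)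
    gcongr)

section

variable (K : Type) [Field K] [NumberField K]

/-- **the analytic input** for the primitive ray class characters -/
theorem gl_K : ∃ A : ℝ, 1 ≤ A ∧ ∀ (𝔣 : Ideal (𝓞 K)) (ψ : Ideal (𝓞 K) →*₀ ℂ) (F : ℂ → ℂ), 𝔣 ≠ ⊤ →
    Pool.Agent.Y773.G.IsPrimChar K 𝔣 ψ → Differentiable ℂ F →
    (∀ s : ℂ, 1 < s.re → F s = LI ψ s) →
    (∀ (C₀ T : ℝ), (Ideal.absNorm 𝔣 : ℝ) ≤ C₀ → 1 ≤ T →
      GLf (nK K) A T (Real.log (C₀ * T ^ Module.finrank ℚ K)) (Module.finrank ℚ K) ψ F) ∧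
    (∀ s : ℂ, 1 ≤ s.re → F s ≠ 0) ∧
    ∀ z : ℂ, 0 < z.re → z.re < 1 →
      analyticOrderNatAt F z = analyticOrderNatAt F (1 - (starRingEnd ℂ) z) := by
  have hSig := Pool.Agent.Y772.G.t_sig
  have hE := Pool.Agent.Y773.G.t_ent
  obtain ⟨A₀, hA₀, hD⟩ := Pool.Agent.Y772.DK.t_dirK K
  have hdN : (1 : ℝ) ≤ (Ideal.absNorm (differentIdeal ℤ (𝓞 K)) : ℝ) := by
    have : Ideal.absNorm (differentIdeal ℤ (𝓞 K)) ≠ 0 := by
      rw [Ne, Ideal.absNorm_eq_zero_iff]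
      exact differentIdeal_ne_bot
    exact_mod_cast Nat.one_le_iff_ne_zero.mpr this
  obtain ⟨A, hA, hgl⟩ := gl_of_fen (ns_K K) (Module.finrank ℚ K) hdN
  refine ⟨A, hA, fun 𝔣 ψ F htop h hdF hFL => ?_⟩
  have hq1 : (1 : ℝ) ≤ (Ideal.absNorm 𝔣 : ℝ) := by
    have : Ideal.absNorm 𝔣 ≠ 0 := by
      rw [Ne, Ideal.absNorm_eq_zero_iff]; exact h.ne_bot
    exact_mod_cast Nat.one_le_iff_ne_zero.mpr this
  have hψ1 : ∀ 𝔞, ‖ψ 𝔞‖ ≤ 1 := h.norm_le_one hSig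
  obtain ⟨d1, d2, d3, d4, d5, d6, d7, -, d8, d9, -⟩ := hD ψ hψ1
  obtain ⟨e, he⟩ := h.isModChar hSig htop
  obtain ⟨G, hFE, hGL⟩ := Pool.Agent.Y773.G.fe_prim h he
  have hFG : F = G := eq_of_LI hdF hFE.diff (fun s hs => by rw [hFL s hs, hGL s hs])
  rw [← hFG] at hFE
  have hFn := Pool.Agent.Y773.IQ.FEd.toFEn hFE
  have hRe : ((Ideal.absNorm 𝔣 * Ideal.absNorm (differentIdeal ℤ (𝓞 K)) : ℕ) : ℝ) =
      (Ideal.absNorm (differentIdeal ℤ (𝓞 K)) : ℝ) * (Ideal.absNorm 𝔣 : ℝ) := by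
    push_cast; ring
  rw [hRe] at hFn
  refine ⟨fun C₀ T hC₀ hT => ?_, ?_, fun z h0 h1 => ?_⟩
  · refine GLf.mono hA (by linarith) ?_ (hgl Pool.Agent.Y773.G.card_emb _ hq1 _ (fun _ => 0) ψ F T hT
      (fun _ => by rw [abs_zero]; linarith) hψ1 hFn (fun s hs => ?_))
    · have : 0 < T := by linarith
      exact Real.log_le_log (by positivity) (mul_le_mul_of_nonneg_right hC₀ (by positivity))
    · rw [hFL s (by linarith)]
      rfl
  · intro s h1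
    rcases lt_or_eq_of_le h1 with h3 | h3
    · rw [hFL _ h3]
      exact d3 _ h3
    · exact Pool.Agent.Y772.G.nv_prim hE h htop h3.symm (hdF.analyticAt s) hFL
  · exact Pool.Agent.N786.D.ord_symm (by positivity) hFn h0 h1

end

end Pool.Agent.T9h27.K
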