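import Pool.Agent.T9h27.K.DenK
import Pool.Agent.Y773.IQ.Quad

/-!
# The density theorem for the imaginary quadratic fields: all windows (helper27)
-/

set_option autoImplicit false
set_option linter.unusedSectionVars false

open NumberField Module Complex

namespace Pool.Agent.T9h27.K

open Pool.Agent.T9h27.D
open Pool.Agent.Y773 (LI)
open Pool.Agent.Y773.IQ (Fam absNorm_pos' exists_ge ne_zero_of_cop cop_one)
open Pool.Agent.N784.AD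

section

variable {K : Type} [Field K] [NumberField K]

/-- separation -/
lemma Rl.sep (hN : ∀ x y : 𝓞 K, Ideal.absNorm (Ideal.span {x - y}) ≤
      2 * (Ideal.absNorm (Ideal.span {x}) + Ideal.absNorm (Ideal.span {y})))
    {𝔪 𝔞 𝔟 : Ideal (𝓞 K)} (htop : 𝔪 ≠ ⊤) (h𝔟0 : 𝔟 ≠ ⊥) (hne : 𝔞 ≠ 𝔟)
    (h : Rl 𝔪 𝔞 𝔟) : Ideal.absNorm 𝔪 ≤ 2 * (Ideal.absNorm 𝔞 + Ideal.absNorm 𝔟) := by
  obtain ⟨-, -, x, y, hx1, hy1, h1⟩ := h
  have hxc : IsCoprime (Ideal.span {x}) 𝔪 := cop_one hx1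
  have hx0 : x ≠ 0 := ne_zero_of_cop htop hxc
  have hyx : y - x ≠ 0 := by
    intro hyx
    apply hne
    rw [sub_eq_zero.mp hyx] at h1
    exact mul_left_cancel₀ (by
      rw [Ne, Ideal.zero_eq_bot, Ideal.span_singleton_eq_bot]; exact hx0) h1
  have h2 : Ideal.span {y - x} * 𝔟 ≤ Ideal.span {x} := by
    have h3 : Ideal.span {y - x} ≤ Ideal.span {y} ⊔ Ideal.span {x} := by
      rw [Ideal.span_singleton_le_iff_mem]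
      exact sub_mem (Ideal.mem_sup_left (Ideal.mem_span_singleton_self _))
        (Ideal.mem_sup_right (Ideal.mem_span_singleton_self _))
    refine (Ideal.mul_mono_left h3).trans ?_
    rw [Ideal.sup_mul, ← h1, sup_le_iff]
    constructor
    · have := Ideal.mul_le_left (I := 𝔞) (J := Ideal.span {x})
      rw [mul_comm] at this
      first | exact this | exact Ideal.mul_le_left
    · exact Ideal.mul_le_left
  obtain ⟨𝔠, h𝔠⟩ := Ideal.dvd_iff_le.mpr h2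
  have hq1 : y - x ∈ 𝔪 := by
    have : y - x = (y - 1) - (x - 1) := by ring
    rw [this]; exact sub_mem hy1 hx1
  have hq2 : 𝔪 ∣ Ideal.span {x} * 𝔠 := by
    rw [← h𝔠]
    exact (Ideal.dvd_iff_le.mpr ((Ideal.span_singleton_le_iff_mem 𝔪).mpr hq1)).mul_right _
  have hq3 : 𝔪 ∣ 𝔠 := hxc.symm.dvd_of_dvd_mul_left hq2
  have hyx0 : Ideal.span {y - x} ≠ ⊥ := by
    rw [Ne, Ideal.span_singleton_eq_bot]; exact hyx
  have h𝔠0 : 𝔠 ≠ ⊥ := by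
    rintro rfl
    rw [← Ideal.zero_eq_bot, mul_zero] at h𝔠
    exact mul_ne_zero hyx0 h𝔟0 h𝔠
  have hle : Ideal.absNorm 𝔪 ≤ Ideal.absNorm 𝔠 :=
    Nat.le_of_dvd (absNorm_pos' h𝔠0) (Ideal.absNorm_dvd_absNorm_of_le (Ideal.dvd_iff_le.mp hq3))
  have e1 := congrArg Ideal.absNorm h𝔠
  have e2 := congrArg Ideal.absNorm h1
  rw [map_mul, map_mul] at e1 e2
  have e3 := hN y x
  have hX : 0 < Ideal.absNorm (Ideal.span {x}) := absNorm_pos' (by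
    rw [Ne, Ideal.span_singleton_eq_bot]; exact hx0)
  have e4 : Ideal.absNorm (Ideal.span {x}) * Ideal.absNorm 𝔠 ≤
      Ideal.absNorm (Ideal.span {x}) *
        (2 * (Ideal.absNorm 𝔞 + Ideal.absNorm 𝔟)) := by
    rw [← e1]
    calc _ ≤ 2 * (Ideal.absNorm (Ideal.span {y}) + Ideal.absNorm (Ideal.span {x})) *
          Ideal.absNorm 𝔟 := Nat.mul_le_mul_right _ e3
      _ = 2 * (Ideal.absNorm (Ideal.span {y}) * Ideal.absNorm 𝔟 +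
          Ideal.absNorm (Ideal.span {x}) * Ideal.absNorm 𝔟) := by ring
      _ = _ := by rw [← e2]; ring
  exact hle.trans (Nat.le_of_mul_le_mul_left e4 hX)

end

open Classical in
/-- **the density theorem**, imaginary quadratic fields, all moduli and all windows -/
theorem dens_short (K : Type) [Field K] [NumberField K] [IsTotallyComplex K]
    (h2 : finrank ℚ K = 2) {h c : ℝ} (hh1 : h ≤ 1) (hc0 : 0 < c) (hc : c < 2 * h - 1) :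
    ∃ Q X₀ : ℝ, 0 ≤ Q ∧ 1 ≤ X₀ ∧ ∀ 𝔮 : Ideal (𝓞 K), 𝔮 ≠ ⊥ →
      X₀ ≤ (Ideal.absNorm 𝔮 : ℝ) → 𝔮 ≠ ⊤ ∧
      ∀ T H : ℝ, 1 ≤ H → H ≤ T →
      ((Ideal.absNorm 𝔮 : ℝ) * T ^ finrank ℚ K) ^ h ≤ (Ideal.absNorm 𝔮 : ℝ) →
      ∀ (S : Finset (Ideal (𝓞 K) →*₀ ℂ)) (Lf : (Ideal (𝓞 K) →*₀ ℂ) → ℂ → ℂ),
      (∀ ψ ∈ S, ψ ∈ Fam 𝔮) →
      (∀ ψ ∈ S, Differentiable ℂ (Lf ψ) ∧ ∀ s : ℂ, 1 < s.re → Lf ψ s = LI ψ s) →
      ∀ t₁ : ℝ, |t₁| ≤ T → ∀ δ : ℝ, 0 ≤ δ →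
      (∀ ψ ∈ S, (farZ (Lf ψ) δ t₁ (t₁ + H)).Finite) ∧
      ∑ ψ ∈ S, (Nfar (Lf ψ) δ t₁ (t₁ + H) : ℝ) ≤
        Q * (((Fam 𝔮).ncard : ℝ) * H *
          Real.log ((Ideal.absNorm 𝔮 : ℝ) * T ^ finrank ℚ K) *
          ((Ideal.absNorm 𝔮 : ℝ) * T ^ finrank ℚ K) ^ (-(c * δ))) := by
  obtain ⟨δ₀, Q, X₀, h1, h2', h3, h4⟩ := dens_K K (γ := 1 / 2) (C₄ := 2) hh1 hc0 hc (by norm_num)
    (by norm_num)
  have hfu := Pool.Agent.Y773.IQ.finite_units h2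
  obtain ⟨N₁, hN₁, hN₁'⟩ := exists_ge δ₀ (Nat.card (𝓞 K)ˣ : ℝ) h1
  refine ⟨Q, max X₀ N₁, h2', le_max_of_le_left h3, fun 𝔮 hbot hX => ?_⟩
  have hUn : (Un 𝔮 : ℝ) ≤ (Ideal.absNorm 𝔮 : ℝ) ^ δ₀ := by
    refine le_trans ?_ (hN₁' _ ((le_max_right _ _).trans hX))
    unfold Un
    rw [← Set.image_univ]
    have h5 := Set.ncard_image_le (f := fun u : (𝓞 K)ˣ => Ideal.Quotient.mk 𝔮 (u : 𝓞 K))
      (Set.finite_univ (α := (𝓞 K)ˣ))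
    rw [Set.ncard_univ] at h5
    exact_mod_cast h5
  obtain ⟨htop, h5⟩ := h4 𝔮 hbot ((le_max_left _ _).trans hX) hUn
  refine ⟨htop, fun T H hH1 hHT hTh => h5 T H hH1 hHT hTh ?_⟩
  have hN1 : (1 : ℝ) ≤ (Ideal.absNorm 𝔮 : ℝ) := h3.trans ((le_max_left _ _).trans hX)
  have hNpos : (0 : ℝ) < (Ideal.absNorm 𝔮 : ℝ) := by linarith
  intro X hX1 _ 𝔪 h𝔪 t₁ p hp
  obtain ⟨m1, m2⟩ := (mem_DD hbot).mp h𝔪
  have hNm : (Ideal.absNorm 𝔪 : ℝ) ≤ (Ideal.absNorm 𝔮 : ℝ) := by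
    exact_mod_cast Nat.le_of_dvd (absNorm_pos' hbot)
      (Ideal.absNorm_dvd_absNorm_of_le (Ideal.dvd_iff_le.mp m1))
  unfold PP at hp
  rw [Finset.mem_filter, Finset.mem_product] at hp
  obtain ⟨⟨p1, p2⟩, -, p3, p4⟩ := hp
  have q1 := ((ns_K K).mem_SI.mp p1).1
  have q2 := ((ns_K K).mem_SI.mp p2).1
  have q0 : p.2 ≠ ⊥ := by
    intro h'
    rw [h'] at q2
    have : nK K (⊥ : Ideal (𝓞 K)) = 0 := Ideal.absNorm_bot
    omega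
  have h6 := p3.sep (Pool.Agent.Y773.IQ.norm_sub_le' h2) m2 q0 (fun h' => p4 (by rw [h']))
  have h7 : (Ideal.absNorm 𝔪 : ℝ) ≤ 4 * ((nK K p.1 : ℝ) * (nK K p.2 : ℝ)) := by
    have h8 : (Ideal.absNorm 𝔪 : ℝ) ≤ 2 * ((nK K p.1 : ℝ) + (nK K p.2 : ℝ)) := by
      exact_mod_cast h6
    have k1 : (1 : ℝ) ≤ (nK K p.1 : ℝ) := by exact_mod_cast q1
    have k2 : (1 : ℝ) ≤ (nK K p.2 : ℝ) := by exact_mod_cast q2
    nlinarith [mul_nonneg (sub_nonneg.mpr k1) (sub_nonneg.mpr k2)]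
  obtain ⟨r, hr⟩ : ∃ r : ℝ, r = Real.sqrt ((nK K p.1 : ℝ) * (nK K p.2 : ℝ)) := ⟨_, rfl⟩
  have hr0 : 0 ≤ r := by rw [hr]; exact Real.sqrt_nonneg _
  have hrr : r ^ 2 = (nK K p.1 : ℝ) * (nK K p.2 : ℝ) := by
    rw [hr]; exact Real.sq_sqrt (by positivity)
  rw [← hr]
  have h8 : (Ideal.absNorm 𝔪 : ℝ) ≤ 2 * (Ideal.absNorm 𝔮 : ℝ) ^ (1 - 1 / 2 : ℝ) * r := by
    have e1 : (Ideal.absNorm 𝔮 : ℝ) ^ (1 - 1 / 2 : ℝ) = Real.sqrt (Ideal.absNorm 𝔮 : ℝ) := by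
      rw [Real.sqrt_eq_rpow]
      norm_num
    rw [e1]
    have e2 : (Ideal.absNorm 𝔪 : ℝ) = Real.sqrt ((Ideal.absNorm 𝔪 : ℝ) * (Ideal.absNorm 𝔪 : ℝ)) := by
      rw [Real.sqrt_mul_self (Nat.cast_nonneg _)]
    rw [e2]
    have e3 : 2 * Real.sqrt (Ideal.absNorm 𝔮 : ℝ) * r =
        Real.sqrt ((Ideal.absNorm 𝔮 : ℝ) * (4 * r ^ 2)) := by
      rw [Real.sqrt_mul (by positivity), show 4 * r ^ 2 = (2 * r) ^ 2 by ring,
        Real.sqrt_sq (by positivity)]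
      ring
    rw [e3]
    refine Real.sqrt_le_sqrt ?_
    rw [hrr]
    exact mul_le_mul hNm h7 (Nat.cast_nonneg _) (by positivity)
  have h9 := osc_le_H (N := nK K) (t₁ := t₁) (H := H) (by linarith) p.1 p.2
  calc _ ≤ H * (2 * (Ideal.absNorm 𝔮 : ℝ) ^ (1 - 1 / 2 : ℝ) * r) :=
        mul_le_mul h9 h8 (Nat.cast_nonneg _) (by linarith)
    _ = _ := by ring

end Pool.Agent.T9h27.K
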