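import Pool.Agent.T9h27.K.Low
import Pool.Agent.T9h27.K.Short

/-!
# Corollaries of the density theorems: almost all characters, proportions (helper27)
-/

set_option autoImplicit false
set_option linter.unusedSectionVars false
set_option linter.unusedVariables false

open NumberField Filter Topology MeasureTheory Module Complex

namespace Pool.Agent.T9h27.K

open Pool.Agent.T9h27.D
open Pool.Agent.Y773 (LI cc)
open Pool.Agent.Y773.IQ (Fam cd cd_spec LL LL_eq absNorm_pos' exists_ge)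
open Pool.Agent.N784.AD
open H370 (zset NN)

open Classical in
/-- the number of the members with a zero far from the critical line -/
lemma exc_card {ι : Type} (S : Finset ι) (F : ι → ℂ → ℂ) {δ H B : ℝ}
    (hd : ∀ i ∈ S, Differentiable ℂ (F i)) (hne : ∀ i ∈ S, F i 2 ≠ 0)
    (hf1 : ∀ i ∈ S, (farZ (F i) δ (-H) (-H + H)).Finite)
    (hf2 : ∀ i ∈ S, (farZ (F i) δ 0 (0 + H)).Finite)
    (h1 : ∑ i ∈ S, (Nfar (F i) δ (-H) (-H + H) : ℝ) ≤ B)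
    (h2 : ∑ i ∈ S, (Nfar (F i) δ 0 (0 + H) : ℝ) ≤ B) :
    ((S.filter (fun i => ∃ s : ℂ, F i s = 0 ∧ 0 < s.re ∧ s.re < 1 ∧ |s.im| < H ∧
      δ ≤ |s.re - 1 / 2|)).card : ℝ) ≤ 2 * B := by
  have hone : ∀ i ∈ S, ∀ T₁ T₂ : ℝ, (farZ (F i) δ T₁ T₂).Finite → ∀ s : ℂ, s ∈ farZ (F i) δ T₁ T₂ →
      (1 : ℝ) ≤ (Nfar (F i) δ T₁ T₂ : ℝ) := by
    intro i hi T₁ T₂ hf s hs
    unfold Nfar
    rw [finsum_mem_eq_finite_toFinset_sum _ hf]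
    have h3 := Finset.single_le_sum (f := fun s => analyticOrderNatAt (F i) s)
      (fun _ _ => Nat.zero_le _) (hf.mem_toFinset.mpr hs)
    have h4 := ord_pos (hd i hi) (hne i hi) hs.2.2.2.2.1
    exact_mod_cast h4.trans h3
  have h3 : ((S.filter (fun i => ∃ s : ℂ, F i s = 0 ∧ 0 < s.re ∧ s.re < 1 ∧ |s.im| < H ∧
      δ ≤ |s.re - 1 / 2|)).card : ℝ) ≤ ∑ i ∈ S, ((Nfar (F i) δ (-H) (-H + H) : ℝ) +
        (Nfar (F i) δ 0 (0 + H) : ℝ)) := by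
    rw [← nsmul_one, ← Finset.sum_const]
    refine le_trans ?_ (Finset.sum_le_sum_of_subset_of_nonneg (Finset.filter_subset
      (fun i => ∃ s : ℂ, F i s = 0 ∧ 0 < s.re ∧ s.re < 1 ∧ |s.im| < H ∧ δ ≤ |s.re - 1 / 2|) S)
      (fun i _ _ => by positivity))
    refine Finset.sum_le_sum fun i hi => ?_
    obtain ⟨hiS, s, g1, g2, g3, g4, g5⟩ := Finset.mem_filter.mp hi
    obtain ⟨g6, g7⟩ := abs_lt.mp g4
    rcases le_or_gt s.im 0 with h5 | h5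
    · have := hone i hiS _ _ (hf1 i hiS) s ⟨g2, g3, g6, by linarith, g1, g5⟩
      have h6 : (0 : ℝ) ≤ (Nfar (F i) δ 0 (0 + H) : ℝ) := Nat.cast_nonneg _
      linarith
    · have := hone i hiS _ _ (hf2 i hiS) s ⟨g2, g3, h5, by linarith, g1, g5⟩
      have h6 : (0 : ℝ) ≤ (Nfar (F i) δ (-H) (-H + H) : ℝ) := Nat.cast_nonneg _
      linarith
  rw [Finset.sum_add_distrib] at h3
  linarith

section

variable (K : Type) [Field K] [NumberField K]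

lemma LL_info {𝔮 : Ideal (𝓞 K)} {ψ : Ideal (𝓞 K) →*₀ ℂ} (h : ψ ∈ Fam 𝔮) :
    (Differentiable ℂ (LL K ψ) ∧ ∀ s : ℂ, 1 < s.re → LL K ψ s = LI ψ s) ∧ LL K ψ 2 ≠ 0 := by
  obtain ⟨𝔣, h1, h2, h3⟩ := h
  obtain ⟨A, hA, hgood⟩ := Pool.Agent.Y773.IQ.good K
  obtain ⟨F, hF, hFL, -⟩ := hgood 𝔣 ψ h2 h3
  rw [LL_eq K hF hFL]
  obtain ⟨A', hA', hgl⟩ := gl_K K
  exact ⟨⟨hF, hFL⟩, (hgl 𝔣 ψ F h2 h3 hF hFL).2.1 2 (by norm_num)⟩

lemma FF_ncard {𝔮 : Ideal (𝓞 K)} (hbot : 𝔮 ≠ ⊥) (htop : 𝔮 ≠ ⊤) :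
    ((FF 𝔮).card : ℝ) = ((Fam 𝔮).ncard : ℝ) := by
  have : (Fam 𝔮) = ((FF 𝔮 : Finset _) : Set _) := by
    ext ψ
    rw [Finset.mem_coe, mem_FF hbot htop]
  rw [this, Set.ncard_coe_finset]

/-- the exceptional members -/
def Exc (𝔮 : Ideal (𝓞 K)) (δ H : ℝ) : Set (Ideal (𝓞 K) →*₀ ℂ) :=
  {ψ | ψ ∈ Fam 𝔮 ∧ ∃ s : ℂ, LL K ψ s = 0 ∧ 0 < s.re ∧ s.re < 1 ∧ |s.im| < H ∧
    δ ≤ |s.re - 1 / 2|}

open Classical in
lemma exc_of {𝔮 : Ideal (𝓞 K)} (hbot : 𝔮 ≠ ⊥) (htop : 𝔮 ≠ ⊤) {T H Q c : ℝ} (hH : 0 ≤ H)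
    (hHT : H ≤ T)
    (h : ∀ (S : Finset (Ideal (𝓞 K) →*₀ ℂ)) (Lf : (Ideal (𝓞 K) →*₀ ℂ) → ℂ → ℂ),
      (∀ ψ ∈ S, ψ ∈ Fam 𝔮) →
      (∀ ψ ∈ S, Differentiable ℂ (Lf ψ) ∧ ∀ s : ℂ, 1 < s.re → Lf ψ s = LI ψ s) →
      ∀ t₁ : ℝ, |t₁| ≤ T → ∀ δ : ℝ, 0 ≤ δ →
      (∀ ψ ∈ S, (farZ (Lf ψ) δ t₁ (t₁ + H)).Finite) ∧
      ∑ ψ ∈ S, (Nfar (Lf ψ) δ t₁ (t₁ + H) : ℝ) ≤
        Q * (((Fam 𝔮).ncard : ℝ) * H *
          Real.log ((Ideal.absNorm 𝔮 : ℝ) * T ^ finrank ℚ K) *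
          ((Ideal.absNorm 𝔮 : ℝ) * T ^ finrank ℚ K) ^ (-(c * δ)))) {δ : ℝ} (hδ : 0 ≤ δ) :
    (Exc K 𝔮 δ H).Finite ∧ ((Exc K 𝔮 δ H).ncard : ℝ) ≤ 2 * (Q * (((Fam 𝔮).ncard : ℝ) * H *
          Real.log ((Ideal.absNorm 𝔮 : ℝ) * T ^ finrank ℚ K) *
          ((Ideal.absNorm 𝔮 : ℝ) * T ^ finrank ℚ K) ^ (-(c * δ)))) := by
  have hS : ∀ ψ ∈ FF 𝔮, ψ ∈ Fam 𝔮 := fun ψ hψ => (mem_FF hbot htop).mp hψ
  obtain ⟨a1, a2⟩ := h (FF 𝔮) (LL K) hS (fun ψ hψ => (LL_info K (hS ψ hψ)).1) (-H)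
    (by rw [abs_neg, abs_of_nonneg hH]; exact hHT) δ hδ
  obtain ⟨b1, b2⟩ := h (FF 𝔮) (LL K) hS (fun ψ hψ => (LL_info K (hS ψ hψ)).1) 0
    (by rw [abs_zero]; linarith) δ hδ
  have h1 := exc_card (FF 𝔮) (LL K) (fun ψ hψ => (LL_info K (hS ψ hψ)).1.1)
    (fun ψ hψ => (LL_info K (hS ψ hψ)).2) a1 b1 a2 b2
  have he : Exc K 𝔮 δ H = (((FF 𝔮).filter (fun ψ => ∃ s : ℂ, LL K ψ s = 0 ∧ 0 < s.re ∧ s.re < 1 ∧
      |s.im| < H ∧ δ ≤ |s.re - 1 / 2|) : Finset _) : Set _) := by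
    ext ψ
    rw [Finset.mem_coe, Finset.mem_filter, mem_FF hbot htop]
    exact Iff.rfl
  rw [he]
  exact ⟨Finset.finite_toSet _, by rw [Set.ncard_coe_finset]; exact h1⟩

/-- **every number field: for almost all members there is no zero with `|Re s - 1/2| ≥ ε` up to the
height `N(𝔮)^κ`** -/
theorem almost_long {ε : ℝ} (hε : 0 < ε) : ∃ δ₀ κ X₀ : ℝ, 0 < δ₀ ∧ 0 < κ ∧
    ∀ 𝔮 : Ideal (𝓞 K), 𝔮 ≠ ⊥ → X₀ ≤ (Ideal.absNorm 𝔮 : ℝ) →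
      (Un 𝔮 : ℝ) ≤ (Ideal.absNorm 𝔮 : ℝ) ^ δ₀ →
      ((Exc K 𝔮 ε ((Ideal.absNorm 𝔮 : ℝ) ^ κ)).ncard : ℝ) ≤
        (Ideal.absNorm 𝔮 : ℝ) ^ (-κ) * ((Fam 𝔮).ncard : ℝ) := by
  obtain ⟨n, hn⟩ : ∃ n : ℕ, n = finrank ℚ K := ⟨_, rfl⟩
  have hn1 : (1 : ℝ) ≤ n := by
    have : 1 ≤ n := by rw [hn]; exact finrank_pos
    exact_mod_cast this
  obtain ⟨κ, hκ⟩ : ∃ κ : ℝ, κ = min (ε / 8) (1 / (7 * n)) := ⟨_, rfl⟩
  have hκ0 : 0 < κ := by rw [hκ]; exact lt_min (by positivity) (by positivity)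
  have hκ1 : κ ≤ ε / 8 := by rw [hκ]; exact min_le_left _ _
  have hκ2 : 7 * (n * κ) ≤ 1 := by
    have : κ ≤ 1 / (7 * n) := by rw [hκ]; exact min_le_right _ _
    rw [le_div_iff₀ (by positivity)] at this
    linarith
  obtain ⟨δ₀, Q, X₀, h1, h2, h3, h4⟩ := dens_long K (h := 7 / 8) (c := 1 / 2) (η := κ)
    (by norm_num) (by norm_num) (by norm_num) hκ0
  obtain ⟨N₁, hN₁, hN₁'⟩ := exists_ge (κ / 2) (4 * Q + 1) (by positivity)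
  obtain ⟨N₂, hN₂, hN₂'⟩ := exists_ge κ 1 hκ0
  -- logarithms
  obtain ⟨N₃, hN₃⟩ : ∃ N₃ : ℝ, ∀ x : ℝ, N₃ ≤ x → Real.log x ≤ x ^ (κ / 2) := by
    have h5 := (isLittleO_log_rpow_atTop (show 0 < κ / 2 by positivity)).bound one_pos
    obtain ⟨a, ha⟩ := h5.exists_forall_of_atTop
    refine ⟨max a 1, fun x hx => ?_⟩
    have h6 := ha x ((le_max_left _ _).trans hx)
    have hx1 : 1 ≤ x := (le_max_right _ _).trans hx
    rw [one_mul, Real.norm_of_nonneg (Real.log_nonneg hx1),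
      Real.norm_of_nonneg (by positivity)] at h6
    exact h6
  refine ⟨δ₀, κ, max (max X₀ N₁) N₃, h1, hκ0, fun 𝔮 hbot hX hU => ?_⟩
  obtain ⟨htop, h5⟩ := h4 𝔮 hbot (((le_max_left _ _).trans (le_max_left _ _)).trans hX) hU
  obtain ⟨N, hN⟩ : ∃ N : ℝ, N = (Ideal.absNorm 𝔮 : ℝ) := ⟨_, rfl⟩
  rw [← hN] at hX h5 ⊢
  have hX1 : X₀ ≤ N := ((le_max_left _ _).trans (le_max_left _ _)).trans hX
  have hX2 : N₁ ≤ N := ((le_max_right _ _).trans (le_max_left _ _)).trans hX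
  have hX3 : N₃ ≤ N := (le_max_right _ _).trans hX
  have hN1 : 1 ≤ N := h3.trans hX1
  have hNpos : 0 < N := by linarith
  have hTn : (N ^ κ) ^ n = N ^ (n * κ) := by
    rw [← Real.rpow_natCast, ← Real.rpow_mul hNpos.le, mul_comm]
  have hNT : N * (N ^ κ) ^ n = N ^ (1 + n * κ) := by
    rw [hTn, Real.rpow_add hNpos, Real.rpow_one]
  have hTh : (N * (N ^ κ) ^ n) ^ (7 / 8 : ℝ) ≤ N := by
    rw [hNT, ← Real.rpow_mul hNpos.le]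
    calc N ^ ((1 + n * κ) * (7 / 8)) ≤ N ^ (1 : ℝ) := by
          refine Real.rpow_le_rpow_of_exponent_le hN1 ?_
          linarith
      _ = N := Real.rpow_one _
  have h6 := h5 (N ^ κ) (N ^ κ) le_rfl le_rfl (by rw [← hn]; exact hTh)
  rw [hN] at h6
  obtain ⟨h7, h8⟩ := exc_of K hbot htop (T := (Ideal.absNorm 𝔮 : ℝ) ^ κ)
    (H := (Ideal.absNorm 𝔮 : ℝ) ^ κ) (by positivity) le_rfl h6 hε.le
  rw [← hN, ← hn] at h8
  refine h8.trans ?_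
  have e1 : Real.log (N * (N ^ κ) ^ n) ≤ 2 * N ^ (κ / 2) := by
    rw [hNT, Real.log_rpow hNpos]
    have h9 := hN₃ N hX3
    have h10 := Real.log_nonneg hN1
    nlinarith
  have e2 : (N * (N ^ κ) ^ n) ^ (-(1 / 2 * ε)) ≤ N ^ (-(4 * κ)) := by
    rw [hNT, ← Real.rpow_mul hNpos.le]
    refine Real.rpow_le_rpow_of_exponent_le hN1 ?_
    have : 0 ≤ n * κ * (1 / 2 * ε) := by positivity
    nlinarith
  have e3 : 4 * Q ≤ N ^ (κ / 2) := by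
    have := hN₁' N hX2
    linarith
  have hf0 : (0 : ℝ) ≤ ((Fam 𝔮).ncard : ℝ) := Nat.cast_nonneg _
  have hlog0 : 0 ≤ Real.log (N * (N ^ κ) ^ n) := by
    rw [hNT, Real.log_rpow hNpos]
    have := Real.log_nonneg hN1
    positivity
  calc 2 * (Q * (((Fam 𝔮).ncard : ℝ) * N ^ κ * Real.log (N * (N ^ κ) ^ n) *
        (N * (N ^ κ) ^ n) ^ (-(1 / 2 * ε)))) ≤
      2 * (Q * (((Fam 𝔮).ncard : ℝ) * N ^ κ * (2 * N ^ (κ / 2)) * N ^ (-(4 * κ)))) := by gcongr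
    _ = (4 * Q) * (N ^ κ * N ^ (κ / 2) * N ^ (-(4 * κ))) * ((Fam 𝔮).ncard : ℝ) := by ring
    _ ≤ N ^ (κ / 2) * (N ^ κ * N ^ (κ / 2) * N ^ (-(4 * κ))) * ((Fam 𝔮).ncard : ℝ) := by
        gcongr
    _ = N ^ (-(2 * κ)) * ((Fam 𝔮).ncard : ℝ) := by
        rw [← Real.rpow_add hNpos, ← Real.rpow_add hNpos, ← Real.rpow_add hNpos]
        congr 2
        ring
    _ ≤ N ^ (-κ) * ((Fam 𝔮).ncard : ℝ) := by
        refine mul_le_mul_of_nonneg_right ?_ hf0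
        exact Real.rpow_le_rpow_of_exponent_le hN1 (by linarith)

end

/-- **imaginary quadratic fields: for almost all members all the zeros of small height are near
the critical line** -/
theorem almost_short (K : Type) [Field K] [NumberField K] [IsTotallyComplex K]
    (h2 : finrank ℚ K = 2) {a b κ : ℝ} (ha : 0 ≤ a) (hb : 0 ≤ b) (hκ : a + b + 1 < κ) :
    ∃ X₀ : ℝ, ∀ 𝔮 : Ideal (𝓞 K), 𝔮 ≠ ⊥ → X₀ ≤ (Ideal.absNorm 𝔮 : ℝ) →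
      ((Exc K 𝔮 (κ * Real.log (Real.log (Ideal.absNorm 𝔮)) / Real.log (Ideal.absNorm 𝔮))
        ((Real.log (Ideal.absNorm 𝔮)) ^ a)).ncard : ℝ) ≤
        ((Fam 𝔮).ncard : ℝ) / (Real.log (Ideal.absNorm 𝔮)) ^ b := by
  have hκ0 : 0 < κ := by linarith
  obtain ⟨c, hc1, hc2⟩ : ∃ c : ℝ, (a + b + 1) / κ < c ∧ c < 1 :=
    exists_between ((div_lt_one hκ0).mpr hκ)
  have hc0 : 0 < c := lt_of_le_of_lt (by positivity) hc1
  rw [div_lt_iff₀ hκ0] at hc1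
  obtain ⟨h, hh⟩ : ∃ h : ℝ, h = (3 + c) / 4 := ⟨_, rfl⟩
  have hh1 : h < 1 := by rw [hh]; linarith
  have hh0 : 0 < h := by rw [hh]; linarith
  obtain ⟨Q, X₀, hQ, hX₀, hd⟩ := dens_short K h2 (h := h) (c := c) hh1.le hc0
    (by rw [hh]; linarith)
  obtain ⟨g, hg⟩ : ∃ g : ℝ, g = c * κ - a - b - 1 := ⟨_, rfl⟩
  have hg0 : 0 < g := by rw [hg]; linarith
  -- logarithms
  obtain ⟨L₀, hL₀, hL₀'⟩ := exists_ge g (4 * Q) hg0
  obtain ⟨N₃, hN₃⟩ : ∃ N₃ : ℝ, ∀ x : ℝ, N₃ ≤ x →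
      (Real.log x) ^ (2 * a) ≤ x ^ (1 / h - 1) ∧ (Real.log x) ^ (2 * a) ≤ x := by
    have hh2 : 0 < 1 / h - 1 := by
      rw [sub_pos, lt_div_iff₀ hh0]
      linarith
    have h5 := (isLittleO_log_rpow_rpow_atTop (2 * a) hh2).bound one_pos
    have h5' := (isLittleO_log_rpow_rpow_atTop (2 * a) (one_pos (α := ℝ))).bound one_pos
    obtain ⟨y, hy⟩ := (h5.and h5').exists_forall_of_atTop
    refine ⟨max y 1, fun x hx => ?_⟩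
    obtain ⟨h6, h7⟩ := hy x ((le_max_left _ _).trans hx)
    have hx1 : 1 ≤ x := (le_max_right _ _).trans hx
    have hlx := Real.log_nonneg hx1
    rw [one_mul, Real.norm_of_nonneg (by positivity),
      Real.norm_of_nonneg (by positivity)] at h6 h7
    rw [Real.rpow_one] at h7
    exact ⟨h6, h7⟩
  refine ⟨max (max X₀ N₃) (Real.exp L₀), fun 𝔮 hbot hX => ?_⟩
  obtain ⟨htop, hdd⟩ := hd 𝔮 hbot (((le_max_left _ _).trans (le_max_left _ _)).trans hX)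
  have hX1 : X₀ ≤ (Ideal.absNorm 𝔮 : ℝ) := ((le_max_left _ _).trans (le_max_left _ _)).trans hX
  have hX2 : N₃ ≤ (Ideal.absNorm 𝔮 : ℝ) := ((le_max_right _ _).trans (le_max_left _ _)).trans hX
  have hX3 : Real.exp L₀ ≤ (Ideal.absNorm 𝔮 : ℝ) := (le_max_right _ _).trans hX
  have hN1 : (1 : ℝ) ≤ (Ideal.absNorm 𝔮 : ℝ) := hX₀.trans hX1
  have hNpos : (0 : ℝ) < (Ideal.absNorm 𝔮 : ℝ) := by linarith
  obtain ⟨L, hL⟩ : ∃ L : ℝ, L = Real.log (Ideal.absNorm 𝔮 : ℝ) := ⟨_, rfl⟩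
  have hLL₀ : L₀ ≤ L := by
    rw [hL, Real.le_log_iff_exp_le hNpos]
    exact hX3
  have hL1 : 1 ≤ L := hL₀.trans hLL₀
  have hL0 : 0 < L := by linarith
  obtain ⟨k1, k2⟩ := hN₃ _ hX2
  rw [← hL] at k1 k2 ⊢
  have hT1 : 1 ≤ L ^ a := Real.one_le_rpow hL1 ha
  have hsq : (L ^ a) ^ 2 = L ^ (2 * a) := by
    rw [← Real.rpow_natCast, ← Real.rpow_mul hL0.le, mul_comm]
    norm_num
  obtain ⟨N, hN⟩ : ∃ N : ℝ, N = (Ideal.absNorm 𝔮 : ℝ) := ⟨_, rfl⟩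
  rw [← hN] at k1 k2 hL hN1 hNpos
  have hTh : (N * (L ^ a) ^ finrank ℚ K) ^ h ≤ N := by
    rw [h2, hsq]
    calc (N * L ^ (2 * a)) ^ h ≤ (N * N ^ (1 / h - 1)) ^ h := by
          refine Real.rpow_le_rpow (by positivity) ?_ hh0.le
          exact mul_le_mul_of_nonneg_left k1 hNpos.le
      _ = N := by
          have e1 : N * N ^ (1 / h - 1) = N ^ (1 / h) := by
            conv_lhs => rw [← Real.rpow_one N]
            rw [← Real.rpow_mul hNpos.le, ← Real.rpow_add hNpos]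
            congr 1
            ring
          rw [e1, ← Real.rpow_mul hNpos.le, one_div_mul_cancel hh0.ne', Real.rpow_one]
  rw [hN] at hTh
  obtain ⟨δ, hδ⟩ : ∃ δ : ℝ, δ = κ * Real.log L / L := ⟨_, rfl⟩
  have hδ0 : 0 ≤ δ := by
    rw [hδ]
    have := Real.log_nonneg hL1
    positivity
  rw [← hδ]
  obtain ⟨h7, h8⟩ := exc_of K hbot htop (T := L ^ a) (H := L ^ a) (by positivity) le_rfl
    (hdd (L ^ a) (L ^ a) hT1 le_rfl hTh) hδ0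
  refine h8.trans ?_
  rw [← hN, h2, hsq]
  have hNL : 1 ≤ N * L ^ (2 * a) := by
    refine one_le_mul_of_one_le_of_one_le hN1 (Real.one_le_rpow hL1 (by positivity))
  have e1 : Real.log (N * L ^ (2 * a)) ≤ 2 * L := by
    have e2 : Real.log (N * L ^ (2 * a)) ≤ Real.log (N * N) :=
      Real.log_le_log (by positivity) (mul_le_mul_of_nonneg_left k2 hNpos.le)
    rw [Real.log_mul hNpos.ne' hNpos.ne', ← hL] at e2
    linarith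
  have e2 : (N * L ^ (2 * a)) ^ (-(c * δ)) ≤ L ^ (-(c * κ)) := by
    have e3 : (N * L ^ (2 * a)) ^ (-(c * δ)) ≤ N ^ (-(c * δ)) := by
      refine Real.rpow_le_rpow_of_nonpos hNpos ?_ (by nlinarith)
      exact le_mul_of_one_le_right hNpos.le (Real.one_le_rpow hL1 (by positivity))
    refine e3.trans (le_of_eq ?_)
    rw [Real.rpow_def_of_pos hNpos, ← hL, Real.rpow_def_of_pos hL0, hδ]
    congr 1
    field_simp
  have e3 : 4 * Q ≤ L ^ g := hL₀' L hLL₀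
  have hf0 : (0 : ℝ) ≤ ((Fam 𝔮).ncard : ℝ) := Nat.cast_nonneg _
  have hlog0 : 0 ≤ Real.log (N * L ^ (2 * a)) := Real.log_nonneg hNL
  calc 2 * (Q * (((Fam 𝔮).ncard : ℝ) * L ^ a * Real.log (N * L ^ (2 * a)) *
        (N * L ^ (2 * a)) ^ (-(c * δ)))) ≤
      2 * (Q * (((Fam 𝔮).ncard : ℝ) * L ^ a * (2 * L) * L ^ (-(c * κ)))) := by gcongr
    _ = (4 * Q) * (L ^ a * L ^ (1 : ℝ) * L ^ (-(c * κ))) * ((Fam 𝔮).ncard : ℝ) := by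
        rw [Real.rpow_one]; ring
    _ ≤ L ^ g * (L ^ a * L ^ (1 : ℝ) * L ^ (-(c * κ))) * ((Fam 𝔮).ncard : ℝ) := by gcongr
    _ = L ^ (-b) * ((Fam 𝔮).ncard : ℝ) := by
        rw [← Real.rpow_add hL0, ← Real.rpow_add hL0, ← Real.rpow_add hL0]
        congr 2
        rw [hg]
        ring
    _ = _ := by rw [Real.rpow_neg hL0.le]; ring

end Pool.Agent.T9h27.K
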