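import Pool.Agent.T9h27.C.Fst
import Pool.Agent.T9h27.K.Short

/-!
# The off-diagonal terms of the first moment, ray class characters (helper27)
-/

set_option autoImplicit false
set_option linter.unusedSectionVars false

open NumberField Module

namespace Pool.Agent.T9h27.K

open Pool.Agent.T9h27.D
open Pool.Agent.T9h27.C (Off)
open Pool.Agent.Y773.IQ (ne_zero_of_cop absNorm_pos' dv dv_finite divisor_bound)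
open Pool.Agent.N784.AD

section

variable (K : Type) [Field K] [NumberField K]

open Classical in
/-- the ideals of norm `≤ Z` in the class of `1` -/
lemma one_class {e : ℝ} (he : 0 < e) : ∃ C : ℝ, 1 ≤ C ∧
    ∀ (𝔪 : Ideal (𝓞 K)) (_ : 𝔪 ≠ ⊥) (_ : 𝔪 ≠ ⊤) (Z : ℕ), 1 ≤ Z →
    (∀ 𝔞 : Ideal (𝓞 K), 𝔞 ≠ ⊥ → 𝔞 ≠ ⊤ → Rl 𝔪 𝔞 ⊤ → Ideal.absNorm 𝔪 ≤ 4 * Ideal.absNorm 𝔞) →
    (Ideal.absNorm 𝔪 : ℝ) * ∑ 𝔞 ∈ (SI (nK K) Z).filter (fun 𝔞 => 𝔞 ≠ ⊤ ∧ Rl 𝔪 𝔞 ⊤),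
      (nK K 𝔞 : ℝ) ^ (e - 1 / 2) ≤ C * Un 𝔪 * (Z : ℝ) ^ (1 / 2 + 2 * e) := by
  obtain ⟨C, hC, hcnt⟩ := cop_count K
  obtain ⟨C₂, hC₂, hlg⟩ := log_pow he
  refine ⟨9 * C * C₂, by nlinarith, ?_⟩
  intro 𝔪 hbot htop Z hZ hsep
  have hNm : (1 : ℝ) ≤ (Ideal.absNorm 𝔪 : ℝ) := by exact_mod_cast absNorm_pos' hbot
  have hNm0 : (0 : ℝ) < (Ideal.absNorm 𝔪 : ℝ) := by linarith
  have hZ1 : (1 : ℝ) ≤ Z := by exact_mod_cast hZ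
  have hZ0 : (0 : ℝ) < Z := by linarith
  obtain ⟨S, hS⟩ : ∃ S : Finset (Ideal (𝓞 K)), S =
    (SI (nK K) Z).filter (fun 𝔞 => 𝔞 ≠ ⊤ ∧ Rl 𝔪 𝔞 ⊤) := ⟨_, rfl⟩
  rw [← hS]
  have hSm : ∀ 𝔞 ∈ S, (1 ≤ nK K 𝔞 ∧ nK K 𝔞 ≤ Z) ∧ 𝔞 ≠ ⊥ ∧ 𝔞 ≠ ⊤ ∧ Rl 𝔪 𝔞 ⊤ := by
    intro 𝔞 h
    rw [hS, Finset.mem_filter] at h
    exact ⟨(ns_K K).mem_SI.mp h.1, (ns_K K).SI_ne h.1, h.2.1, h.2.2⟩
  have hmaps : ∀ 𝔞 ∈ S, Nat.log 2 (nK K 𝔞) ∈ Finset.range (Nat.log 2 Z + 1) := by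
    intro 𝔞 h
    rw [Finset.mem_range]
    exact Nat.lt_succ_of_le (Nat.log_mono_right (hSm 𝔞 h).1.2)
  rw [← Finset.sum_fiberwise_of_maps_to hmaps]
  have hbox : ∀ j ∈ Finset.range (Nat.log 2 Z + 1),
      ∑ 𝔞 ∈ S.filter (fun 𝔞 => Nat.log 2 (nK K 𝔞) = j), (nK K 𝔞 : ℝ) ^ (e - 1 / 2) ≤
      9 * C * Un 𝔪 * (Z : ℝ) ^ (1 / 2 + e) / (Ideal.absNorm 𝔪 : ℝ) := by
    intro j hj
    rw [Finset.mem_range] at hj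
    obtain ⟨x, hx⟩ : ∃ x : ℝ, x = 2 ^ j := ⟨_, rfl⟩
    have hx0 : 0 < x := by rw [hx]; positivity
    have hxZ : x ≤ Z := by
      rw [hx]
      have : 2 ^ j ≤ Z := (Nat.pow_le_pow_right (by norm_num) (Nat.lt_succ_iff.mp hj)).trans
        (Nat.pow_log_le_self 2 (by omega))
      exact_mod_cast this
    obtain ⟨U, hU⟩ : ∃ U : Finset (Ideal (𝓞 K)), U = S.filter (fun 𝔞 => Nat.log 2 (nK K 𝔞) = j) :=
      ⟨_, rfl⟩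
    rw [← hU]
    have hmem : ∀ 𝔞 ∈ U, 𝔞 ∈ S ∧ x ≤ (nK K 𝔞 : ℝ) ∧ (nK K 𝔞 : ℝ) ≤ 2 * x := by
      intro 𝔞 h
      rw [hU, Finset.mem_filter] at h
      obtain ⟨h1, h3⟩ := h
      have g1 := (hSm 𝔞 h1).1.1
      refine ⟨h1, ?_⟩
      rw [hx, ← h3]
      have a1 := Nat.pow_log_le_self 2 (x := nK K 𝔞) (by omega)
      have a2 := (Nat.lt_pow_succ_log_self (b := 2) (by norm_num) (nK K 𝔞)).le
      rw [pow_succ, mul_comm] at a2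
      exact ⟨by exact_mod_cast a1, by exact_mod_cast a2⟩
    have hUn : (0 : ℝ) ≤ Un 𝔪 := Nat.cast_nonneg _
    rcases U.eq_empty_or_nonempty with hUe | ⟨𝔞₀, h𝔞₀⟩
    · rw [hUe, Finset.sum_empty]
      positivity
    · obtain ⟨P, hP⟩ : ∃ P : Finset (Ideal (𝓞 K) × Ideal (𝓞 K)), P =
        U.map ⟨fun 𝔞 => (𝔞, ⊤), fun a b h => (Prod.ext_iff.mp h).1⟩ := ⟨_, rfl⟩
      have hPc : P.card = U.card := by rw [hP, Finset.card_map]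
      have hPm : ∀ p ∈ P, p.1 ∈ U ∧ p.2 = ⊤ := by
        intro p hp
        rw [hP, Finset.mem_map] at hp
        obtain ⟨𝔞, ha, h⟩ := hp
        rw [← h]
        exact ⟨ha, rfl⟩
      have htb : (⊤ : Ideal (𝓞 K)) ≠ ⊥ := top_ne_bot
      have hcard := hcnt 𝔪 hbot htop P x 1 hx0 one_pos (by
        intro p hp
        obtain ⟨q1, q2⟩ := hPm p hp
        obtain ⟨h1, h2, h3⟩ := hmem p.1 q1
        obtain ⟨-, g1, g2, g3⟩ := hSm p.1 h1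
        rw [q2]
        have g4 : IsCoprime p.1 (⊤ : Ideal (𝓞 K)) := by
          rw [← Ideal.one_eq_top]
          exact isCoprime_one_right
        refine ⟨g1, htb, g4, g3, ⟨h2, h3⟩, ?_, ?_⟩
        · rw [Ideal.absNorm_top]
          norm_num
        · rw [Ideal.absNorm_top]
          norm_num)
      rw [hPc] at hcard
      have hsm : (Ideal.absNorm 𝔪 : ℝ) ≤ 8 * x := by
        obtain ⟨h1, h2, h3⟩ := hmem 𝔞₀ h𝔞₀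
        obtain ⟨-, g1, g2, g3⟩ := hSm 𝔞₀ h1
        have h4 : (Ideal.absNorm 𝔪 : ℝ) ≤ 4 * (nK K 𝔞₀ : ℝ) := by
          exact_mod_cast hsep 𝔞₀ g1 g2 g3
        linarith
      have hw : ∀ 𝔞 ∈ U, (nK K 𝔞 : ℝ) ^ (e - 1 / 2) ≤ (Z : ℝ) ^ e * x ^ (-(1 / 2) : ℝ) := by
        intro 𝔞 ha
        obtain ⟨h1, h2, h3⟩ := hmem 𝔞 ha
        obtain ⟨⟨g1, g1'⟩, -⟩ := hSm 𝔞 h1
        have k1 : (1 : ℝ) ≤ nK K 𝔞 := by exact_mod_cast g1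
        have k2 : (nK K 𝔞 : ℝ) ≤ Z := by exact_mod_cast g1'
        have e1 : (nK K 𝔞 : ℝ) ^ (e - 1 / 2) = (nK K 𝔞 : ℝ) ^ e * (nK K 𝔞 : ℝ) ^ (-(1 / 2) : ℝ) := by
          rw [← Real.rpow_add (by linarith)]
          congr 1
        rw [e1]
        refine mul_le_mul (Real.rpow_le_rpow (by linarith) k2 he.le) ?_ (by positivity)
          (by positivity)
        exact Real.rpow_le_rpow_of_nonpos hx0 h2 (by norm_num)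
      refine (Finset.sum_le_sum hw).trans ?_
      rw [Finset.sum_const, nsmul_eq_mul, le_div_iff₀ hNm0]
      have e2 : x ^ (-(1 / 2) : ℝ) * x ≤ (Z : ℝ) ^ (1 / 2 : ℝ) := by
        have : x ^ (-(1 / 2) : ℝ) * x = x ^ (1 / 2 : ℝ) := by
          nth_rewrite 2 [← Real.rpow_one x]
          rw [← Real.rpow_add hx0]
          norm_num
        rw [this]
        exact Real.rpow_le_rpow hx0.le hxZ (by norm_num)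
      have e3 : (1 + x * 1 / (Ideal.absNorm 𝔪 : ℝ)) * (Ideal.absNorm 𝔪 : ℝ) ≤ 9 * x := by
        rw [add_mul, one_mul, mul_one, div_mul_cancel₀ _ hNm0.ne']
        linarith
      have e4 : (Z : ℝ) ^ (1 / 2 + e) = (Z : ℝ) ^ (1 / 2 : ℝ) * (Z : ℝ) ^ e := by
        rw [← Real.rpow_add hZ0]
      have hC0 : 0 ≤ C := by linarith
      calc (U.card : ℝ) * ((Z : ℝ) ^ e * x ^ (-(1 / 2) : ℝ)) * (Ideal.absNorm 𝔪 : ℝ) ≤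
          (C * Un 𝔪 * (1 + x * 1 / (Ideal.absNorm 𝔪 : ℝ))) *
            ((Z : ℝ) ^ e * x ^ (-(1 / 2) : ℝ)) * (Ideal.absNorm 𝔪 : ℝ) := by gcongr
        _ = C * Un 𝔪 * ((1 + x * 1 / (Ideal.absNorm 𝔪 : ℝ)) * (Ideal.absNorm 𝔪 : ℝ)) *
            ((Z : ℝ) ^ e * x ^ (-(1 / 2) : ℝ)) := by ring
        _ ≤ C * Un 𝔪 * (9 * x) * ((Z : ℝ) ^ e * x ^ (-(1 / 2) : ℝ)) := by gcongr
        _ = 9 * C * Un 𝔪 * (x ^ (-(1 / 2) : ℝ) * x) * (Z : ℝ) ^ e := by ring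
        _ ≤ 9 * C * Un 𝔪 * (Z : ℝ) ^ (1 / 2 : ℝ) * (Z : ℝ) ^ e := by gcongr
        _ = _ := by rw [e4]; ring
  have h1 := Finset.sum_le_sum hbox
  rw [Finset.sum_const, nsmul_eq_mul, Finset.card_range] at h1
  have h2 : ((Nat.log 2 Z + 1 : ℕ) : ℝ) ≤ C₂ * (Z : ℝ) ^ e := by
    refine le_trans ?_ (hlg Z hZ)
    push_cast
    have : (0 : ℝ) ≤ (Nat.log 2 Z : ℝ) := Nat.cast_nonneg _
    nlinarith
  have hUn : (0 : ℝ) ≤ Un 𝔪 := Nat.cast_nonneg _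
  have hC0 : 0 ≤ C := by linarith
  have e5 : (Z : ℝ) ^ (1 / 2 + 2 * e) = (Z : ℝ) ^ e * (Z : ℝ) ^ (1 / 2 + e) := by
    rw [← Real.rpow_add hZ0]
    congr 1
    ring
  calc _ ≤ (Ideal.absNorm 𝔪 : ℝ) * (((Nat.log 2 Z + 1 : ℕ) : ℝ) *
        (9 * C * Un 𝔪 * (Z : ℝ) ^ (1 / 2 + e) / (Ideal.absNorm 𝔪 : ℝ))) :=
        mul_le_mul_of_nonneg_left h1 hNm0.le
    _ ≤ (Ideal.absNorm 𝔪 : ℝ) * ((C₂ * (Z : ℝ) ^ e) *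
        (9 * C * Un 𝔪 * (Z : ℝ) ^ (1 / 2 + e) / (Ideal.absNorm 𝔪 : ℝ))) := by gcongr
    _ = 9 * C * C₂ * Un 𝔪 * ((Z : ℝ) ^ e * (Z : ℝ) ^ (1 / 2 + e)) := by
        field_simp
    _ = _ := by rw [e5]

open Classical in
/-- **the off-diagonal terms** -/
theorem off_K {e : ℝ} (he : 0 < e) (he2 : e ≤ 1 / 4) : ∃ C : ℝ, 1 ≤ C ∧
    ∀ (𝔮 : Ideal (𝓞 K)) (_ : 𝔮 ≠ ⊥) (_ : 𝔮 ≠ ⊤) (X Y : ℕ), 1 ≤ X → 1 ≤ Y →
    (∀ 𝔪 ∈ DD 𝔮, ∀ 𝔞 : Ideal (𝓞 K), 𝔞 ≠ ⊥ → 𝔞 ≠ ⊤ → Rl 𝔪 𝔞 ⊤ →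
      Ideal.absNorm 𝔪 ≤ 4 * Ideal.absNorm 𝔞) →
    Off (nK K) (FF 𝔮) (fun ψ => ψ) X Y (1 / 2) ≤
      C * Un 𝔮 * (Ideal.absNorm 𝔮 : ℝ) ^ e * ((X * Y : ℕ) : ℝ) ^ (1 / 2 + 2 * e) := by
  obtain ⟨C₁, hC₁, hone⟩ := one_class K he
  obtain ⟨Z₀, hZ₀, hsp⟩ := sum_pow K he
  obtain ⟨C₃, hC₃, hdv⟩ := divisor_bound K he
  have hhK : (1 : ℝ) ≤ hK K := by
    have h1 : 0 < hK K := by
      unfold hK
      exact Nat.mul_pos Nat.card_pos Nat.card_pos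
    exact_mod_cast h1
  refine ⟨C₃ * hK K * Z₀ + C₃ * hK K * C₃ * C₁, ?_, ?_⟩
  · have h1 : 1 ≤ C₃ * hK K * Z₀ :=
      one_le_mul_of_one_le_of_one_le (one_le_mul_of_one_le_of_one_le hC₃ hhK) hZ₀
    have h2 : 0 ≤ C₃ * hK K * C₃ * C₁ := by positivity
    linarith
  intro 𝔮 hbot htop X Y hX hY hsep
  obtain ⟨Z, hZ⟩ : ∃ Z : ℕ, Z = X * Y := ⟨_, rfl⟩
  have hZ1 : 1 ≤ Z := by rw [hZ]; exact Nat.mul_pos hX hY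
  have hZ1' : (1 : ℝ) ≤ Z := by exact_mod_cast hZ1
  have hZ0 : (0 : ℝ) < Z := by linarith
  rw [← hZ]
  have hNq : (1 : ℝ) ≤ (Ideal.absNorm 𝔮 : ℝ) := by exact_mod_cast absNorm_pos' hbot
  have hUn1 : (1 : ℝ) ≤ Un 𝔮 := by exact_mod_cast one_le_Un hbot
  obtain ⟨u, hu⟩ : ∃ u : Ideal (𝓞 K) → ℝ, ∀ 𝔞, u 𝔞 =
    ‖∑ ψ ∈ FF 𝔮, ψ 𝔞‖ * (nK K 𝔞 : ℝ) ^ (-(1 / 2) : ℝ) := ⟨_, fun _ => rfl⟩
  have hu0 : ∀ 𝔞, 0 ≤ u 𝔞 := fun 𝔞 => by rw [hu]; positivity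
  -- the sum over the products
  have h1 : Off (nK K) (FF 𝔮) (fun ψ => ψ) X Y (1 / 2) ≤
      ∑ 𝔞 ∈ (SI (nK K) Z).filter (fun 𝔞 => 𝔞 ≠ ⊤), ((dv 𝔞).ncard : ℝ) * u 𝔞 := by
    obtain ⟨T, hT⟩ : ∃ T : Finset (Ideal (𝓞 K) × Ideal (𝓞 K)), T =
      (SI (nK K) X ×ˢ SI (nK K) Y).filter (fun p => p ≠ (1, 1)) := ⟨_, rfl⟩
    have hOff : Off (nK K) (FF 𝔮) (fun ψ => ψ) X Y (1 / 2) = ∑ p ∈ T,
        ‖∑ ψ ∈ FF 𝔮, ψ (p.1 * p.2)‖ *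
          Real.exp (-(1 / 2 * (lN (nK K) p.1 + lN (nK K) p.2))) := by
      unfold Off
      refine Finset.sum_congr ?_ fun _ _ => rfl
      rw [hT]
      ext p
      rw [Finset.mem_filter, Finset.mem_filter]
    rw [hOff]
    have hTm : ∀ p ∈ T, p.1 ∈ SI (nK K) X ∧ p.2 ∈ SI (nK K) Y ∧ p ≠ (1, 1) := by
      intro p hp
      rw [hT, Finset.mem_filter, Finset.mem_product] at hp
      exact ⟨hp.1.1, hp.1.2, hp.2⟩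
    have hmaps : ∀ p ∈ T, p.1 * p.2 ∈ (SI (nK K) Z).filter (fun 𝔞 => 𝔞 ≠ ⊤) := by
      intro p hp
      obtain ⟨p1, p2, p3⟩ := hTm p hp
      obtain ⟨a1, a2⟩ := (ns_K K).mem_SI.mp p1
      obtain ⟨b1, b2⟩ := (ns_K K).mem_SI.mp p2
      rw [Finset.mem_filter, (ns_K K).mem_SI, map_mul, hZ]
      refine ⟨⟨Nat.mul_pos a1 b1, Nat.mul_le_mul a2 b2⟩, fun h => p3 ?_⟩
      have q1 : p.1 = 1 := by
        rw [Ideal.one_eq_top, ← top_le_iff, ← h]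
        exact Ideal.mul_le_left
      have q2 : p.2 = 1 := by
        rw [Ideal.one_eq_top, ← top_le_iff, ← h]
        exact Ideal.mul_le_right
      exact Prod.ext q1 q2
    rw [← Finset.sum_fiberwise_of_maps_to hmaps]
    refine Finset.sum_le_sum fun 𝔞 ha => ?_
    rw [Finset.mem_filter] at ha
    have ha0 : 𝔞 ≠ ⊥ := (ns_K K).SI_ne ha.1
    have h2 : ∀ p ∈ T.filter (fun p => p.1 * p.2 = 𝔞),
        ‖∑ ψ ∈ FF 𝔮, ψ (p.1 * p.2)‖ *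
          Real.exp (-(1 / 2 * (lN (nK K) p.1 + lN (nK K) p.2))) = u 𝔞 := by
      intro p hp
      rw [Finset.mem_filter] at hp
      obtain ⟨hp1, hp2⟩ := hp
      obtain ⟨p1, p2, -⟩ := hTm p hp1
      have a1 : (0 : ℝ) < nK K p.1 := by exact_mod_cast ((ns_K K).mem_SI.mp p1).1
      have b1 : (0 : ℝ) < nK K p.2 := by exact_mod_cast ((ns_K K).mem_SI.mp p2).1
      rw [hu, hp2]
      congr 1
      have e1 : (nK K 𝔞 : ℝ) = (nK K p.1 : ℝ) * (nK K p.2 : ℝ) := by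
        rw [← hp2, map_mul]
        push_cast
        rfl
      rw [e1, Real.rpow_def_of_pos (by positivity), Real.log_mul a1.ne' b1.ne']
      unfold lN
      congr 1
      ring
    rw [Finset.sum_congr rfl h2, Finset.sum_const, nsmul_eq_mul]
    refine mul_le_mul_of_nonneg_right ?_ (hu0 𝔞)
    have h3 : (T.filter (fun p => p.1 * p.2 = 𝔞)).card ≤ (dv 𝔞).ncard := by
      rw [← Set.ncard_coe_finset]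
      refine Set.ncard_le_ncard_of_injOn (fun p => p.1) ?_ ?_ (dv_finite ha0)
      · intro p hp
        have hp' := (Finset.mem_filter.mp (Finset.mem_coe.mp hp)).2
        exact ⟨p.2, hp'.symm⟩
      · intro p hp p' hp' h
        have g1 := (Finset.mem_filter.mp (Finset.mem_coe.mp hp)).2
        have g2 := (Finset.mem_filter.mp (Finset.mem_coe.mp hp')).2
        have g3 : p.1 = p'.1 := h
        have g4 : p.1 ≠ 0 := by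
          intro h0
          rw [h0, zero_mul] at g1
          exact ha0 g1.symm
        refine Prod.ext g3 (mul_left_cancel₀ g4 ?_)
        rw [g1]
        nth_rewrite 1 [g3]
        exact g2.symm
    exact_mod_cast h3
  refine h1.trans ?_
  -- the kernel
  have h2 : ∀ 𝔞 ∈ (SI (nK K) Z).filter (fun 𝔞 => 𝔞 ≠ ⊤), ((dv 𝔞).ncard : ℝ) * u 𝔞 ≤
      C₃ * hK K * ((nK K 𝔞 : ℝ) ^ (e - 1 / 2) + ∑ 𝔪 ∈ DD 𝔮, (Ideal.absNorm 𝔪 : ℝ) *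
        (if Rl 𝔪 𝔞 ⊤ then (nK K 𝔞 : ℝ) ^ (e - 1 / 2) else 0)) := by
    intro 𝔞 ha
    rw [Finset.mem_filter] at ha
    have ha0 : 𝔞 ≠ ⊥ := (ns_K K).SI_ne ha.1
    have k1 : (0 : ℝ) < nK K 𝔞 := by exact_mod_cast ((ns_K K).mem_SI.mp ha.1).1
    have k2 := ker_le hbot htop (𝔞 := 𝔞) (𝔟 := ⊤)
    have k3 : ∑ ψ ∈ FF 𝔮, ψ 𝔞 * (starRingEnd ℂ) (ψ ⊤) = ∑ ψ ∈ FF 𝔮, ψ 𝔞 := by
      refine Finset.sum_congr rfl fun ψ _ => ?_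
      rw [← Ideal.one_eq_top, map_one, map_one, mul_one]
    rw [k3] at k2
    have k4 := hdv 𝔞 ha0
    have e1 : (nK K 𝔞 : ℝ) ^ (e - 1 / 2) = (nK K 𝔞 : ℝ) ^ e * (nK K 𝔞 : ℝ) ^ (-(1 / 2) : ℝ) := by
      rw [← Real.rpow_add k1]
      congr 1
    obtain ⟨D, hD⟩ : ∃ D : ℝ, D = ∑ 𝔪 ∈ DD 𝔮, (Ideal.absNorm 𝔪 : ℝ) *
        (if Rl 𝔪 𝔞 ⊤ then 1 else 0) := ⟨_, rfl⟩
    have hD0 : 0 ≤ D := by
      rw [hD]
      exact Finset.sum_nonneg fun 𝔪 _ => by split_ifs <;> positivity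
    have k5 : (hK K : ℝ) + ∑ 𝔪 ∈ DD 𝔮, (if Rl 𝔪 𝔞 ⊤ then (hK K : ℝ) * (Ideal.absNorm 𝔪 : ℝ) else 0) =
        hK K * (1 + D) := by
      rw [hD, mul_add, mul_one, Finset.mul_sum]
      congr 1
      refine Finset.sum_congr rfl fun 𝔪 _ => ?_
      split_ifs <;> ring
    rw [k5] at k2
    have k6 : ∑ 𝔪 ∈ DD 𝔮, (Ideal.absNorm 𝔪 : ℝ) *
        (if Rl 𝔪 𝔞 ⊤ then (nK K 𝔞 : ℝ) ^ (e - 1 / 2) else 0) = D * (nK K 𝔞 : ℝ) ^ (e - 1 / 2) := by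
      rw [hD, Finset.sum_mul]
      refine Finset.sum_congr rfl fun 𝔪 _ => ?_
      split_ifs <;> ring
    rw [k6, hu]
    calc ((dv 𝔞).ncard : ℝ) * (‖∑ ψ ∈ FF 𝔮, ψ 𝔞‖ * (nK K 𝔞 : ℝ) ^ (-(1 / 2) : ℝ)) ≤
        (C₃ * (nK K 𝔞 : ℝ) ^ e) * ((hK K * (1 + D)) * (nK K 𝔞 : ℝ) ^ (-(1 / 2) : ℝ)) := by
          refine mul_le_mul k4 ?_ (by positivity) (by positivity)
          exact mul_le_mul_of_nonneg_right k2 (by positivity)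
      _ = C₃ * hK K * ((1 + D) * ((nK K 𝔞 : ℝ) ^ e * (nK K 𝔞 : ℝ) ^ (-(1 / 2) : ℝ))) := by ring
      _ = _ := by rw [← e1]; ring
  refine (Finset.sum_le_sum h2).trans ?_
  rw [← Finset.mul_sum, Finset.sum_add_distrib, Finset.sum_comm]
  -- the first part
  have hA : ∑ 𝔞 ∈ (SI (nK K) Z).filter (fun 𝔞 => 𝔞 ≠ ⊤), (nK K 𝔞 : ℝ) ^ (e - 1 / 2) ≤
      Z₀ * (Z : ℝ) ^ (1 / 2 + 2 * e) := by
    have h4 := hsp (e + 1 / 2) Z (by linarith)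
    have e1 : e + 1 / 2 - 1 = e - 1 / 2 := by ring
    have e2 : e + 1 / 2 + e = 1 / 2 + 2 * e := by ring
    rw [e1, e2] at h4
    refine le_trans ?_ h4
    exact Finset.sum_le_sum_of_subset_of_nonneg (Finset.filter_subset _ _)
      (fun _ _ _ => by positivity)
  -- the second part
  have hB : ∀ 𝔪 ∈ DD 𝔮, ∑ 𝔞 ∈ (SI (nK K) Z).filter (fun 𝔞 => 𝔞 ≠ ⊤), (Ideal.absNorm 𝔪 : ℝ) *
      (if Rl 𝔪 𝔞 ⊤ then (nK K 𝔞 : ℝ) ^ (e - 1 / 2) else 0) ≤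
      C₁ * Un 𝔮 * (Z : ℝ) ^ (1 / 2 + 2 * e) := by
    intro 𝔪 h𝔪
    obtain ⟨m1, m2⟩ := (mem_DD hbot).mp h𝔪
    have h𝔪bot : 𝔪 ≠ ⊥ := by
      rintro rfl
      exact hbot (zero_dvd_iff.mp m1)
    rw [← Finset.mul_sum, ← Finset.sum_filter, Finset.filter_filter]
    refine (hone 𝔪 h𝔪bot m2 Z hZ1 (hsep 𝔪 h𝔪)).trans ?_
    have h6 : (Un 𝔪 : ℝ) ≤ Un 𝔮 := by exact_mod_cast Un_mono K hbot m1
    gcongr
  have hB' := Finset.sum_le_sum hB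
  rw [Finset.sum_const, nsmul_eq_mul] at hB'
  have hdd : ((DD 𝔮).card : ℝ) ≤ C₃ * (Ideal.absNorm 𝔮 : ℝ) ^ e := (DD_card hbot).trans (hdv 𝔮 hbot)
  have hq1 : 1 ≤ (Ideal.absNorm 𝔮 : ℝ) ^ e := Real.one_le_rpow hNq he.le
  have hW : 0 ≤ (Z : ℝ) ^ (1 / 2 + 2 * e) := by positivity
  calc C₃ * hK K * (∑ 𝔞 ∈ (SI (nK K) Z).filter (fun 𝔞 => 𝔞 ≠ ⊤), (nK K 𝔞 : ℝ) ^ (e - 1 / 2) +
        ∑ 𝔪 ∈ DD 𝔮, ∑ 𝔞 ∈ (SI (nK K) Z).filter (fun 𝔞 => 𝔞 ≠ ⊤), (Ideal.absNorm 𝔪 : ℝ) *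
          (if Rl 𝔪 𝔞 ⊤ then (nK K 𝔞 : ℝ) ^ (e - 1 / 2) else 0)) ≤
      C₃ * hK K * (Z₀ * (Z : ℝ) ^ (1 / 2 + 2 * e) +
        (C₃ * (Ideal.absNorm 𝔮 : ℝ) ^ e) * (C₁ * Un 𝔮 * (Z : ℝ) ^ (1 / 2 + 2 * e))) := by
        refine mul_le_mul_of_nonneg_left (add_le_add hA (hB'.trans ?_)) (by positivity)
        exact mul_le_mul_of_nonneg_right hdd (by positivity)
    _ = (C₃ * hK K * Z₀) * 1 * 1 * (Z : ℝ) ^ (1 / 2 + 2 * e) +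
        (C₃ * hK K * C₃ * C₁) * Un 𝔮 * (Ideal.absNorm 𝔮 : ℝ) ^ e * (Z : ℝ) ^ (1 / 2 + 2 * e) := by
        ring
    _ ≤ (C₃ * hK K * Z₀) * Un 𝔮 * (Ideal.absNorm 𝔮 : ℝ) ^ e * (Z : ℝ) ^ (1 / 2 + 2 * e) +
        (C₃ * hK K * C₃ * C₁) * Un 𝔮 * (Ideal.absNorm 𝔮 : ℝ) ^ e * (Z : ℝ) ^ (1 / 2 + 2 * e) := by
        gcongr
    _ = _ := by ring

end

end Pool.Agent.T9h27.K
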