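import Pool.Agent.T9h27.C.Nv
import Pool.Agent.T9h27.C.Nd
import Pool.Agent.T9h27.K.Off
import Pool.Agent.T9h27.K.Cor
import Pool.Agent.Y773.IQ.Num

/-!
# Central values and central zeros of the ray class characters of an imaginary quadratic field
(helper27)
-/

set_option autoImplicit false
set_option linter.unusedSectionVars false

open NumberField Module Complex

namespace Pool.Agent.T9h27.K

open Pool.Agent.T9h27.D
open Pool.Agent.T9h27.C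
open Pool.Agent.Y773 (LI)
open Pool.Agent.Y773.IQ (Fam absNorm_pos' exists_ge LL)
open Pool.Agent.N784.AD
open Pool.Agent.R399.TW (pt)

variable (K : Type) [Field K] [NumberField K]

lemma Un_le_card (h2 : finrank ℚ K = 2) [IsTotallyComplex K] (𝔮 : Ideal (𝓞 K)) :
    (Un 𝔮 : ℝ) ≤ (Nat.card (𝓞 K)ˣ : ℝ) := by
  have hfu := Pool.Agent.Y773.IQ.finite_units h2
  unfold Un
  rw [← Set.image_univ]
  have h5 := Set.ncard_image_le (f := fun u : (𝓞 K)ˣ => Ideal.Quotient.mk 𝔮 (u : 𝓞 K))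
    (Set.finite_univ (α := (𝓞 K)ˣ))
  rw [Set.ncard_univ] at h5
  exact_mod_cast h5

/-- **the large sieve inequality**, imaginary quadratic fields -/
theorem lsu_iq (h2 : finrank ℚ K = 2) [IsTotallyComplex K] {g : ℝ} (hg0 : 0 < g)
    (hg1 : g ≤ 1 / 12) :
    ∃ X₀ : ℝ, 1 ≤ X₀ ∧ ∀ 𝔮 : Ideal (𝓞 K), 𝔮 ≠ ⊥ → 𝔮 ≠ ⊤ → X₀ ≤ (Ideal.absNorm 𝔮 : ℝ) →
      ∀ X : ℕ, 1 ≤ X → (X : ℝ) ≤ (Ideal.absNorm 𝔮 : ℝ) ^ (1 - g) → ∀ H : ℝ, 0 < H →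
      LSU (nK K) (FF 𝔮) (fun ψ => ψ) H ((FF 𝔮).card * H) (g / 32) X := by
  classical
  have he0 : 0 < g / 32 := by positivity
  obtain ⟨C₁, hC₁, hls⟩ := lsu_K K he0 (by linarith)
  obtain ⟨c₀, N₀, hc₀, hN₀, hbig⟩ := Pool.Agent.Y773.IQ.fam_big' K h2 (ε := g / 16) (by positivity)
    (by linarith)
  obtain ⟨U, hU⟩ : ∃ U : ℝ, U = (Nat.card (𝓞 K)ˣ : ℝ) := ⟨_, rfl⟩
  have hU0 : 0 ≤ U := by rw [hU]; exact Nat.cast_nonneg _
  obtain ⟨N₁, hN₁, hN₁'⟩ := exists_ge (g / 2) (C₁ * U * (2 + 1) / c₀) (by positivity)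
  refine ⟨max N₀ N₁, le_max_of_le_left hN₀, ?_⟩
  intro 𝔮 hbot htop hXX X hX1 hXN H hH0
  have hX1' : N₀ ≤ (Ideal.absNorm 𝔮 : ℝ) := (le_max_left _ _).trans hXX
  have hX2' : N₁ ≤ (Ideal.absNorm 𝔮 : ℝ) := (le_max_right _ _).trans hXX
  have hfam1 := hbig 𝔮 hbot htop hX1'
  obtain ⟨N, hN⟩ : ∃ N : ℝ, N = (Ideal.absNorm 𝔮 : ℝ) := ⟨_, rfl⟩
  have hfamc := FF_ncard K hbot htop
  have hUn := Un_le_card K h2 𝔮
  rw [← hU] at hUn
  rw [← hN] at hX1' hX2' hfam1 hXN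
  have hN1 : 1 ≤ N := hN₀.trans hX1'
  have hNpos : 0 < N := by linarith
  have hXN1 : (X : ℝ) ≤ N := hXN.trans (by
    calc N ^ (1 - g) ≤ N ^ (1 : ℝ) := Real.rpow_le_rpow_of_exponent_le hN1 (by linarith)
      _ = N := Real.rpow_one _)
  have hX1'' : (1 : ℝ) ≤ X := by exact_mod_cast hX1
  refine hls 𝔮 hbot htop X hX1 H (2 * N ^ (1 - 1 / 2 : ℝ) * H) _ hH0.le (by positivity)
      ?_ le_rfl ?_ (FF 𝔮) (Finset.Subset.refl _)
  · intro 𝔪 h𝔪 t₁ p hp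
    obtain ⟨m1, m2⟩ := (mem_DD hbot).mp h𝔪
    have hNm : (Ideal.absNorm 𝔪 : ℝ) ≤ N := by
      rw [hN]
      exact_mod_cast Nat.le_of_dvd (absNorm_pos' hbot)
        (Ideal.absNorm_dvd_absNorm_of_le (Ideal.dvd_iff_le.mp m1))
    unfold PP at hp
    rw [Finset.mem_filter, Finset.mem_product] at hp
    obtain ⟨⟨p1, p2⟩, -, p3, p4⟩ := hp
    have q1 := ((ns_K K).mem_SI.mp p1).1
    have q2 := ((ns_K K).mem_SI.mp p2).1
    have q0 : p.2 ≠ ⊥ := by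
      intro h'
      rw [h'] at q2
      have : nK K (⊥ : Ideal (𝓞 K)) = 0 := Ideal.absNorm_bot
      omega
    have h6 := p3.sep (Pool.Agent.Y773.IQ.norm_sub_le' h2) m2 q0 (fun h' => p4 (by rw [h']))
    have h7 : (Ideal.absNorm 𝔪 : ℝ) ≤ 4 * ((nK K p.1 : ℝ) * (nK K p.2 : ℝ)) := by
      have h8 : (Ideal.absNorm 𝔪 : ℝ) ≤ 2 * ((nK K p.1 : ℝ) + (nK K p.2 : ℝ)) := by
        exact_mod_cast h6
      have k1 : (1 : ℝ) ≤ (nK K p.1 : ℝ) := by exact_mod_cast q1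
      have k2 : (1 : ℝ) ≤ (nK K p.2 : ℝ) := by exact_mod_cast q2
      nlinarith [mul_nonneg (sub_nonneg.mpr k1) (sub_nonneg.mpr k2)]
    obtain ⟨r, hr⟩ : ∃ r : ℝ, r = Real.sqrt ((nK K p.1 : ℝ) * (nK K p.2 : ℝ)) := ⟨_, rfl⟩
    have hr0 : 0 ≤ r := by rw [hr]; exact Real.sqrt_nonneg _
    have hrr : r ^ 2 = (nK K p.1 : ℝ) * (nK K p.2 : ℝ) := by
      rw [hr]; exact Real.sq_sqrt (by positivity)
    rw [← hr]
    have h8 : (Ideal.absNorm 𝔪 : ℝ) ≤ 2 * N ^ (1 - 1 / 2 : ℝ) * r := by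
      have e1 : N ^ (1 - 1 / 2 : ℝ) = Real.sqrt N := by
        rw [Real.sqrt_eq_rpow]
        norm_num
      rw [e1]
      have e2 : (Ideal.absNorm 𝔪 : ℝ) =
          Real.sqrt ((Ideal.absNorm 𝔪 : ℝ) * (Ideal.absNorm 𝔪 : ℝ)) := by
        rw [Real.sqrt_mul_self (Nat.cast_nonneg _)]
      rw [e2]
      have e3 : 2 * Real.sqrt N * r = Real.sqrt (N * (4 * r ^ 2)) := by
        rw [Real.sqrt_mul (by positivity), show 4 * r ^ 2 = (2 * r) ^ 2 by ring,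
          Real.sqrt_sq (by positivity)]
        ring
      rw [e3]
      refine Real.sqrt_le_sqrt ?_
      rw [hrr]
      exact mul_le_mul hNm h7 (Nat.cast_nonneg _) (by positivity)
    have h9 := osc_le_H (N := nK K) (t₁ := t₁) (H := H) hH0.le p.1 p.2
    calc _ ≤ H * (2 * N ^ (1 - 1 / 2 : ℝ) * r) :=
          mul_le_mul h9 h8 (Nat.cast_nonneg _) hH0.le
      _ = _ := by ring
  · rw [hfamc, ← hN]
    have f1 : (X : ℝ) ^ (6 * (g / 32)) ≤ N ^ (6 * (g / 32)) :=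
      Real.rpow_le_rpow (by linarith) hXN1 (by positivity)
    have f2 : N ^ (1 - 1 / 2 : ℝ) ≤ N ^ (1 - g) := Real.rpow_le_rpow_of_exponent_le hN1 (by linarith)
    have f4 : C₁ * U * (2 + 1) ≤ c₀ * N ^ (g / 2) := by
      have := hN₁' N hX2'
      rw [div_le_iff₀ hc₀] at this
      linarith
    have f5 : N ^ (g / 32) * N ^ (6 * (g / 32)) * N ^ (1 - g) * N ^ (g / 2) ≤ N ^ (1 - g / 16) := by
      rw [← Real.rpow_add hNpos, ← Real.rpow_add hNpos, ← Real.rpow_add hNpos]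
      exact Real.rpow_le_rpow_of_exponent_le hN1 (by linarith)
    have hUn0 : (0 : ℝ) ≤ Un 𝔮 := Nat.cast_nonneg _
    calc C₁ * Un 𝔮 * N ^ (g / 32) * (X : ℝ) ^ (6 * (g / 32)) *
          (2 * N ^ (1 - 1 / 2 : ℝ) * H + X * H) ≤
        C₁ * U * N ^ (g / 32) * N ^ (6 * (g / 32)) * (2 * N ^ (1 - g) * H + N ^ (1 - g) * H) := by
          gcongr
      _ = (C₁ * U * (2 + 1)) * (N ^ (g / 32) * N ^ (6 * (g / 32)) * N ^ (1 - g)) * H := by ring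
      _ ≤ (c₀ * N ^ (g / 2)) * (N ^ (g / 32) * N ^ (6 * (g / 32)) * N ^ (1 - g)) * H := by
          gcongr
      _ = c₀ * (N ^ (g / 32) * N ^ (6 * (g / 32)) * N ^ (1 - g) * N ^ (g / 2)) * H := by ring
      _ ≤ c₀ * N ^ (1 - g / 16) * H := by gcongr
      _ ≤ _ := by gcongr

open Classical in
/-- **the off-diagonal terms are small** -/
theorem off_iq (h2 : finrank ℚ K = 2) [IsTotallyComplex K] {g h : ℝ} (hg0 : 0 < g)
    (hg1 : g ≤ 1 / 24) (hh : h = 1 / 2 + 12 * g) :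
    ∃ X₀ : ℝ, 1 ≤ X₀ ∧ ∀ 𝔮 : Ideal (𝓞 K), 𝔮 ≠ ⊥ → 𝔮 ≠ ⊤ → X₀ ≤ (Ideal.absNorm 𝔮 : ℝ) →
      ∀ R : ℝ, 0 ≤ R → Real.exp (h * R) ≤ (Ideal.absNorm 𝔮 : ℝ) →
      Off (nK K) (FF 𝔮) (fun ψ => ψ) ⌊Real.exp ((1 + 11 * g) * R)⌋₊ ⌊Real.exp ((2 * g) * R)⌋₊
        (1 / 2) ≤ (FF 𝔮).card * Real.exp (-(2 * g * R)) := by
  obtain ⟨e, he⟩ : ∃ e : ℝ, e = g / 8 := ⟨_, rfl⟩
  have he0 : 0 < e := by rw [he]; positivity
  obtain ⟨C₁, hC₁, hoff⟩ := off_K K he0 (by rw [he]; linarith)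
  obtain ⟨c₀, N₀, hc₀, hN₀, hbig⟩ := Pool.Agent.Y773.IQ.fam_big' K h2 (ε := g) (by positivity)
    (by linarith)
  obtain ⟨U, hU⟩ : ∃ U : ℝ, U = (Nat.card (𝓞 K)ˣ : ℝ) := ⟨_, rfl⟩
  have hU0 : 0 ≤ U := by rw [hU]; exact Nat.cast_nonneg _
  obtain ⟨N₁, hN₁, hN₁'⟩ := exists_ge g (C₁ * U / c₀) hg0
  refine ⟨max N₀ N₁, le_max_of_le_left hN₀, ?_⟩
  intro 𝔮 hbot htop hXX R hR hRN
  have hX1' : N₀ ≤ (Ideal.absNorm 𝔮 : ℝ) := (le_max_left _ _).trans hXX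
  have hX2' : N₁ ≤ (Ideal.absNorm 𝔮 : ℝ) := (le_max_right _ _).trans hXX
  have hfam1 := hbig 𝔮 hbot htop hX1'
  rw [← FF_ncard K hbot htop] at hfam1
  obtain ⟨X, hX⟩ : ∃ X : ℕ, X = ⌊Real.exp ((1 + 11 * g) * R)⌋₊ := ⟨_, rfl⟩
  obtain ⟨Y, hY⟩ : ∃ Y : ℕ, Y = ⌊Real.exp ((2 * g) * R)⌋₊ := ⟨_, rfl⟩
  have hX1 : 1 ≤ X := by
    rw [hX]
    refine Nat.le_floor ?_
    rw [Nat.cast_one]
    exact Real.one_le_exp (by positivity)
  have hY1 : 1 ≤ Y := by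
    rw [hY]
    refine Nat.le_floor ?_
    rw [Nat.cast_one]
    exact Real.one_le_exp (by positivity)
  have h1 := hoff 𝔮 hbot htop X Y hX1 hY1 (by
    intro 𝔪 h𝔪 𝔞 ha0 ha1 hrl
    obtain ⟨m1, m2⟩ := (mem_DD hbot).mp h𝔪
    have h3 := hrl.sep (Pool.Agent.Y773.IQ.norm_sub_le' h2) m2 top_ne_bot ha1
    rw [Ideal.absNorm_top] at h3
    have h4 : 0 < Ideal.absNorm 𝔞 := absNorm_pos' ha0
    omega)
  rw [← hX, ← hY]
  refine h1.trans ?_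
  have hUn := Un_le_card K h2 𝔮
  rw [← hU] at hUn
  obtain ⟨N, hN⟩ : ∃ N : ℝ, N = (Ideal.absNorm 𝔮 : ℝ) := ⟨_, rfl⟩
  rw [← hN] at hX1' hX2' hfam1 hRN ⊢
  have hN1 : 1 ≤ N := hN₀.trans hX1'
  have hNpos : 0 < N := by linarith
  have hXY : ((X * Y : ℕ) : ℝ) ≤ Real.exp ((1 + 13 * g) * R) := by
    have k1 : (X : ℝ) ≤ Real.exp ((1 + 11 * g) * R) := by
      rw [hX]; exact Nat.floor_le (Real.exp_pos _).le
    have k2 : (Y : ℝ) ≤ Real.exp ((2 * g) * R) := by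
      rw [hY]; exact Nat.floor_le (Real.exp_pos _).le
    push_cast
    refine (mul_le_mul k1 k2 (Nat.cast_nonneg _) (Real.exp_pos _).le).trans (le_of_eq ?_)
    rw [← Real.exp_add]
    congr 1
    ring
  have hhR : h * R ≤ Real.log N := by
    rw [Real.le_log_iff_exp_le hNpos]
    exact hRN
  have k1 : ((X * Y : ℕ) : ℝ) ^ (1 / 2 + 2 * e) * Real.exp (2 * g * R) ≤ N ^ (1 - 3 * g) := by
    have k2 : ((X * Y : ℕ) : ℝ) ^ (1 / 2 + 2 * e) ≤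
        Real.exp ((1 + 13 * g) * R * (1 / 2 + 2 * e)) := by
      rw [Real.exp_mul ((1 + 13 * g) * R)]
      exact Real.rpow_le_rpow (Nat.cast_nonneg _) hXY (by positivity)
    refine (mul_le_mul_of_nonneg_right k2 (Real.exp_pos _).le).trans ?_
    rw [← Real.exp_add, Real.rpow_def_of_pos hNpos]
    refine Real.exp_le_exp.mpr ?_
    have k3 : (1 + 13 * g) * R * (1 / 2 + 2 * e) + 2 * g * R ≤ (1 - 3 * g) * (h * R) := by
      have k4 : (1 + 13 * g) * (1 / 2 + 2 * e) + 2 * g ≤ (1 - 3 * g) * h := by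
        rw [hh, he]
        nlinarith
      calc (1 + 13 * g) * R * (1 / 2 + 2 * e) + 2 * g * R =
          ((1 + 13 * g) * (1 / 2 + 2 * e) + 2 * g) * R := by ring
        _ ≤ ((1 - 3 * g) * h) * R := mul_le_mul_of_nonneg_right k4 hR
        _ = _ := by ring
    refine k3.trans ?_
    rw [mul_comm (Real.log N)]
    exact mul_le_mul_of_nonneg_left hhR (by linarith)
  have f4 : C₁ * U ≤ c₀ * N ^ g := by
    have := hN₁' N hX2'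
    rw [div_le_iff₀ hc₀] at this
    linarith
  have f5 : N ^ g * N ^ e * N ^ (1 - 3 * g) ≤ N ^ (1 - g) := by
    rw [← Real.rpow_add hNpos, ← Real.rpow_add hNpos]
    refine Real.rpow_le_rpow_of_exponent_le hN1 ?_
    rw [he]
    linarith
  rw [Real.exp_neg, ← div_eq_mul_inv, le_div_iff₀ (Real.exp_pos _)]
  calc C₁ * Un 𝔮 * N ^ e * ((X * Y : ℕ) : ℝ) ^ (1 / 2 + 2 * e) * Real.exp (2 * g * R) =
      (C₁ * Un 𝔮) * N ^ e * (((X * Y : ℕ) : ℝ) ^ (1 / 2 + 2 * e) * Real.exp (2 * g * R)) := by ring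
    _ ≤ (C₁ * U) * N ^ e * N ^ (1 - 3 * g) := by gcongr
    _ ≤ (c₀ * N ^ g) * N ^ e * N ^ (1 - 3 * g) := by gcongr
    _ = c₀ * (N ^ g * N ^ e * N ^ (1 - 3 * g)) := by ring
    _ ≤ c₀ * N ^ (1 - g) := by gcongr
    _ ≤ _ := hfam1

open Classical in
/-- **central values and central zeros**, imaginary quadratic fields, every modulus -/
theorem nv_iq (h2 : finrank ℚ K = 2) [IsTotallyComplex K] {θ : ℝ} (hθ : 0 ≤ θ) (hθ1 : θ < 1 / 2) :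
    ∃ a C c₂ c₃ X₀ : ℝ, 0 < a ∧ 0 < C ∧ 0 < c₂ ∧ 0 < c₃ ∧ 1 ≤ X₀ ∧
    ∀ 𝔮 : Ideal (𝓞 K), 𝔮 ≠ ⊥ → X₀ ≤ (Ideal.absNorm 𝔮 : ℝ) → 𝔮 ≠ ⊤ ∧
      ∀ t : ℝ, |t| ≤ (Ideal.absNorm 𝔮 : ℝ) ^ θ →
      (c₃ * (FF 𝔮).card ≤ (((FF 𝔮).filter fun ψ => ∀ s : ℂ,
        ‖s - (1 / 2 + t * Complex.I)‖ ≤ c₂ / Real.log (Ideal.absNorm 𝔮) → LL K ψ s ≠ 0).card : ℝ)) ∧
      ∀ r : ℝ, 0 ≤ r → r ≤ 1 / 4 → (∀ ψ ∈ FF 𝔮, (zd (LL K ψ) t r).Finite) ∧
        ∑ ψ ∈ FF 𝔮, Real.exp (a * (nd (LL K ψ) t r : ℝ)) ≤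
          (FF 𝔮).card * C * Real.exp (C * (r * Real.log (Ideal.absNorm 𝔮))) := by
  obtain ⟨h, hh⟩ : ∃ h : ℝ, h = 1 / (1 + 2 * θ) := ⟨_, rfl⟩
  have hθ2 : 0 < 1 + 2 * θ := by linarith
  have hh1 : h ≤ 1 := by
    rw [hh, div_le_one hθ2]
    linarith
  have hhθ : h * (1 + 2 * θ) = 1 := by rw [hh]; field_simp
  have hh2 : 1 / 2 < h := by
    rw [hh, div_lt_div_iff₀ (by norm_num) hθ2]
    linarith
  obtain ⟨g, hg⟩ : ∃ g : ℝ, g = (2 * h - 1) / 24 := ⟨_, rfl⟩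
  have hg0 : 0 < g := by rw [hg]; linarith
  have hg1 : g ≤ 1 / 24 := by rw [hg]; linarith
  have hhg : h = 1 / 2 + 12 * g := by rw [hg]; ring
  obtain ⟨A, hA, hgl⟩ := gl_K K
  obtain ⟨N₁, hN₁, hls⟩ := lsu_iq K h2 hg0 (by linarith)
  obtain ⟨N₂, hN₂, hoff⟩ := off_iq K h2 hg0 hg1 hhg
  have he0 : 0 < g / 32 := by positivity
  obtain ⟨c₂, c₃, R₁, hc₂, hc₃, hR₁, hnv⟩ := nv_core (ns_K K) he0 hg0 hg1 hA 2 (by norm_num)
  obtain ⟨a, C, R₂, ha, hC, hR₂, hexp⟩ := exp_fam (ns_K K) he0 hh2 hh1 hA 2 (by norm_num)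
  refine ⟨a, 2 * C, c₂ / 2, c₃, max (max N₁ N₂) (max 2 (Real.exp (R₁ + R₂))), ha, by positivity,
    by positivity, hc₃, ?_, ?_⟩
  · exact hN₁.trans ((le_max_left _ _).trans (le_max_left _ _))
  intro 𝔮 hbot hX
  have hX1 : N₁ ≤ (Ideal.absNorm 𝔮 : ℝ) := ((le_max_left _ _).trans (le_max_left _ _)).trans hX
  have hX2 : N₂ ≤ (Ideal.absNorm 𝔮 : ℝ) := ((le_max_right _ _).trans (le_max_left _ _)).trans hX
  have hX3 : 2 ≤ (Ideal.absNorm 𝔮 : ℝ) := ((le_max_left _ _).trans (le_max_right _ _)).trans hX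
  have hX4 : Real.exp (R₁ + R₂) ≤ (Ideal.absNorm 𝔮 : ℝ) :=
    ((le_max_right _ _).trans (le_max_right _ _)).trans hX
  have htop : 𝔮 ≠ ⊤ := by
    intro h'
    rw [h', Ideal.absNorm_top] at hX3
    norm_num at hX3
  refine ⟨htop, fun t ht => ?_⟩
  have hls' := hls 𝔮 hbot htop hX1
  have hoff' := hoff 𝔮 hbot htop hX2
  obtain ⟨N, hN⟩ : ∃ N : ℝ, N = (Ideal.absNorm 𝔮 : ℝ) := ⟨_, rfl⟩
  rw [← hN] at hX1 hX2 hX3 hX4 ht hls' hoff' ⊢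
  have hN1 : 1 ≤ N := by linarith
  have hNpos : 0 < N := by linarith
  obtain ⟨T, hT⟩ : ∃ T : ℝ, T = N ^ θ := ⟨_, rfl⟩
  rw [← hT] at ht
  have hT1 : 1 ≤ T := by rw [hT]; exact Real.one_le_rpow hN1 hθ
  have hT0 : 0 < T := by linarith
  obtain ⟨R, hR⟩ : ∃ R : ℝ, R = Real.log (N * T ^ 2) := ⟨_, rfl⟩
  have hRθ : R = (1 + 2 * θ) * Real.log N := by
    rw [hR, Real.log_mul hNpos.ne' (by positivity), Real.log_pow, hT, Real.log_rpow hNpos]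
    push_cast
    ring
  have hlN : R₁ + R₂ ≤ Real.log N := by
    rw [Real.le_log_iff_exp_le hNpos]
    exact hX4
  have hlN0 : 0 < Real.log N := by linarith
  have hRge : Real.log N ≤ R := by rw [hRθ]; nlinarith
  have hRle : R ≤ 2 * Real.log N := by rw [hRθ]; nlinarith
  have hR0 : 0 < R := by linarith
  have hhR : h * R = Real.log N := by
    rw [hRθ, ← mul_assoc, hhθ, one_mul]
  have hlsu : ∀ X : ℕ, 1 ≤ X → (X : ℝ) ≤ Real.exp ((h - g) * R) →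
      LSU (nK K) (FF 𝔮) (fun ψ => ψ) (1 / R) ((FF 𝔮).card * (1 / R)) (g / 32) X := by
    intro X hX1' hXe
    refine hls' X hX1' (hXe.trans ?_) (1 / R) (by positivity)
    rw [Real.rpow_def_of_pos hNpos]
    refine Real.exp_le_exp.mpr ?_
    have h1 : (h - g) * R = Real.log N - g * R := by rw [sub_mul, hhR]
    rw [h1]
    nlinarith
  have hGL : ∀ ψ ∈ FF 𝔮, GLf (nK K) A T R 2 ψ (LL K ψ) := by
    intro ψ hψ
    have hψ' := (mem_FF hbot htop).mp hψ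
    obtain ⟨hLd, -⟩ := LL_info K hψ'
    obtain ⟨𝔣, h1, h3, h4⟩ := hψ'
    have h5 : (Ideal.absNorm 𝔣 : ℝ) ≤ N := by
      rw [hN]
      exact_mod_cast Nat.le_of_dvd (absNorm_pos' hbot)
        (Ideal.absNorm_dvd_absNorm_of_le (Ideal.dvd_iff_le.mp h1))
    have h6 := (hgl 𝔣 ψ (LL K ψ) h3 h4 hLd.1 hLd.2).1 N T h5 hT1
    rw [h2, ← hR] at h6
    exact h6
  constructor
  · have h1 := hnv R T _ (FF 𝔮) (fun ψ => ψ) (fun ψ => LL K ψ) (by linarith) hT1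
      (fun X hX1' hXe => hlsu X hX1' (hXe.trans (Real.exp_le_exp.mpr (by
        refine mul_le_mul_of_nonneg_right ?_ hR0.le
        linarith)))) hGL (hoff' R hR0.le (by rw [hhR, Real.exp_log hNpos])) t ht
    refine h1.trans ((Nat.cast_le (α := ℝ)).mpr (Finset.card_le_card fun ψ hψ => ?_))
    rw [Finset.mem_filter] at hψ ⊢
    refine ⟨hψ.1, fun s hs => hψ.2 s ?_⟩
    rw [pt_half]
    refine hs.trans ?_
    rw [div_div]
    exact div_le_div_of_nonneg_left hc₂.le hR0 hRle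
  · intro r hr0 hr1
    have h5 := exp_nd (FF 𝔮) (fun ψ => LL K ψ) (t := t) (r := r) ha (fun ψ hψ => (hGL ψ hψ).diff)
      (fun ψ hψ => (LL_info K ((mem_FF hbot htop).mp hψ)).2)
      (fun Z hZ => hexp R T (FF 𝔮).card _ (FF 𝔮) (fun ψ => ψ) (fun ψ => LL K ψ) (by linarith) hT1
        le_rfl (fun X hX1' hXe => hlsu X hX1' (by rw [hg]; exact hXe)) hGL t ht r hr0 hr1 Z hZ)
    refine ⟨h5.1, h5.2.trans ?_⟩
    have h6 : C * (r * R) ≤ 2 * C * (r * Real.log N) := by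
      have h7 : r * R ≤ r * (2 * Real.log N) := mul_le_mul_of_nonneg_left hRle hr0
      have h8 := mul_le_mul_of_nonneg_left h7 hC.le
      linarith
    have h7 := Real.exp_le_exp.mpr h6
    have h8 : C ≤ 2 * C := by linarith
    have h9 : (0 : ℝ) ≤ ((FF 𝔮).card : ℝ) := Nat.cast_nonneg _
    exact mul_le_mul (mul_le_mul_of_nonneg_left h8 h9) h7 (Real.exp_pos _).le
      (mul_nonneg h9 (by linarith))

end Pool.Agent.T9h27.K
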