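import Pool.Agent.T9h27.D.Den
import Pool.Agent.N786.D.Rfl
import Pool.Agent.Y767.HC.Good

/-!
# The analytic input from a functional equation (helper27)
-/

set_option autoImplicit false
set_option linter.unusedSectionVars false

open UniqueFactorizationMonoid MeasureTheory Complex Filter Topology Set

namespace Pool.Agent.T9h27.D

open Pool.Agent.R399.TW (pt pt_re pt_im pt_cont)
open Pool.Agent.Y767 (GGn FEn)
open Pool.Agent.N786.D (mob)

section

variable {M : Type} [CommMonoidWithZero M] [NormalizationMonoid M] [UniqueFactorizationMonoid M]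
  [Subsingleton Mˣ] [Nontrivial M] {N : M →*₀ ℕ} {n₀ : ℕ}

lemma LA_low (hN : NS N n₀) {χ : M →*₀ ℂ} (h1 : ∀ a, ‖χ a‖ ≤ 1) {s : ℂ} (hs : 3 / 2 ≤ s.re) :
    (1 + ZN N)⁻¹ ≤ ‖LA N χ s‖ := by
  have hm0 : mob (0 : M) * χ 0 = 0 := by rw [map_zero, mul_zero]
  have hm1 : ∀ a : M, ‖mob a * χ a‖ ≤ 1 := fun a => by
    rw [norm_mul]
    exact mul_le_one₀ (mob_le a) (norm_nonneg _) (h1 a)
  have h2 := LI_mul_mob hN h1 hs
  have h3 := LA_le hN hm0 hm1 hs
  have h4 : ‖LA N χ s‖ * ‖LA N (fun a => mob a * χ a) s‖ = 1 := by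
    rw [← norm_mul, h2, norm_one]
  have hZ := ZN_nonneg N
  rw [inv_le_iff_one_le_mul₀ (by linarith)]
  calc (1 : ℝ) = ‖LA N χ s‖ * ‖LA N (fun a => mob a * χ a) s‖ := h4.symm
    _ ≤ ‖LA N χ s‖ * (1 + ZN N) := by
        refine mul_le_mul_of_nonneg_left (by linarith) (norm_nonneg _)

/-- **the analytic input** from a functional equation -/
theorem gl_of_fen (hN : NS N n₀) (d : ℕ) {Nd : ℝ} (hNd : 1 ≤ Nd) :
    ∃ A : ℝ, 1 ≤ A ∧ ∀ {ι : Type} [Fintype ι], Fintype.card ι = d → ∀ (P : ℝ), 1 ≤ P →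
    ∀ (e : ι → ℕ) (ν : ι → ℝ) (χ : M →*₀ ℂ) (F : ℂ → ℂ) (T : ℝ), 1 ≤ T → (∀ i, |ν i| ≤ T) →
    (∀ a, ‖χ a‖ ≤ 1) → FEn (Nd * P) e ν F → (∀ s : ℂ, 3 / 2 ≤ s.re → F s = LA N χ s) →
    GLf N A T (Real.log (P * T ^ d)) d χ F := by
  obtain ⟨c, hc, hfe⟩ := Pool.Agent.N786.D.fe_bound
  have hZ := ZN_nonneg N
  obtain ⟨A₀, hA₀e⟩ : ∃ A₀ : ℝ, A₀ = 1 + ZN N := ⟨_, rfl⟩
  have hA₀ : 1 ≤ A₀ := by rw [hA₀e]; linarith
  have h6 : (1 : ℝ) ≤ 6 ^ d := one_le_pow₀ (by norm_num)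
  have h3 : (1 : ℝ) ≤ 3 ^ d := one_le_pow₀ (by norm_num)
  have hcn : (1 : ℝ) ≤ c ^ d := one_le_pow₀ hc
  have hA1 : A₀ ≤ A₀ * Nd * 6 ^ d * c ^ d * 3 ^ d := by
    have h1 : A₀ ≤ A₀ * Nd := le_mul_of_one_le_right (by linarith) hNd
    have h2 : A₀ * Nd ≤ A₀ * Nd * 6 ^ d := le_mul_of_one_le_right (by positivity) h6
    have h3' : A₀ * Nd * 6 ^ d ≤ A₀ * Nd * 6 ^ d * c ^ d :=
      le_mul_of_one_le_right (by positivity) hcn
    have h4 : A₀ * Nd * 6 ^ d * c ^ d ≤ A₀ * Nd * 6 ^ d * c ^ d * 3 ^ d :=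
      le_mul_of_one_le_right (by positivity) h3
    linarith
  refine ⟨A₀ * Nd * 6 ^ d * c ^ d * 3 ^ d, hA₀.trans hA1, ?_⟩
  intro ι _ hcard P hP e ν χ F T hT hν h1 hF hser
  have hT0 : 0 < T := by linarith
  have hP0 : 0 < P := by linarith
  have hR : 0 < Nd * P := by positivity
  have hχ0 : χ 0 = 0 := map_zero _
  have hC0 : 0 < P * T ^ d := by positivity
  have hexp : Real.exp (Real.log (P * T ^ d)) = P * T ^ d := Real.exp_log hC0
  have hB : ∀ s : ℂ, 3 / 2 ≤ s.re → ‖F s‖ ≤ A₀ := fun s hs => by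
    rw [hser s hs]
    refine (LA_le hN hχ0 h1 hs).trans ?_
    rw [hA₀e]; linarith
  refine ⟨hF.diff, hser, h1, ?_, fun s hs => (hB s hs).trans hA1, ?_, ?_⟩
  · intro s hs
    obtain ⟨S, hS⟩ : ∃ S : ℝ, S = s.im - 1 := ⟨_, rfl⟩
    have hsh := hF.shift hR S
    have hνV : ∀ w, |(fun w => ν w + S) w| ≤ T + (1 + |s.im|) := fun w => by
      simp only
      refine (abs_add_le _ _).trans ?_
      have h1 := hν w
      have h2 : |S| ≤ |s.im| + 1 := by
        rw [hS]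
        refine (abs_sub _ _).trans ?_
        rw [abs_one]
      linarith
    have g1 := Pool.Agent.N786.F_grow2 hNd hP hA₀ (by positivity : (0 : ℝ) ≤ T + (1 + |s.im|))
      hνV hsh (fun z hz => hB _ (by simpa using hz)) (s - (S : ℂ) * I) (by simpa using hs)
      (by simp [hS])
    have e1 : s - (S : ℂ) * I + (S : ℂ) * I = s := by ring
    have e2 : (s - (S : ℂ) * I).im = 1 := by simp [hS]
    rw [e1, e2, one_pow, mul_one, hcard] at g1
    refine g1.trans ?_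
    rw [hexp]
    have hkey : 1 + (T + (1 + |s.im|)) ≤ 3 * (T * (1 + |s.im| / T)) := by
      have : T * (1 + |s.im| / T) = T + |s.im| := by field_simp
      rw [this]
      linarith [abs_nonneg s.im]
    calc A₀ * Nd * (1 + (T + (1 + |s.im|))) ^ d * 6 ^ d * P ≤
        A₀ * Nd * (3 * (T * (1 + |s.im| / T))) ^ d * 6 ^ d * P := by
          have := abs_nonneg s.im
          gcongr
      _ = A₀ * Nd * 6 ^ d * 1 * 3 ^ d * (P * T ^ d) * (1 + |s.im| / T) ^ d := by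
          rw [mul_pow, mul_pow]; ring
      _ ≤ _ := by gcongr
  · intro s hs
    rw [hser s (by linarith)]
    refine le_trans ?_ (LA_low hN h1 (by linarith))
    rw [← hA₀e]
    exact inv_anti₀ (by linarith) hA1
  · intro δ hδ0 hδ1 τ
    refine (hfe hR hF hδ0 hδ1 τ).trans (mul_le_mul_of_nonneg_right ?_ (norm_nonneg _))
    rw [hcard]
    have hkey : ∀ i, 1 + |τ + ν i| ≤ 3 * (T * (1 + |τ| / T)) := by
      intro i
      have : T * (1 + |τ| / T) = T + |τ| := by field_simp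
      rw [this]
      have h2 := abs_add_le τ (ν i)
      linarith [hν i, abs_nonneg τ]
    have hY : 0 < 1 + |τ| / T := by positivity
    have h5 : ∏ i, (1 + |τ + ν i|) ^ δ ≤ ((3 * (T * (1 + |τ| / T))) ^ d) ^ δ := by
      refine (Finset.prod_le_prod (fun w _ => by positivity) fun w _ =>
        (Real.rpow_le_rpow (by positivity) (hkey w) hδ0.le)).trans ?_
      rw [Finset.prod_const, Finset.card_univ, hcard, ← Real.rpow_natCast, ← Real.rpow_natCast,
        ← Real.rpow_mul (by positivity), ← Real.rpow_mul (by positivity), mul_comm δ]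
    have h7 : (Nd * P) ^ δ ≤ Nd * P ^ δ := by
      rw [Real.mul_rpow (by linarith) (by linarith)]
      refine mul_le_mul_of_nonneg_right ?_ (by positivity)
      calc Nd ^ δ ≤ Nd ^ (1 : ℝ) := Real.rpow_le_rpow_of_exponent_le hNd (by linarith)
        _ = Nd := Real.rpow_one _
    have h8 : ((3 * (T * (1 + |τ| / T))) ^ d) ^ δ ≤
        3 ^ d * ((T ^ d) ^ δ * (1 + |τ| / T) ^ ((d : ℝ) * δ)) := by
      have e0 : (3 * (T * (1 + |τ| / T))) ^ d = 3 ^ d * (T ^ d * (1 + |τ| / T) ^ d) := by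
        rw [mul_pow, mul_pow]
      rw [e0, Real.mul_rpow (by positivity) (by positivity), Real.mul_rpow (by positivity)
        (by positivity)]
      have e2 : ((1 + |τ| / T) ^ d) ^ δ = (1 + |τ| / T) ^ ((d : ℝ) * δ) := by
        rw [← Real.rpow_natCast, ← Real.rpow_mul (by positivity)]
      have e3 : ((3 : ℝ) ^ d) ^ δ ≤ 3 ^ d := by
        calc ((3 : ℝ) ^ d) ^ δ ≤ ((3 : ℝ) ^ d) ^ (1 : ℝ) :=
              Real.rpow_le_rpow_of_exponent_le h3 (by linarith)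
          _ = _ := Real.rpow_one _
      rw [e2]
      exact mul_le_mul_of_nonneg_right e3 (by positivity)
    have e9 : Real.exp (Real.log (P * T ^ d) * δ) = P ^ δ * (T ^ d) ^ δ := by
      rw [← Real.mul_rpow (by positivity) (by positivity), Real.rpow_def_of_pos hC0]
    rw [e9]
    calc c ^ d * (Nd * P) ^ δ * ∏ i, (1 + |τ + ν i|) ^ δ ≤
        c ^ d * (Nd * P ^ δ) * (3 ^ d * ((T ^ d) ^ δ * (1 + |τ| / T) ^ ((d : ℝ) * δ))) := by
          refine mul_le_mul (mul_le_mul_of_nonneg_left h7 (by positivity)) (h5.trans h8)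
            (Finset.prod_nonneg fun i _ => by positivity) (by positivity)
      _ = 1 * Nd * 1 * c ^ d * 3 ^ d * (P ^ δ * (T ^ d) ^ δ) * (1 + |τ| / T) ^ ((d : ℝ) * δ) := by
          ring
      _ ≤ _ := by gcongr

end

end Pool.Agent.T9h27.D
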