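import Pool.Agent.N784.AD.Fam
import Pool.Agent.T9h27.K.Nf

/-!
# The orthogonality of the primitive characters of conductor dividing `𝔮` (helper27)
-/

set_option autoImplicit false
set_option linter.unusedSectionVars false

open NumberField

namespace Pool.Agent.T9h27.K

open Pool.Agent.Y773 (TPos)
open Pool.Agent.Y767 (Mq Mq_cop Mq_ne_bot Mq_cancel Cls cls cls_eq cls_pi finite_dual card_dual
  exists_lam)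
open Pool.Agent.Y773.IQ (Fam tM tM_coe dv dv_finite cop_mono absNorm_pos')
open Pool.Agent.N784.AD

/-- the sum of the characters of a finite commutative group -/
lemma dual_sum {G : Type} [CommGroup G] [Finite G] [Fintype (G →* ℂˣ)] {g : G} (hg : g ≠ 1) :
    ∑ lam : G →* ℂˣ, ((lam g : ℂˣ) : ℂ) = 0 := by
  have : NeZero (Monoid.exponent G) := ⟨Monoid.exponent_ne_zero_of_finite⟩
  obtain ⟨l₀, hl₀⟩ := CommGroup.exists_apply_ne_one_of_hasEnoughRootsOfUnity G ℂ hg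
  have h1 : ∑ lam : G →* ℂˣ, ((lam g : ℂˣ) : ℂ) =
      ((l₀ g : ℂˣ) : ℂ) * ∑ lam : G →* ℂˣ, ((lam g : ℂˣ) : ℂ) := by
    rw [Finset.mul_sum, ← Equiv.sum_comp (Equiv.mulLeft l₀)]
    refine Finset.sum_congr rfl fun lam _ => ?_
    rw [Equiv.coe_mulLeft, MonoidHom.mul_apply, Units.val_mul]
  have h2 : (((l₀ g : ℂˣ) : ℂ) - 1) * ∑ lam : G →* ℂˣ, ((lam g : ℂˣ) : ℂ) = 0 := by
    rw [sub_mul, one_mul, ← h1, sub_self]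
  rcases mul_eq_zero.mp h2 with h3 | h3
  · exfalso
    apply hl₀
    ext
    rw [Units.val_one]
    exact sub_eq_zero.mp h3
  · exact h3

lemma norm_char {G : Type} [CommGroup G] [Finite G] (lam : G →* ℂˣ) (g : G) :
    ‖((lam g : ℂˣ) : ℂ)‖ = 1 := by
  refine Complex.norm_eq_one_of_pow_eq_one (n := Nat.card G) ?_ Nat.card_pos.ne'
  rw [← Units.val_pow_eq_pow_val, ← map_pow, pow_card_eq_one', map_one, Units.val_one]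

lemma conj_char {G : Type} [CommGroup G] [Finite G] (lam : G →* ℂˣ) (g : G) :
    (starRingEnd ℂ) ((lam g : ℂˣ) : ℂ) = ((lam g⁻¹ : ℂˣ) : ℂ) := by
  have h1 := norm_char lam g
  rw [map_inv, Units.val_inv_eq_inv_val, Complex.inv_def, Complex.normSq_eq_norm_sq, h1]
  simp

section

variable {K : Type} [Field K] [NumberField K]

open Classical in
/-- the family as a finite set -/
noncomputable def FF (𝔮 : Ideal (𝓞 K)) : Finset (Ideal (𝓞 K) →*₀ ℂ) :=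
  if h : (Fam 𝔮).Finite then h.toFinset else ∅

lemma mem_FF {𝔮 : Ideal (𝓞 K)} (hbot : 𝔮 ≠ ⊥) (htop : 𝔮 ≠ ⊤) {ψ : Ideal (𝓞 K) →*₀ ℂ} :
    ψ ∈ FF 𝔮 ↔ ψ ∈ Fam 𝔮 := by
  unfold FF
  rw [dif_pos (Fam_finite hbot htop).1, Set.Finite.mem_toFinset]

lemma Fam_top : Fam (⊤ : Ideal (𝓞 K)) = ∅ := by
  rw [Set.eq_empty_iff_forall_notMem]
  rintro ψ ⟨𝔣, h1, h2, -⟩
  exact h2 (top_le_iff.mp (Ideal.dvd_iff_le.mp h1))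

/-- **orthogonality** for the ideals prime to `𝔮` -/
theorem ker_cop {𝔮 : Ideal (𝓞 K)} (hbot : 𝔮 ≠ ⊥) (htop : 𝔮 ≠ ⊤) (x y : Mq 𝔮) :
    ‖∑ ψ ∈ FF 𝔮, ψ (x : Ideal (𝓞 K)) * (starRingEnd ℂ) (ψ (y : Ideal (𝓞 K)))‖ ≤
      hK K + (open Classical in if cls (pi1 htop) x = cls (pi1 htop) y then
        (Nat.card (Cls (pi1 htop)) : ℝ) else 0) := by
  classical
  have hCf := (cls_card_le hbot htop).1
  have hfd := finite_dual (Cls (pi1 htop))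
  have := Fintype.ofFinite (Cls (pi1 htop) →* ℂˣ)
  obtain ⟨Φ, hΦ⟩ : ∃ Φ : (Cls (pi1 htop) →* ℂˣ) → (Mq 𝔮 →* ℂˣ),
    ∀ lam, Φ lam = lam.comp (cls (pi1 htop)) := ⟨_, fun _ => rfl⟩
  have hinj : Function.Injective Φ := by
    intro l l' h
    rw [hΦ, hΦ] at h
    refine MonoidHom.ext fun c => ?_
    obtain ⟨𝔞, rfl⟩ := exists_rep hbot htop c
    exact DFunLike.congr_fun h 𝔞
  have hD1 : ∀ F, F ∈ D1 htop ↔ ∃ lam, Φ lam = F := by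
    intro F
    constructor
    · intro hF
      obtain ⟨lam, hlam⟩ := exists_lam (pi1 htop) F 1 (fun a => by
        rw [hF a, MonoidHom.one_apply])
      refine ⟨lam, ?_⟩
      rw [hΦ]
      ext x
      change ((lam (cls (pi1 htop) x) : ℂˣ) : ℂ) = F x
      rw [hlam x, MonoidHom.one_apply, one_mul]
    · rintro ⟨lam, rfl⟩ x
      rw [hΦ]
      change lam (cls (pi1 htop) (pi1 htop x)) = 1
      rw [cls_pi, map_one]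
  obtain ⟨E, hE⟩ : ∃ E : Finset (Mq 𝔮 →* ℂˣ), E = Finset.univ.image Φ := ⟨_, rfl⟩
  have hEm : ∀ F, F ∈ E ↔ F ∈ D1 htop := by
    intro F
    rw [hE, Finset.mem_image, hD1]
    simp
  -- the full sum
  have hfull : ∑ F ∈ E, ((F x : ℂˣ) : ℂ) * (starRingEnd ℂ) ((F y : ℂˣ) : ℂ) =
      if cls (pi1 htop) x = cls (pi1 htop) y then (Nat.card (Cls (pi1 htop)) : ℂ) else 0 := by
    rw [hE, Finset.sum_image fun a _ b _ h => hinj h]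
    have h1 : ∀ lam : Cls (pi1 htop) →* ℂˣ,
        ((Φ lam x : ℂˣ) : ℂ) * (starRingEnd ℂ) ((Φ lam y : ℂˣ) : ℂ) =
        ((lam (cls (pi1 htop) x * (cls (pi1 htop) y)⁻¹) : ℂˣ) : ℂ) := by
      intro lam
      rw [hΦ]
      change ((lam (cls (pi1 htop) x) : ℂˣ) : ℂ) *
        (starRingEnd ℂ) ((lam (cls (pi1 htop) y) : ℂˣ) : ℂ) = _
      rw [conj_char, ← Units.val_mul, ← map_mul]
    rw [Finset.sum_congr rfl fun lam _ => h1 lam]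
    split_ifs with h2
    · rw [h2, mul_inv_cancel]
      simp only [map_one, Units.val_one, Finset.sum_const, nsmul_eq_mul, mul_one]
      rw [Finset.card_univ, ← Nat.card_eq_fintype_card, card_dual]
    · refine dual_sum fun h3 => h2 ?_
      exact mul_inv_eq_one.mp h3
  -- the family
  have hsub : (FF 𝔮).image (tM 𝔮) ⊆ E := by
    intro F hF
    obtain ⟨ψ, hψ, rfl⟩ := Finset.mem_image.mp hF
    exact (hEm _).mpr (tM_mem htop ((mem_FF hbot htop).mp hψ))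
  have hfam : ∑ ψ ∈ FF 𝔮, ψ (x : Ideal (𝓞 K)) * (starRingEnd ℂ) (ψ (y : Ideal (𝓞 K))) =
      ∑ F ∈ (FF 𝔮).image (tM 𝔮), ((F x : ℂˣ) : ℂ) * (starRingEnd ℂ) ((F y : ℂˣ) : ℂ) := by
    rw [Finset.sum_image]
    · refine Finset.sum_congr rfl fun ψ hψ => ?_
      rw [tM_coe htop ((mem_FF hbot htop).mp hψ), tM_coe htop ((mem_FF hbot htop).mp hψ)]
    · intro ψ hψ ψ' hψ' h
      exact tM_inj hbot htop ((mem_FF hbot htop).mp hψ) ((mem_FF hbot htop).mp hψ') h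
  have hrest : ((E \ (FF 𝔮).image (tM 𝔮)).card : ℝ) ≤ hK K := by
    have h1 : ((E \ (FF 𝔮).image (tM 𝔮) : Finset (Mq 𝔮 →* ℂˣ)) : Set (Mq 𝔮 →* ℂˣ)) ⊆ D0 𝔮 := by
      intro F hF
      rw [Finset.coe_sdiff] at hF
      obtain ⟨hF1, hF2⟩ := hF
      rcases exists_prim hbot htop F ((hEm F).mp (Finset.mem_coe.mp hF1)) with
        h | ⟨𝔣, ψ, h3, h4, h5, h6⟩
      · exact h
      · exfalso
        apply hF2
        have hψ : ψ ∈ Fam 𝔮 := ⟨𝔣, h3, h4, h5⟩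
        rw [Finset.mem_coe, Finset.mem_image]
        refine ⟨ψ, (mem_FF hbot htop).mpr hψ, ?_⟩
        ext z
        rw [tM_coe htop hψ, h6]
    have h2 := Set.ncard_le_ncard h1 ((D1_card hbot htop).1.subset (D0_sub htop))
    rw [Set.ncard_coe_finset] at h2
    exact_mod_cast h2.trans (D0_card hbot htop)
  have hsplit : ∑ F ∈ (FF 𝔮).image (tM 𝔮), ((F x : ℂˣ) : ℂ) * (starRingEnd ℂ) ((F y : ℂˣ) : ℂ) =
      ∑ F ∈ E, ((F x : ℂˣ) : ℂ) * (starRingEnd ℂ) ((F y : ℂˣ) : ℂ) -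
      ∑ F ∈ E \ (FF 𝔮).image (tM 𝔮), ((F x : ℂˣ) : ℂ) * (starRingEnd ℂ) ((F y : ℂˣ) : ℂ) := by
    rw [← Finset.sum_sdiff hsub]
    ring
  rw [hfam, hsplit, hfull]
  refine (norm_sub_le _ _).trans ?_
  rw [add_comm]
  refine add_le_add ?_ ?_
  · refine (norm_sum_le _ _).trans (le_trans ?_ hrest)
    rw [← nsmul_one, ← Finset.sum_const]
    refine Finset.sum_le_sum fun F hF => ?_
    obtain ⟨lam, hlam⟩ := (hD1 F).mp ((hEm F).mp (Finset.mem_sdiff.mp hF).1)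
    have h1 : ∀ z, ‖((F z : ℂˣ) : ℂ)‖ = 1 := fun z => by
      rw [← hlam, hΦ]
      exact norm_char lam _
    rw [norm_mul, RCLike.norm_conj, h1, h1, one_mul]
  · split_ifs with h2
    · rw [Complex.norm_natCast]
    · rw [norm_zero]

/-- the largest divisor of `𝔮` prime to `𝔠` -/
lemma exists_cpp {𝔮 : Ideal (𝓞 K)} (hbot : 𝔮 ≠ ⊥) (𝔠 : Ideal (𝓞 K)) :
    ∃ 𝔪 : Ideal (𝓞 K), 𝔪 ∣ 𝔮 ∧ IsCoprime 𝔠 𝔪 ∧ ∀ 𝔣, 𝔣 ∣ 𝔮 → IsCoprime 𝔠 𝔣 → 𝔣 ∣ 𝔪 := by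
  classical
  have hf : {𝔣 : Ideal (𝓞 K) | 𝔣 ∣ 𝔮 ∧ IsCoprime 𝔠 𝔣}.Finite :=
    (dv_finite hbot).subset fun 𝔣 h => h.1
  have hne : {𝔣 : Ideal (𝓞 K) | 𝔣 ∣ 𝔮 ∧ IsCoprime 𝔠 𝔣}.Nonempty :=
    ⟨1, one_dvd _, isCoprime_one_right⟩
  obtain ⟨𝔪, h𝔪, hmax⟩ := Set.exists_max_image _ (fun 𝔣 => Ideal.absNorm 𝔣) hf hne
  refine ⟨𝔪, h𝔪.1, h𝔪.2, fun 𝔣 h1 h2 => ?_⟩
  have h3 : 𝔣 ⊓ 𝔪 ∣ 𝔮 := Ideal.dvd_iff_le.mpr
    (le_inf (Ideal.dvd_iff_le.mp h1) (Ideal.dvd_iff_le.mp h𝔪.1))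
  have h4 : IsCoprime 𝔠 (𝔣 ⊓ 𝔪) := cop_mono Ideal.mul_le_inf (IsCoprime.mul_right h2 h𝔪.2)
  have h5 : Ideal.absNorm (𝔣 ⊓ 𝔪) ≤ Ideal.absNorm 𝔪 := hmax _ ⟨h3, h4⟩
  obtain ⟨𝔤, h𝔤⟩ : 𝔪 ∣ 𝔣 ⊓ 𝔪 := Ideal.dvd_iff_le.mpr inf_le_right
  have h6 : 𝔣 ⊓ 𝔪 ≠ ⊥ := by
    rintro h
    rw [h] at h3
    exact hbot (zero_dvd_iff.mp h3)
  have h𝔪0 : 𝔪 ≠ ⊥ := fun h => h6 (by rw [h, inf_bot_eq])
  have h7 : Ideal.absNorm 𝔤 = 1 := by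
    rw [h𝔤, map_mul] at h5
    have h8 := absNorm_pos' h𝔪0
    have h9 : 𝔤 ≠ ⊥ := by
      rintro rfl
      rw [Ideal.mul_bot] at h𝔤
      exact h6 h𝔤
    have h10 := absNorm_pos' h9
    have h11 : Ideal.absNorm 𝔤 ≤ 1 := by
      by_contra hcon
      push Not at hcon
      nlinarith
    omega
  rw [Ideal.absNorm_eq_one_iff] at h7
  rw [h7, Ideal.mul_top] at h𝔤
  rw [Ideal.dvd_iff_le, ← h𝔤]
  exact inf_le_left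

/-- `𝔞` and `𝔟` are in the same narrow ray class modulo `𝔪` -/
def Rl (𝔪 𝔞 𝔟 : Ideal (𝓞 K)) : Prop :=
  IsCoprime 𝔞 𝔪 ∧ IsCoprime 𝔟 𝔪 ∧ ∃ a b : 𝓞 K, a - 1 ∈ 𝔪 ∧ b - 1 ∈ 𝔪 ∧
    Ideal.span {a} * 𝔞 = Ideal.span {b} * 𝔟

lemma Rl.cancel {𝔪 𝔡 𝔞 𝔟 : Ideal (𝓞 K)} (hd : 𝔡 ≠ ⊥) (h : Rl 𝔪 (𝔡 * 𝔞) (𝔡 * 𝔟)) : Rl 𝔪 𝔞 𝔟 := by
  obtain ⟨h1, h2, a, b, ha, hb, hab⟩ := h
  refine ⟨(IsCoprime.mul_left_iff.mp h1).2, (IsCoprime.mul_left_iff.mp h2).2, a, b, ha, hb, ?_⟩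
  apply mul_left_cancel₀ (a := 𝔡) hd
  calc 𝔡 * (Ideal.span {a} * 𝔞) = Ideal.span {a} * (𝔡 * 𝔞) := by ring
    _ = Ideal.span {b} * (𝔡 * 𝔟) := hab
    _ = _ := by ring

open Classical in
/-- the divisors `≠ 1` of `𝔮` -/
noncomputable def DD (𝔮 : Ideal (𝓞 K)) : Finset (Ideal (𝓞 K)) :=
  if h : (dv 𝔮).Finite then h.toFinset.filter (fun 𝔪 => 𝔪 ≠ ⊤) else ∅

lemma mem_DD {𝔮 : Ideal (𝓞 K)} (hbot : 𝔮 ≠ ⊥) {𝔪 : Ideal (𝓞 K)} :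
    𝔪 ∈ DD 𝔮 ↔ 𝔪 ∣ 𝔮 ∧ 𝔪 ≠ ⊤ := by
  unfold DD
  rw [dif_pos (dv_finite hbot), Finset.mem_filter, Set.Finite.mem_toFinset]
  rfl

lemma DD_card {𝔮 : Ideal (𝓞 K)} (hbot : 𝔮 ≠ ⊥) : ((DD 𝔮).card : ℝ) ≤ (dv 𝔮).ncard := by
  rw [Set.ncard_eq_toFinset_card _ (dv_finite hbot)]
  unfold DD
  rw [dif_pos (dv_finite hbot)]
  exact_mod_cast Finset.card_filter_le _ _

open Classical in
/-- **the kernel of the family** -/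
theorem ker_le {𝔮 : Ideal (𝓞 K)} (hbot : 𝔮 ≠ ⊥) (htop : 𝔮 ≠ ⊤) {𝔞 𝔟 : Ideal (𝓞 K)} :
    ‖∑ ψ ∈ FF 𝔮, ψ 𝔞 * (starRingEnd ℂ) (ψ 𝔟)‖ ≤
      hK K + ∑ 𝔪 ∈ DD 𝔮, if Rl 𝔪 𝔞 𝔟 then (hK K : ℝ) * (Ideal.absNorm 𝔪 : ℝ) else 0 := by
  have hsum0 : 0 ≤ ∑ 𝔪 ∈ DD 𝔮, if Rl 𝔪 𝔞 𝔟 then (hK K : ℝ) * (Ideal.absNorm 𝔪 : ℝ) else 0 :=
    Finset.sum_nonneg fun 𝔪 _ => by split_ifs <;> positivity
  obtain ⟨𝔪, h1, h2, h3⟩ := exists_cpp hbot (𝔞 * 𝔟)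
  have h𝔪bot : 𝔪 ≠ ⊥ := by
    rintro rfl
    exact hbot (zero_dvd_iff.mp h1)
  have hz : ∀ ψ ∈ FF 𝔮, ψ ∉ Fam 𝔪 → ψ 𝔞 * (starRingEnd ℂ) (ψ 𝔟) = 0 := by
    intro ψ hψ hψm
    by_contra hne
    obtain ⟨n1, n2⟩ := mul_ne_zero_iff.mp hne
    have n2' : ψ 𝔟 ≠ 0 := fun h => n2 (by rw [h, map_zero])
    obtain ⟨𝔣, g1, g2, g3⟩ := (mem_FF hbot htop).mp hψ
    have ha0 : 𝔞 ≠ ⊥ := by
      rintro rfl
      exact n1 (map_zero ψ)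
    have hb0 : 𝔟 ≠ ⊥ := by
      rintro rfl
      exact n2' (map_zero ψ)
    have c1 := (g3.supp 𝔞 ha0).mp n1
    have c2 := (g3.supp 𝔟 hb0).mp n2'
    exact hψm ⟨𝔣, h3 𝔣 g1 (IsCoprime.mul_left c1 c2), g2, g3⟩
  by_cases h𝔪top : 𝔪 = ⊤
  · have : ∑ ψ ∈ FF 𝔮, ψ 𝔞 * (starRingEnd ℂ) (ψ 𝔟) = 0 := by
      refine Finset.sum_eq_zero fun ψ hψ => hz ψ hψ ?_
      rw [h𝔪top, Fam_top]
      exact Set.notMem_empty _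
    rw [this, norm_zero]
    positivity
  obtain ⟨h2a, h2b⟩ := IsCoprime.mul_left_iff.mp h2
  have hsub : FF 𝔪 ⊆ FF 𝔮 := by
    intro ψ hψ
    obtain ⟨𝔣, g1, g2, g3⟩ := (mem_FF h𝔪bot h𝔪top).mp hψ
    exact (mem_FF hbot htop).mpr ⟨𝔣, g1.trans h1, g2, g3⟩
  have he : ∑ ψ ∈ FF 𝔮, ψ 𝔞 * (starRingEnd ℂ) (ψ 𝔟) =
      ∑ ψ ∈ FF 𝔪, ψ 𝔞 * (starRingEnd ℂ) (ψ 𝔟) := by
    refine (Finset.sum_subset hsub fun ψ hψ hψ' => hz ψ hψ ?_).symm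
    intro h
    exact hψ' ((mem_FF h𝔪bot h𝔪top).mpr h)
  rw [he]
  have hk := ker_cop h𝔪bot h𝔪top ⟨𝔞, h2a⟩ ⟨𝔟, h2b⟩
  refine hk.trans (add_le_add le_rfl ?_)
  split_ifs with h4
  · have hrl : Rl 𝔪 𝔞 𝔟 := by
      have := Mq_cancel h𝔪top
      obtain ⟨a, b, hab⟩ := cls_eq h4
      have hab' := congrArg Subtype.val hab
      rw [Submonoid.coe_mul, Submonoid.coe_mul, pi1_coe, pi1_coe] at hab'
      exact ⟨h2a, h2b, a, b, T1_one a, T1_one b, hab'⟩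
    have h5 : (Nat.card (Cls (pi1 h𝔪top)) : ℝ) ≤ (hK K : ℝ) * (Ideal.absNorm 𝔪 : ℝ) := by
      have h6 := (cls_card_le h𝔪bot h𝔪top).2.trans (Nat.mul_le_mul_right (hK K)
        (Pool.Agent.Y773.IQ.card_units_le_norm h𝔪bot))
      rw [mul_comm] at h6
      exact_mod_cast h6
    refine h5.trans ?_
    have h6 := Finset.single_le_sum (f := fun 𝔪 : Ideal (𝓞 K) =>
      if Rl 𝔪 𝔞 𝔟 then (hK K : ℝ) * (Ideal.absNorm 𝔪 : ℝ) else 0)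
      (fun 𝔪 _ => by split_ifs <;> positivity) ((mem_DD hbot).mpr ⟨h1, h𝔪top⟩)
    simp only [if_pos hrl] at h6
    exact h6
  · exact hsum0

end

end Pool.Agent.T9h27.K
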