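import Pool.Agent.N784.AD.Geo2
import Pool.Agent.T9h27.K.Ker

/-!
# The number of the pairs of coprime ideals in the same ray class (helper27, after helper784)
-/

set_option autoImplicit false
set_option linter.unusedSectionVars false

open NumberField Module

namespace Pool.Agent.T9h27.K

open Pool.Agent.Y773.IQ (ne_zero_of_cop absNorm_pos')
open Pool.Agent.N784.AD

section

variable (K : Type) [Field K] [NumberField K]

open Classical in
/-- **the number of the pairs of coprime ideals in the same ray class** -/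
theorem cop_count : ∃ C : ℝ, 1 ≤ C ∧ ∀ (𝔮 : Ideal (𝓞 K)) (_ : 𝔮 ≠ ⊥) (_ : 𝔮 ≠ ⊤)
    (P : Finset (Ideal (𝓞 K) × Ideal (𝓞 K))) (X Y : ℝ), 0 < X → 0 < Y →
    (∀ p ∈ P, p.1 ≠ ⊥ ∧ p.2 ≠ ⊥ ∧ IsCoprime p.1 p.2 ∧ Rl 𝔮 p.1 p.2 ∧
      (X ≤ (Ideal.absNorm p.1 : ℝ) ∧ (Ideal.absNorm p.1 : ℝ) ≤ 2 * X) ∧
      (Y ≤ (Ideal.absNorm p.2 : ℝ) ∧ (Ideal.absNorm p.2 : ℝ) ≤ 2 * Y)) →
    (P.card : ℝ) ≤ C * Un 𝔮 * (1 + X * Y / (Ideal.absNorm 𝔮 : ℝ)) := by
  obtain ⟨C1, hC1, hbal⟩ := balanced K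
  obtain ⟨C3, hC3, hbox⟩ := box_count K
  obtain ⟨𝔠, M, hM, h𝔠0, h𝔠M, h𝔠⟩ := exists_cc K
  obtain ⟨d, hd⟩ : ∃ d : ℕ, d = finrank ℚ K := ⟨_, rfl⟩
  have hd0 : 0 < d := by rw [hd]; exact finrank_pos
  have hdr : (0 : ℝ) < d := by exact_mod_cast hd0
  rw [← hd] at hbal hbox
  obtain ⟨C4, hC4⟩ : ∃ C4 : ℝ, C4 = C3 * (1 + (2 * C1) ^ d * (2 * M)) := ⟨_, rfl⟩
  obtain ⟨C5, hC5⟩ : ∃ C5 : ℝ, C5 = C3 * (1 + (2 * (C1 * C1)) ^ d * (2 * M) ^ 2) := ⟨_, rfl⟩
  have hC4p : 1 ≤ C4 := by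
    rw [hC4]
    have : 0 ≤ (2 * C1) ^ d * (2 * M) := by positivity
    exact one_le_mul_of_one_le_of_one_le hC3 (by linarith)
  have hC5p : 1 ≤ C5 := by
    rw [hC5]
    have : 0 ≤ (2 * (C1 * C1)) ^ d * (2 * M) ^ 2 := by positivity
    exact one_le_mul_of_one_le_of_one_le hC3 (by linarith)
  have hhK : (1 : ℝ) ≤ Fintype.card (ClassGroup (𝓞 K)) := by
    exact_mod_cast Fintype.card_pos
  refine ⟨Fintype.card (ClassGroup (𝓞 K)) * (C4 * C5), one_le_mul_of_one_le_of_one_le hhK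
    (one_le_mul_of_one_le_of_one_le hC4p hC5p), ?_⟩
  intro 𝔮 hbot htop P X Y hX hY hPm
  have hNq : (1 : ℝ) ≤ (Ideal.absNorm 𝔮 : ℝ) := by exact_mod_cast absNorm_pos' hbot
  obtain ⟨A, hA⟩ : ∃ A : ℝ, A = C1 * (2 * X * M) ^ (1 / (d : ℝ)) := ⟨_, rfl⟩
  obtain ⟨B, hB⟩ : ∃ B : ℝ, B = C1 * (2 * Y * M) ^ (1 / (d : ℝ)) := ⟨_, rfl⟩
  have hA0 : 0 ≤ A := by rw [hA]; positivity
  have hB0 : 0 ≤ B := by rw [hB]; positivity
  have hroot : ∀ z : ℝ, 0 ≤ z → (z ^ (1 / (d : ℝ))) ^ d = z := by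
    intro z hz
    rw [← Real.rpow_natCast, ← Real.rpow_mul hz, one_div_mul_cancel hdr.ne', Real.rpow_one]
  have hAd : A ^ d = C1 ^ d * (2 * X * M) := by rw [hA, mul_pow, hroot _ (by positivity)]
  have hBd : B ^ d = C1 ^ d * (2 * Y * M) := by rw [hB, mul_pow, hroot _ (by positivity)]
  obtain ⟨U, hU⟩ : ∃ U : Set (𝓞 K ⧸ 𝔮), U =
    Set.range (fun u : (𝓞 K)ˣ => Ideal.Quotient.mk 𝔮 (u : 𝓞 K)) := ⟨_, rfl⟩
  have hUf : U.Finite := by rw [hU]; exact finite_Un hbot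
  -- the data
  have hdata : ∀ p : Ideal (𝓞 K) × Ideal (𝓞 K), ∃ (C : ClassGroup (𝓞 K)) (α β : 𝓞 K)
      (r : 𝓞 K ⧸ 𝔮), p ∈ P →
      r ∈ U ∧ α ≠ 0 ∧ β ≠ 0 ∧ Ideal.span {α} = p.1 * 𝔠 C ∧
      Ideal.span {β} = p.2 * 𝔠 C ∧ Bd α A ∧ Bd β B ∧
      Ideal.Quotient.mk 𝔮 α = r * Ideal.Quotient.mk 𝔮 β := by
    intro p
    by_cases hp : p ∈ P
    swap
    · exact ⟨1, 0, 0, 0, fun h => absurd h hp⟩
    obtain ⟨m1, m2, m3, ⟨-, -, a, b, ha1, hb1, hab'⟩, ⟨m5, m6⟩, ⟨m7, m8⟩⟩ := hPm p hp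
    obtain ⟨C, α₀, hα0, hα⟩ := h𝔠 _ m1
    obtain ⟨u, hu⟩ := hbal α₀ hα0
    have hua : Ideal.span {(u : 𝓞 K) * α₀} = p.1 * 𝔠 C := by
      rw [← hα, Ideal.span_singleton_mul_left_unit u.isUnit]
    obtain ⟨β₀, hβ, hαβ⟩ := pair_data htop (h𝔠0 C) (x := 1) hua ha1 hb1 hab'
    have hβ0 : β₀ ≠ 0 := by
      rintro rfl
      rw [Ideal.span_singleton_eq_bot.mpr rfl] at hβ
      exact mul_ne_zero m2 (h𝔠0 C) hβ.symm
    obtain ⟨v, hv⟩ := hbal β₀ hβ0
    have hvb : Ideal.span {(v : 𝓞 K) * β₀} = p.2 * 𝔠 C := by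
      rw [← hβ, Ideal.span_singleton_mul_left_unit v.isUnit]
    refine ⟨C, (u : 𝓞 K) * α₀, (v : 𝓞 K) * β₀, Ideal.Quotient.mk 𝔮 ((v⁻¹ : (𝓞 K)ˣ) : 𝓞 K),
      fun _ => ⟨?_, mul_ne_zero u.ne_zero hα0, mul_ne_zero v.ne_zero hβ0, hua, hvb, ?_, ?_, ?_⟩⟩
    · rw [hU]; exact ⟨v⁻¹, rfl⟩
    · refine hu.mono ?_
      rw [hA]
      refine mul_le_mul_of_nonneg_left (Real.rpow_le_rpow (Nat.cast_nonneg _) ?_ (by positivity))
        (by linarith)
      rw [absNorm_gen hα]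
      exact mul_le_mul m6 (h𝔠M C) (Nat.cast_nonneg _) (by positivity)
    · refine hv.mono ?_
      rw [hB]
      refine mul_le_mul_of_nonneg_left (Real.rpow_le_rpow (Nat.cast_nonneg _) ?_ (by positivity))
        (by linarith)
      rw [absNorm_gen hβ]
      exact mul_le_mul m8 (h𝔠M C) (Nat.cast_nonneg _) (by positivity)
    · have e1 : Ideal.Quotient.mk 𝔮 a * Ideal.Quotient.mk 𝔮 ((u : 𝓞 K) * α₀) =
          Ideal.Quotient.mk 𝔮 b * Ideal.Quotient.mk 𝔮 β₀ := by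
        rw [← map_mul, ← map_mul, hαβ]
      have e2 := (Ideal.Quotient.eq (I := 𝔮)).mpr ha1
      have e3 := (Ideal.Quotient.eq (I := 𝔮)).mpr hb1
      rw [e2, e3, map_one, one_mul, one_mul] at e1
      rw [e1, ← map_mul, ← mul_assoc, Units.inv_mul, one_mul]
  choose cC αα ββ rr hdat using hdata
  -- the outer fibres
  have h1 := Finset.card_le_mul_card_image (f := fun p => (cC p, rr p)) P
    ⌊C4 * C5 * (1 + X * Y / (Ideal.absNorm 𝔮 : ℝ))⌋₊ (by
      intro key hkey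
      obtain ⟨p0, hp0, hp0k⟩ := Finset.mem_image.mp hkey
      apply Nat.le_floor
      obtain ⟨Q, hQ⟩ : ∃ Q : Finset (Ideal (𝓞 K) × Ideal (𝓞 K)),
        Q = P.filter (fun p => (cC p, rr p) = key) := ⟨_, rfl⟩
      rw [← hQ]
      have hQm : ∀ p ∈ Q, p ∈ P ∧ cC p = cC p0 ∧ rr p = rr p0 := by
        intro p hp
        rw [hQ, Finset.mem_filter] at hp
        have h2 := hp.2.trans hp0k.symm
        exact ⟨hp.1, congrArg Prod.fst h2, congrArg Prod.snd h2⟩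
      have hQ0 : p0 ∈ Q := by
        rw [hQ, Finset.mem_filter]; exact ⟨hp0, hp0k⟩
      obtain ⟨dl, hdl⟩ : ∃ dl : Ideal (𝓞 K) × Ideal (𝓞 K) → 𝓞 K,
        ∀ p, dl p = αα p * ββ p0 - αα p0 * ββ p := ⟨_, fun _ => rfl⟩
      -- the inner fibres
      have h2 := Finset.card_le_mul_card_image (f := dl) Q ⌊C4⌋₊ (by
        intro D hD
        obtain ⟨p1, hp1, hp1D⟩ := Finset.mem_image.mp hD
        apply Nat.le_floor
        obtain ⟨R, hR⟩ : ∃ R : Finset (Ideal (𝓞 K) × Ideal (𝓞 K)),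
          R = Q.filter (fun p => dl p = D) := ⟨_, rfl⟩
        rw [← hR]
        have hRm : ∀ p ∈ R, p ∈ Q ∧ dl p = dl p1 := by
          intro p hp
          rw [hR, Finset.mem_filter] at hp
          exact ⟨hp.1, hp.2.trans hp1D.symm⟩
        obtain ⟨n1, n2, n3⟩ := hQm p1 hp1
        have hinj : Set.InjOn (fun p => αα p - αα p1) (R : Set (Ideal (𝓞 K) × Ideal (𝓞 K))) := by
          intro p hp p' hp' he
          obtain ⟨q1, q2⟩ := hRm p hp
          obtain ⟨q1', q2'⟩ := hRm p' hp'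
          obtain ⟨l1, l2, l3⟩ := hQm p q1
          obtain ⟨l1', l2', l3'⟩ := hQm p' q1'
          obtain ⟨-, u2, u3, u4, u5, -⟩ := hdat p l1
          obtain ⟨-, u2', u3', u4', u5', -⟩ := hdat p' l1'
          obtain ⟨-, v2, v3, v4, v5, -⟩ := hdat p0 hp0
          have e1 : αα p = αα p' := by
            have : αα p - αα p1 = αα p' - αα p1 := he
            linear_combination this
          have e2 : ββ p = ββ p' := by
            have h3 : dl p = dl p' := q2.trans q2'.symm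
            rw [hdl, hdl, e1] at h3
            apply mul_left_cancel₀ v2
            linear_combination -h3
          have e3 : p.1 = p'.1 := by
            apply mul_right_cancel₀ (b := 𝔠 (cC p0)) (h𝔠0 _)
            rw [l2] at u4
            rw [l2'] at u4'
            rw [← u4, ← u4', e1]
          have e4 : p.2 = p'.2 := by
            apply mul_right_cancel₀ (b := 𝔠 (cC p0)) (h𝔠0 _)
            rw [l2] at u5
            rw [l2'] at u5'
            rw [← u5, ← u5', e2]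
          exact Prod.ext e3 e4
        have h3 := hbox p0.1 (hPm p0 hp0).1 (A + A) (by positivity)
          (R.image (fun p => αα p - αα p1)) (by
            intro x hx
            obtain ⟨p, hp, rfl⟩ := Finset.mem_image.mp hx
            obtain ⟨q1, q2⟩ := hRm p hp
            obtain ⟨l1, l2, l3⟩ := hQm p q1
            obtain ⟨-, -, -, -, -, u6, -, -⟩ := hdat p l1
            obtain ⟨-, -, -, -, -, w6, -, -⟩ := hdat p1 n1
            obtain ⟨-, v2, v3, v4, v5, -, -, -⟩ := hdat p0 hp0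
            obtain ⟨g1, g2, g3, g4, -, -⟩ := hPm p0 hp0
            refine ⟨?_, u6.sub w6⟩
            have e1 : (αα p - αα p1) * ββ p0 = αα p0 * (ββ p - ββ p1) := by
              rw [hdl, hdl] at q2
              linear_combination q2
            have e2 : Ideal.span {αα p - αα p1} * p0.2 =
                p0.1 * Ideal.span {ββ p - ββ p1} := by
              apply mul_right_cancel₀ (b := 𝔠 (cC p0)) (h𝔠0 _)
              rw [mul_assoc, ← v5, Ideal.span_singleton_mul_span_singleton, e1,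
                ← Ideal.span_singleton_mul_span_singleton, v4]
              ring
            have e3 : p0.1 ∣ Ideal.span {αα p - αα p1} * p0.2 := ⟨_, e2⟩
            exact Ideal.dvd_span_singleton.mp (g3.dvd_of_dvd_mul_right e3))
        rw [Finset.card_image_of_injOn hinj] at h3
        refine h3.trans ?_
        rw [hC4]
        refine mul_le_mul_of_nonneg_left (add_le_add le_rfl ?_) (by linarith)
        obtain ⟨-, -, -, -, ⟨g5, -⟩, -⟩ := hPm p0 hp0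
        have hN0 : 0 < (Ideal.absNorm p0.1 : ℝ) := lt_of_lt_of_le hX g5
        rw [div_le_iff₀ hN0, ← two_mul, mul_pow, hAd]
        calc (2 : ℝ) ^ d * (C1 ^ d * (2 * X * M)) = (2 * C1) ^ d * (2 * M) * X := by
              rw [mul_pow]; ring
          _ ≤ _ := mul_le_mul_of_nonneg_left g5 (by positivity))
      have h3 := hbox 𝔮 hbot (A * B + A * B) (by positivity) (Q.image dl) (by
        intro x hx
        obtain ⟨p, hp, rfl⟩ := Finset.mem_image.mp hx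
        obtain ⟨l1, l2, l3⟩ := hQm p hp
        obtain ⟨-, -, -, -, -, u6, u7, u8⟩ := hdat p l1
        obtain ⟨-, -, -, -, -, v6, v7, v8⟩ := hdat p0 hp0
        rw [hdl]
        refine ⟨?_, (u6.mul v7).sub (v6.mul u7)⟩
        rw [← Ideal.Quotient.eq_zero_iff_mem, map_sub, map_mul, map_mul, u8, v8, l3]
        ring)
      have h4 : (Q.card : ℝ) ≤ C4 * ((Q.image dl).card : ℝ) := by
        have h5 : (Q.card : ℝ) ≤ (⌊C4⌋₊ : ℝ) * ((Q.image dl).card : ℝ) := by exact_mod_cast h2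
        exact h5.trans (mul_le_mul_of_nonneg_right (Nat.floor_le (by linarith)) (Nat.cast_nonneg _))
      refine h4.trans ?_
      rw [mul_assoc C4 C5]
      refine mul_le_mul_of_nonneg_left (h3.trans ?_) (by linarith)
      have h6 : (A * B + A * B) ^ d = (2 * (C1 * C1)) ^ d * (2 * M) ^ 2 * (X * Y) := by
        rw [← two_mul, mul_pow, mul_pow, hAd, hBd, mul_pow, mul_pow]
        ring
      rw [h6, hC5, mul_assoc C3]
      refine mul_le_mul_of_nonneg_left ?_ (by linarith)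
      obtain ⟨G, hG⟩ : ∃ G : ℝ, G = (2 * (C1 * C1)) ^ d * (2 * M) ^ 2 := ⟨_, rfl⟩
      obtain ⟨t, ht⟩ : ∃ t : ℝ, t = X * Y / (Ideal.absNorm 𝔮 : ℝ) := ⟨_, rfl⟩
      have hG0 : 0 ≤ G := by rw [hG]; positivity
      have ht0 : 0 ≤ t := by rw [ht]; positivity
      rw [← hG, mul_div_assoc, ← ht]
      nlinarith)
  have h2 : (P.image (fun p => (cC p, rr p))).card ≤
      Fintype.card (ClassGroup (𝓞 K)) * Un 𝔮 := by
    have h3 : P.image (fun p => (cC p, rr p)) ⊆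
        (Finset.univ : Finset (ClassGroup (𝓞 K))) ×ˢ hUf.toFinset := by
      intro x hx
      obtain ⟨p, hp, rfl⟩ := Finset.mem_image.mp hx
      rw [Finset.mem_product]
      refine ⟨Finset.mem_univ _, ?_⟩
      rw [Set.Finite.mem_toFinset]
      exact (hdat p hp).1
    refine (Finset.card_le_card h3).trans ?_
    rw [Finset.card_product, Finset.card_univ]
    refine Nat.mul_le_mul_left _ (le_of_eq ?_)
    unfold Un
    rw [← Set.ncard_eq_toFinset_card _ hUf, hU]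
  have h3 : (P.card : ℝ) ≤ (C4 * C5 * (1 + X * Y / (Ideal.absNorm 𝔮 : ℝ))) *
      (Fintype.card (ClassGroup (𝓞 K)) * Un 𝔮) := by
    have h4 : (P.card : ℝ) ≤ (⌊C4 * C5 * (1 + X * Y / (Ideal.absNorm 𝔮 : ℝ))⌋₊ : ℝ) *
        ((P.image (fun p => (cC p, rr p))).card : ℝ) := by exact_mod_cast h1
    refine h4.trans (mul_le_mul (Nat.floor_le (by positivity)) ?_ (Nat.cast_nonneg _)
      (by positivity))
    exact_mod_cast h2
  refine h3.trans (le_of_eq ?_)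
  ring

/-- the number of residue classes of the units -/
lemma Un_mono {𝔪 𝔮 : Ideal (𝓞 K)} (hbot : 𝔮 ≠ ⊥) (h : 𝔪 ∣ 𝔮) : Un 𝔪 ≤ Un 𝔮 := by
  unfold Un
  have h1 : Set.range (fun u : (𝓞 K)ˣ => Ideal.Quotient.mk 𝔪 (u : 𝓞 K)) =
      (Ideal.Quotient.factor (Ideal.dvd_iff_le.mp h)) ''
        Set.range (fun u : (𝓞 K)ˣ => Ideal.Quotient.mk 𝔮 (u : 𝓞 K)) := by
    rw [← Set.range_comp]
    rfl
  rw [h1]
  exact Set.ncard_image_le (finite_Un hbot)

end

end Pool.Agent.T9h27.K
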