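import Pool.Agent.T9h27.K.LsK
import Pool.Agent.N784.AD.Num

/-!
# The density theorem for the primitive ray class characters of a number field (helper27)
-/

set_option autoImplicit false
set_option linter.unusedSectionVars false

open NumberField Module Complex

namespace Pool.Agent.T9h27.K

open Pool.Agent.T9h27.D
open Pool.Agent.Y773 (LI)
open Pool.Agent.Y773.IQ (Fam absNorm_pos' exists_ge)
open Pool.Agent.N784.AD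

variable (K : Type) [Field K] [NumberField K]

/-- **the density theorem**, general form: `C₄ N(𝔮)^(1-γ)` bounds the loss in the pairs of ideals in
the same ray class -/
theorem dens_K {h c γ C₄ : ℝ} (hh1 : h ≤ 1) (hc0 : 0 < c) (hc : c < 2 * h - 1) (hγ : 0 < γ)
    (hC₄ : 0 ≤ C₄) :
    ∃ δ₀ Q X₀ : ℝ, 0 < δ₀ ∧ 0 ≤ Q ∧ 1 ≤ X₀ ∧ ∀ 𝔮 : Ideal (𝓞 K), 𝔮 ≠ ⊥ →
      X₀ ≤ (Ideal.absNorm 𝔮 : ℝ) → (Un 𝔮 : ℝ) ≤ (Ideal.absNorm 𝔮 : ℝ) ^ δ₀ → 𝔮 ≠ ⊤ ∧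
      ∀ T H : ℝ, 1 ≤ H → H ≤ T →
      ((Ideal.absNorm 𝔮 : ℝ) * T ^ finrank ℚ K) ^ h ≤ (Ideal.absNorm 𝔮 : ℝ) →
      (∀ X : ℕ, 1 ≤ X → X ≤ Ideal.absNorm 𝔮 → ∀ 𝔪 ∈ DD 𝔮, ∀ t₁ : ℝ, ∀ p ∈ PP 𝔪 X,
        ‖osc (nK K) t₁ H p.1 p.2‖ * (Ideal.absNorm 𝔪 : ℝ) ≤
          C₄ * (Ideal.absNorm 𝔮 : ℝ) ^ (1 - γ) * H * Real.sqrt (nK K p.1 * nK K p.2)) →
      ∀ (S : Finset (Ideal (𝓞 K) →*₀ ℂ)) (Lf : (Ideal (𝓞 K) →*₀ ℂ) → ℂ → ℂ),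
      (∀ ψ ∈ S, ψ ∈ Fam 𝔮) →
      (∀ ψ ∈ S, Differentiable ℂ (Lf ψ) ∧ ∀ s : ℂ, 1 < s.re → Lf ψ s = LI ψ s) →
      ∀ t₁ : ℝ, |t₁| ≤ T → ∀ δ : ℝ, 0 ≤ δ →
      (∀ ψ ∈ S, (farZ (Lf ψ) δ t₁ (t₁ + H)).Finite) ∧
      ∑ ψ ∈ S, (Nfar (Lf ψ) δ t₁ (t₁ + H) : ℝ) ≤
        Q * (((Fam 𝔮).ncard : ℝ) * H *
          Real.log ((Ideal.absNorm 𝔮 : ℝ) * T ^ finrank ℚ K) *
          ((Ideal.absNorm 𝔮 : ℝ) * T ^ finrank ℚ K) ^ (-(c * δ))) := by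
  classical
  obtain ⟨n, hn⟩ : ∃ n : ℕ, n = finrank ℚ K := ⟨_, rfl⟩
  have hn1 : 1 ≤ n := by rw [hn]; exact finrank_pos
  obtain ⟨g, hg⟩ : ∃ g : ℝ, g = (2 * h - 1 - c) / 12 := ⟨_, rfl⟩
  have hg0 : 0 < g := by rw [hg]; linarith
  have hg1 : g < 1 / 12 := by rw [hg]; linarith
  obtain ⟨m, hm⟩ : ∃ m : ℝ, m = min γ g := ⟨_, rfl⟩
  have hm0 : 0 < m := by rw [hm]; exact lt_min hγ hg0
  have hmγ : m ≤ γ := by rw [hm]; exact min_le_left _ _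
  have hmg : m ≤ g := by rw [hm]; exact min_le_right _ _
  obtain ⟨e, he⟩ : ∃ e : ℝ, e = m / 32 := ⟨_, rfl⟩
  have he0 : 0 < e := by rw [he]; positivity
  obtain ⟨A, hA, hgl⟩ := gl_K K
  obtain ⟨Q, R₀, hQ, hR₀, hden⟩ := dens_R (ns_K K) he0 hh1 hc0 hc hA n hn1
  obtain ⟨C₁, hC₁, hls⟩ := lsu_K K he0 (by rw [he]; linarith)
  obtain ⟨c₀, N₀, hc₀, hN₀, hbig⟩ := fam_big' K (ε := m / 16) (by positivity) (by linarith)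
  obtain ⟨N₁, hN₁, hN₁'⟩ := exists_ge (m / 2) (C₁ * (C₄ + 1) / c₀) (by positivity)
  refine ⟨m / 16, 2 * Q, max (max N₀ N₁) (max 2 (Real.exp R₀)), by positivity, by positivity, ?_, ?_⟩
  · exact hN₀.trans ((le_max_left _ _).trans (le_max_left _ _))
  intro 𝔮 hbot hX hU
  have hX1 : N₀ ≤ (Ideal.absNorm 𝔮 : ℝ) := ((le_max_left _ _).trans (le_max_left _ _)).trans hX
  have hX2 : N₁ ≤ (Ideal.absNorm 𝔮 : ℝ) := ((le_max_right _ _).trans (le_max_left _ _)).trans hX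
  have hX3 : 2 ≤ (Ideal.absNorm 𝔮 : ℝ) := ((le_max_left _ _).trans (le_max_right _ _)).trans hX
  have hX4 : Real.exp R₀ ≤ (Ideal.absNorm 𝔮 : ℝ) :=
    ((le_max_right _ _).trans (le_max_right _ _)).trans hX
  obtain ⟨N, hN⟩ : ∃ N : ℝ, N = (Ideal.absNorm 𝔮 : ℝ) := ⟨_, rfl⟩
  have htop : 𝔮 ≠ ⊤ := by
    intro h'
    rw [h', Ideal.absNorm_top] at hX3
    norm_num at hX3
  refine ⟨htop, ?_⟩
  have hfamc : ((FF 𝔮).card : ℝ) = ((Fam 𝔮).ncard : ℝ) := by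
    have : (Fam 𝔮) = ((FF 𝔮 : Finset _) : Set _) := by
      ext ψ
      rw [Finset.mem_coe, mem_FF hbot htop]
    rw [this, Set.ncard_coe_finset]
  have hfam1 := hbig 𝔮 hbot htop hU hX1
  rw [← hN] at hX1 hX2 hX3 hX4 hU hfam1
  have hN1 : 1 ≤ N := by linarith
  have hNpos : 0 < N := by linarith
  intro T H hH hHT hTh hosc S Lf hS hLf t₁ ht₁ δ hδ
  have hT : 1 ≤ T := hH.trans hHT
  have hT0 : 0 < T := by linarith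
  have hH0 : 0 < H := by linarith
  rw [← hn, ← hN] at hTh ⊢
  rw [← hN] at hosc
  have hTn : 1 ≤ T ^ n := one_le_pow₀ hT
  have hC1 : 1 ≤ N * T ^ n := one_le_mul_of_one_le_of_one_le hN1 hTn
  have hC0 : 0 < N * T ^ n := by linarith
  obtain ⟨R, hR⟩ : ∃ R : ℝ, R = Real.log (N * T ^ n) := ⟨_, rfl⟩
  have hexpR : Real.exp R = N * T ^ n := by rw [hR, Real.exp_log hC0]
  have hRR₀ : R₀ ≤ R := by
    rw [hR, Real.le_log_iff_exp_le hC0]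
    exact hX4.trans (le_mul_of_one_le_right (by linarith) hTn)
  have hR1 : 1 ≤ R := hR₀.trans hRR₀
  have hR0 : 0 < R := by linarith
  have hSF : S ⊆ FF 𝔮 := fun ψ hψ => (mem_FF hbot htop).mpr (hS ψ hψ)
  obtain ⟨P, hP⟩ : ∃ P : ℝ, P = ((Fam 𝔮).ncard : ℝ) * H := ⟨_, rfl⟩
  have hinfo : ∀ ψ ∈ S, ∃ 𝔣 : Ideal (𝓞 K), (Ideal.absNorm 𝔣 : ℝ) ≤ N ∧ 𝔣 ≠ ⊤ ∧
      Pool.Agent.Y773.G.IsPrimChar K 𝔣 ψ := by
    intro ψ hψ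
    obtain ⟨𝔣, h1, h2, h3⟩ := hS ψ hψ
    refine ⟨𝔣, ?_, h2, h3⟩
    rw [hN]
    exact_mod_cast Nat.le_of_dvd (absNorm_pos' hbot)
      (Ideal.absNorm_dvd_absNorm_of_le (Ideal.dvd_iff_le.mp h1))
  -- the large sieve
  have hlsu : ∀ X : ℕ, 1 ≤ X → (X : ℝ) ≤ Real.exp ((h - (2 * h - 1 - c) / 12) * R) →
      LSU (nK K) S (fun ψ => ψ) H P e X := by
    intro X hX1' hXe
    rw [← hg] at hXe
    have hXN : (X : ℝ) ≤ N ^ (1 - g) := by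
      refine hXe.trans ?_
      have h1 : (N * T ^ n) ^ h = Real.exp (h * R) := by
        rw [← hexpR, ← Real.exp_mul, mul_comm]
      rw [h1] at hTh
      have h2 : h * R ≤ Real.log N := by
        rw [Real.le_log_iff_exp_le hNpos]
        exact hTh
      rw [Real.rpow_def_of_pos hNpos]
      refine Real.exp_le_exp.mpr ?_
      have h3 : (h - g) * R ≤ (1 - g) * (h * R) := by
        have : 0 ≤ g * R * (1 - h) := by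
          have : 0 ≤ 1 - h := by linarith
          positivity
        nlinarith
      refine h3.trans ?_
      rw [mul_comm (Real.log N)]
      exact mul_le_mul_of_nonneg_left h2 (by linarith)
    have hXN1 : (X : ℝ) ≤ N := hXN.trans (by
      calc N ^ (1 - g) ≤ N ^ (1 : ℝ) := Real.rpow_le_rpow_of_exponent_le hN1 (by linarith)
        _ = N := Real.rpow_one _)
    have hXN2 : X ≤ Ideal.absNorm 𝔮 := by
      rw [hN] at hXN1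
      exact_mod_cast hXN1
    have hX1'' : (1 : ℝ) ≤ X := by exact_mod_cast hX1'
    refine hls 𝔮 hbot htop X hX1' H (C₄ * N ^ (1 - γ) * H) P hH0.le (by positivity)
      (hosc X hX1' hXN2) (by rw [hfamc, hP]) ?_ S hSF
    rw [hP, ← hN]
    have f1 : (X : ℝ) ^ (6 * e) ≤ N ^ (6 * e) :=
      Real.rpow_le_rpow (by linarith) hXN1 (by positivity)
    have f2 : N ^ (1 - γ) ≤ N ^ (1 - m) := Real.rpow_le_rpow_of_exponent_le hN1 (by linarith)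
    have f3 : (X : ℝ) ≤ N ^ (1 - m) :=
      hXN.trans (Real.rpow_le_rpow_of_exponent_le hN1 (by linarith))
    have f4 : C₁ * (C₄ + 1) ≤ c₀ * N ^ (m / 2) := by
      have := hN₁' N hX2
      rw [div_le_iff₀ hc₀] at this
      linarith
    have f5 : N ^ (m / 16) * N ^ e * N ^ (6 * e) * N ^ (1 - m) * N ^ (m / 2) ≤
        N ^ (1 - 2 * (m / 16)) := by
      rw [← Real.rpow_add hNpos, ← Real.rpow_add hNpos, ← Real.rpow_add hNpos,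
        ← Real.rpow_add hNpos]
      refine Real.rpow_le_rpow_of_exponent_le hN1 ?_
      rw [he]
      linarith
    have hUn0 : (0 : ℝ) ≤ Un 𝔮 := Nat.cast_nonneg _
    calc C₁ * Un 𝔮 * N ^ e * (X : ℝ) ^ (6 * e) * (C₄ * N ^ (1 - γ) * H + X * H) ≤
        C₁ * N ^ (m / 16) * N ^ e * N ^ (6 * e) * (C₄ * N ^ (1 - m) * H + N ^ (1 - m) * H) := by
          gcongr
      _ = (C₁ * (C₄ + 1)) * (N ^ (m / 16) * N ^ e * N ^ (6 * e) * N ^ (1 - m)) * H := by ring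
      _ ≤ (c₀ * N ^ (m / 2)) * (N ^ (m / 16) * N ^ e * N ^ (6 * e) * N ^ (1 - m)) * H := by
          gcongr
      _ = c₀ * (N ^ (m / 16) * N ^ e * N ^ (6 * e) * N ^ (1 - m) * N ^ (m / 2)) * H := by ring
      _ ≤ c₀ * N ^ (1 - 2 * (m / 16)) * H := by gcongr
      _ ≤ _ := by gcongr
  have hcardP : (S.card : ℝ) * H ≤ P := by
    rw [hP, ← hfamc]
    refine mul_le_mul_of_nonneg_right ?_ hH0.le
    exact_mod_cast Finset.card_le_card hSF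
  have hP0 : 0 ≤ P := by rw [hP]; positivity
  have hGL : ∀ ψ ∈ S, GLf (nK K) A T R n ψ (Lf ψ) := by
    intro ψ hψ
    obtain ⟨𝔣, h1, h2, h3⟩ := hinfo ψ hψ
    have h4 := (hgl 𝔣 ψ (Lf ψ) h2 h3 (hLf ψ hψ).1 (hLf ψ hψ).2).1 N T h1 hT
    rw [← hn, ← hR] at h4
    exact h4
  have hnv : ∀ ψ ∈ S, ∀ s : ℂ, 1 ≤ s.re → Lf ψ s ≠ 0 := by
    intro ψ hψ
    obtain ⟨𝔣, h1, h2, h3⟩ := hinfo ψ hψ
    exact (hgl 𝔣 ψ (Lf ψ) h2 h3 (hLf ψ hψ).1 (hLf ψ hψ).2).2.1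
  have hsym : ∀ ψ ∈ S, ∀ z : ℂ, 0 < z.re → z.re < 1 →
      analyticOrderNatAt (Lf ψ) z = analyticOrderNatAt (Lf ψ) (1 - (starRingEnd ℂ) z) := by
    intro ψ hψ
    obtain ⟨𝔣, h1, h2, h3⟩ := hinfo ψ hψ
    exact (hgl 𝔣 ψ (Lf ψ) h2 h3 (hLf ψ hψ).1 (hLf ψ hψ).2).2.2
  have hfin := two_side S Lf (δ := δ) (t₁ := t₁) (H := H)
    (B := Q * (P * R * Real.exp (-(c * R * δ)))) hδ (fun ψ hψ => (hLf ψ hψ).1)
    (fun ψ hψ => hnv ψ hψ 2 (by norm_num)) hsym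
    (fun Z hZ => hden R T H P _ S (fun ψ => ψ) Lf hRR₀ hH hHT hcardP hlsu hGL
      (fun ψ hψ s hs => hnv ψ hψ s hs.le) t₁ ht₁ δ hδ Z hZ)
  refine ⟨hfin.1, hfin.2.trans (le_of_eq ?_)⟩
  have h1 : Real.exp (-(c * R * δ)) = (N * T ^ n) ^ (-(c * δ)) := by
    rw [← hexpR, ← Real.exp_mul]
    congr 1
    ring
  rw [h1, hP, hR]
  ring

open Classical in
/-- **the density theorem**, every number field, long windows -/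
theorem dens_long {h c η : ℝ} (hh1 : h ≤ 1) (hc0 : 0 < c) (hc : c < 2 * h - 1) (hη : 0 < η) :
    ∃ δ₀ Q X₀ : ℝ, 0 < δ₀ ∧ 0 ≤ Q ∧ 1 ≤ X₀ ∧ ∀ 𝔮 : Ideal (𝓞 K), 𝔮 ≠ ⊥ →
      X₀ ≤ (Ideal.absNorm 𝔮 : ℝ) → (Un 𝔮 : ℝ) ≤ (Ideal.absNorm 𝔮 : ℝ) ^ δ₀ → 𝔮 ≠ ⊤ ∧
      ∀ T H : ℝ, (Ideal.absNorm 𝔮 : ℝ) ^ η ≤ H → H ≤ T →
      ((Ideal.absNorm 𝔮 : ℝ) * T ^ finrank ℚ K) ^ h ≤ (Ideal.absNorm 𝔮 : ℝ) →
      ∀ (S : Finset (Ideal (𝓞 K) →*₀ ℂ)) (Lf : (Ideal (𝓞 K) →*₀ ℂ) → ℂ → ℂ),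
      (∀ ψ ∈ S, ψ ∈ Fam 𝔮) →
      (∀ ψ ∈ S, Differentiable ℂ (Lf ψ) ∧ ∀ s : ℂ, 1 < s.re → Lf ψ s = LI ψ s) →
      ∀ t₁ : ℝ, |t₁| ≤ T → ∀ δ : ℝ, 0 ≤ δ →
      (∀ ψ ∈ S, (farZ (Lf ψ) δ t₁ (t₁ + H)).Finite) ∧
      ∑ ψ ∈ S, (Nfar (Lf ψ) δ t₁ (t₁ + H) : ℝ) ≤
        Q * (((Fam 𝔮).ncard : ℝ) * H *
          Real.log ((Ideal.absNorm 𝔮 : ℝ) * T ^ finrank ℚ K) *
          ((Ideal.absNorm 𝔮 : ℝ) * T ^ finrank ℚ K) ^ (-(c * δ))) := by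
  obtain ⟨δ₀, Q, X₀, h1, h2, h3, h4⟩ := dens_K K (γ := η) (C₄ := 4) hh1 hc0 hc hη (by norm_num)
  refine ⟨δ₀, Q, X₀, h1, h2, h3, fun 𝔮 hbot hX hU => ?_⟩
  obtain ⟨htop, h5⟩ := h4 𝔮 hbot hX hU
  refine ⟨htop, fun T H hH hHT hTh => ?_⟩
  have hN1 : (1 : ℝ) ≤ (Ideal.absNorm 𝔮 : ℝ) := h3.trans hX
  have hNpos : (0 : ℝ) < (Ideal.absNorm 𝔮 : ℝ) := by linarith
  have hH1 : 1 ≤ H := (Real.one_le_rpow hN1 hη.le).trans hH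
  refine h5 T H hH1 hHT hTh ?_
  intro X hX1 _ 𝔪 h𝔪 t₁ p hp
  obtain ⟨m1, m2⟩ := (mem_DD hbot).mp h𝔪
  have hNm : (Ideal.absNorm 𝔪 : ℝ) ≤ (Ideal.absNorm 𝔮 : ℝ) := by
    exact_mod_cast Nat.le_of_dvd (absNorm_pos' hbot)
      (Ideal.absNorm_dvd_absNorm_of_le (Ideal.dvd_iff_le.mp m1))
  unfold PP at hp
  rw [Finset.mem_filter, Finset.mem_product] at hp
  obtain ⟨⟨p1, p2⟩, -, -, p3⟩ := hp
  have h6 := osc_le (N := nK K) (t₁ := t₁) (H := H) (a := p.1) (b := p.2)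
    ((ns_K K).mem_SI.mp p1).1 ((ns_K K).mem_SI.mp p2).1 p3 rfl
  have h7 : (Ideal.absNorm 𝔮 : ℝ) ≤ (Ideal.absNorm 𝔮 : ℝ) ^ (1 - η) * H := by
    calc (Ideal.absNorm 𝔮 : ℝ) = (Ideal.absNorm 𝔮 : ℝ) ^ (1 - η) * (Ideal.absNorm 𝔮 : ℝ) ^ η := by
          rw [← Real.rpow_add hNpos, sub_add_cancel, Real.rpow_one]
      _ ≤ _ := mul_le_mul_of_nonneg_left hH (by positivity)
  calc _ ≤ (4 * Real.sqrt (nK K p.1 * nK K p.2)) * ((Ideal.absNorm 𝔮 : ℝ) ^ (1 - η) * H) :=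
        mul_le_mul h6 (hNm.trans h7) (Nat.cast_nonneg _) (by positivity)
    _ = _ := by ring

end Pool.Agent.T9h27.K
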