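import Pool.Agent.N784.AD.Zer
import Pool.Agent.T9h27.K.DenK

/-!
# The number of the zeros of the family: lower bound (helper27)
-/

set_option autoImplicit false
set_option linter.unusedSectionVars false
set_option linter.unusedVariables false

open NumberField Filter Topology MeasureTheory Module

namespace Pool.Agent.T9h27.K

open Pool.Agent.Y773 (LI cc)
open Pool.Agent.Y773.IQ (Fam cd cd_spec LL LL_eq absNorm_pos' exists_ge)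
open Pool.Agent.N784.AD
open H370 (zset NN)

variable (K : Type) [Field K] [NumberField K]

/-- **the number of the zeros** with `T < Im s ≤ 2T` -/
theorem zeros_low : ∃ δ₀ X₀ C₀ : ℝ, 0 < δ₀ ∧ 1 ≤ X₀ ∧ 1 ≤ C₀ ∧ ∀ 𝔮 : Ideal (𝓞 K), 𝔮 ≠ ⊥ →
    𝔮 ≠ ⊤ → X₀ ≤ (Ideal.absNorm 𝔮 : ℝ) → (Un 𝔮 : ℝ) ≤ (Ideal.absNorm 𝔮 : ℝ) ^ δ₀ →
    ∀ T : ℝ, C₀ * (1 + Real.sqrt (Real.log (Real.log
      ((Ideal.absNorm 𝔮 : ℝ) * T ^ finrank ℚ K)))) ≤ T →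
    ∀ S : Finset (Ideal (𝓞 K) →*₀ ℂ), (∀ ψ ∈ S, ψ ∈ Fam 𝔮) →
      (Fam 𝔮).ncard ≤ 2 * S.card →
      (∀ ψ ∈ S, (zset (LL K ψ) T (2 * T)).Finite) ∧
      1 / 2 * ((S.card : ℝ) * (T / (2 * Real.pi) *
        Real.log ((Ideal.absNorm 𝔮 : ℝ) * T ^ finrank ℚ K))) ≤
        ∑ ψ ∈ S, (NN (LL K ψ) T (2 * T) : ℝ) := by
  obtain ⟨A, hA, hgood⟩ := Pool.Agent.Y773.IQ.good K
  obtain ⟨d, hd⟩ : ∃ d : ℝ, d = (finrank ℚ K : ℝ) := ⟨_, rfl⟩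
  have hd1 : 1 ≤ d := by
    have := finrank_pos (R := ℚ) (M := K)
    rw [hd]; exact_mod_cast this
  have hd0 : 0 < d := by linarith
  obtain ⟨C, hC, hlow⟩ := Y767.WH.N_lower_E d A hd1 hA
  obtain ⟨δ₀, N₀, hδ₀, hN₀, hcond⟩ := fam_cond K (δ := 1 / 8) (by norm_num)
  have hpi := Real.pi_pos
  obtain ⟨C₀, hC₀⟩ : ∃ C₀ : ℝ, C₀ = max 24 (48 * Real.pi * C) := ⟨_, rfl⟩
  have hC₀a : 24 ≤ C₀ := by rw [hC₀]; exact le_max_left _ _
  have hC₀b : 48 * Real.pi * C ≤ C₀ := by rw [hC₀]; exact le_max_right _ _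
  refine ⟨δ₀, max N₀ (Real.exp (32 * Real.pi * C + 1)), C₀, hδ₀, le_max_of_le_left hN₀,
    by linarith, ?_⟩
  intro 𝔮 hbot htop hX hU T hT S hS hSc
  have hX1 : N₀ ≤ (Ideal.absNorm 𝔮 : ℝ) := (le_max_left _ _).trans hX
  have hX2 : Real.exp (32 * Real.pi * C + 1) ≤ (Ideal.absNorm 𝔮 : ℝ) := (le_max_right _ _).trans hX
  have hN1 : (1 : ℝ) ≤ (Ideal.absNorm 𝔮 : ℝ) := hN₀.trans hX1
  have hNpos : (0 : ℝ) < (Ideal.absNorm 𝔮 : ℝ) := by linarith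
  obtain ⟨Λ, hΛ⟩ : ∃ Λ : ℝ, Λ = Real.log ((Ideal.absNorm 𝔮 : ℝ) * T ^ finrank ℚ K) := ⟨_, rfl⟩
  rw [← hΛ] at hT ⊢
  have hsq : 0 ≤ Real.sqrt (Real.log Λ) := Real.sqrt_nonneg _
  have hT24 : 24 ≤ T := by nlinarith
  have hT1 : 1 ≤ T := by linarith
  have hTpos : 0 < T := by linarith
  obtain ⟨L, hL⟩ : ∃ L : ℝ, L = Real.log (Ideal.absNorm 𝔮) / d + Real.log T := ⟨_, rfl⟩
  have hdL : d * L = Λ := by
    rw [hL, hΛ, Real.log_mul hNpos.ne' (pow_pos hTpos _).ne', Real.log_pow, ← hd]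
    field_simp
  have hlT : 0 ≤ Real.log T := Real.log_nonneg hT1
  have hΛ1 : 32 * Real.pi * C + 1 ≤ Λ := by
    rw [hΛ, Real.le_log_iff_exp_le (by positivity)]
    exact hX2.trans (le_mul_of_one_le_right (by linarith) (one_le_pow₀ hT1))
  have hΛ0 : 1 ≤ Λ := by
    have : 0 ≤ 32 * Real.pi * C := by positivity
    linarith
  have hL0 : 0 < L := by
    have : 0 < d * L := by rw [hdL]; linarith
    exact (pos_iff_pos_of_mul_pos this).mp hd0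
  have hLΛ : L ≤ Λ := by
    rw [← hdL]
    exact le_mul_of_one_le_left hL0.le hd1
  obtain ⟨κ, hκ⟩ : ∃ κ : ℝ, κ = 3 * (1 + Real.sqrt (Real.log Λ)) := ⟨_, rfl⟩
  have hκ3 : 3 ≤ κ := by rw [hκ]; linarith
  have hκT : 8 * κ ≤ T := by
    rw [hκ]
    nlinarith
  have hκC : 16 * Real.pi * C * κ ≤ T := by
    refine le_trans ?_ hT
    rw [hκ]
    calc 16 * Real.pi * C * (3 * (1 + Real.sqrt (Real.log Λ))) =
        48 * Real.pi * C * (1 + Real.sqrt (Real.log Λ)) := by ring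
      _ ≤ _ := mul_le_mul_of_nonneg_right hC₀b (by linarith)
  have hexp : Λ ^ 2 * Real.exp (-κ ^ 2 / 2) ≤ 1 := by
    have h1 : 2 * Real.log Λ ≤ κ ^ 2 / 2 := by
      have h2 : Real.sqrt (Real.log Λ) ^ 2 = Real.log Λ := Real.sq_sqrt (Real.log_nonneg hΛ0)
      rw [hκ]
      nlinarith
    have h3 : Λ ^ 2 = Real.exp (2 * Real.log Λ) := by
      rw [mul_comm, Real.exp_mul, Real.exp_log (by linarith)]
      norm_cast
    rw [h3, ← Real.exp_add]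
    refine Real.exp_le_one_iff.mpr ?_
    linarith
  -- the family
  have hfin := (Fam_finite hbot htop).1
  obtain ⟨Sf, hSf⟩ : ∃ Sf : Finset (Ideal (𝓞 K) →*₀ ℂ), ∀ ψ, ψ ∈ Sf ↔ ψ ∈ Fam 𝔮 :=
    ⟨hfin.toFinset, fun ψ => hfin.mem_toFinset⟩
  have hSfc : (Sf.card : ℝ) = ((Fam 𝔮).ncard : ℝ) := by
    have : (Fam 𝔮) = (Sf : Set _) := by
      ext ψ; rw [Finset.mem_coe, hSf]
    rw [this, Set.ncard_coe_finset]
  have hSf2 : (Sf.card : ℝ) ≤ 2 * S.card := by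
    rw [hSfc]
    exact_mod_cast hSc
  have hav := avg_cond hbot S Sf hSf hS hSf2 (by norm_num : (0 : ℝ) ≤ 1 / 8)
    (hcond 𝔮 hbot htop Sf hU hSf hX1) hd1 hTpos hlT hL
  have hGd := fun ψ (hψ : ψ ∈ S) => goodLL hgood hbot (hS ψ hψ)
  rw [← hd] at hGd
  obtain ⟨lc, hlc⟩ : ∃ lc : (Ideal (𝓞 K) →*₀ ℂ) → ℝ → ℝ, ∀ ψ t, lc ψ t =
    Real.log ((Ideal.absNorm (cd 𝔮 ψ) : ℝ) ^ (1 / d) * t) := ⟨_, fun _ _ => rfl⟩
  have hlcf : ∀ ψ, lc ψ = fun t => Real.log ((Ideal.absNorm (cd 𝔮 ψ) : ℝ) ^ (1 / d) * t) :=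
    fun ψ => funext fun t => hlc ψ t
  simp_rw [← hlc] at hav
  refine ⟨fun ψ hψ => Y767.WH.zset_finite_E hA (hGd ψ hψ).1 (hGd ψ hψ).2 T (2 * T) hT1, ?_⟩
  have hone : ∀ ψ ∈ S, T / (2 * Real.pi) * (d * lc ψ T) - C * (2 * T + κ * Λ) ≤
      (NN (LL K ψ) T (2 * T) : ℝ) := by
    intro ψ hψ
    obtain ⟨b1, b2⟩ := lc_bounds hbot (hS ψ hψ) hd1 hT1 hL
    rw [← hlc] at b1 b2
    have h1 := hlow (lc ψ) (LL K ψ) _ (by rw [hlcf]; exact (hGd ψ hψ).1)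
      (by rw [hlcf]; exact (hGd ψ hψ).2) T κ hκ3 hκT
    refine le_trans ?_ h1
    have h2 : lc ψ T ≤ Λ := b2.trans hLΛ
    have h3 : T * lc ψ T ^ 2 * Real.exp (-κ ^ 2 / 2) ≤ T := by
      have h4 : lc ψ T ^ 2 ≤ Λ ^ 2 := pow_le_pow_left₀ b1 h2 2
      have h5 : lc ψ T ^ 2 * Real.exp (-κ ^ 2 / 2) ≤ 1 :=
        (mul_le_mul_of_nonneg_right h4 (Real.exp_pos _).le).trans hexp
      calc _ = T * (lc ψ T ^ 2 * Real.exp (-κ ^ 2 / 2)) := by ring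
        _ ≤ T * 1 := mul_le_mul_of_nonneg_left h5 hTpos.le
        _ = T := mul_one T
    have h6 : κ * lc ψ T ≤ κ * Λ := mul_le_mul_of_nonneg_left h2 (by linarith)
    have h7 : C * (T + κ * lc ψ T + T * lc ψ T ^ 2 * Real.exp (-κ ^ 2 / 2)) ≤
        C * (2 * T + κ * Λ) := mul_le_mul_of_nonneg_left (by linarith) hC.le
    linarith
  have h1 := Finset.sum_le_sum hone
  rw [Finset.sum_sub_distrib, Finset.sum_const, nsmul_eq_mul, ← Finset.mul_sum,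
    ← Finset.mul_sum] at h1
  refine le_trans ?_ h1
  have h2 : T / (2 * Real.pi) * (d * ((1 - 2 * (1 / 8)) * L * S.card)) ≤
      T / (2 * Real.pi) * (d * ∑ ψ ∈ S, lc ψ T) := by gcongr
  have h3 : T / (2 * Real.pi) * (d * ((1 - 2 * (1 / 8)) * L * S.card)) =
      3 / 4 * (S.card * (T / (2 * Real.pi) * Λ)) := by
    rw [← hdL]; ring
  rw [h3] at h2
  have h4 : C * (2 * T + κ * Λ) ≤ 1 / 4 * (T / (2 * Real.pi) * Λ) := by
    have e1 : 1 / 4 * (T / (2 * Real.pi) * Λ) = T * Λ / (8 * Real.pi) := by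
      field_simp; ring
    rw [e1, le_div_iff₀ (by positivity)]
    have e2 : 16 * Real.pi * C * κ * Λ ≤ T * Λ := mul_le_mul_of_nonneg_right hκC (by linarith)
    have e3 : T * (32 * Real.pi * C) ≤ T * Λ := mul_le_mul_of_nonneg_left (by linarith) hTpos.le
    nlinarith
  have h5 : (S.card : ℝ) * (C * (2 * T + κ * Λ)) ≤
      S.card * (1 / 4 * (T / (2 * Real.pi) * Λ)) :=
    mul_le_mul_of_nonneg_left h4 (Nat.cast_nonneg _)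
  have h6 : (S.card : ℝ) * (1 / 4 * (T / (2 * Real.pi) * Λ)) =
      1 / 4 * (S.card * (T / (2 * Real.pi) * Λ)) := by ring
  linarith

end Pool.Agent.T9h27.K
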