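import Pool.Agent.T9h27.K.Psum
import Pool.Agent.T9h27.K.GlK

/-!
# The large sieve inequality for the primitive characters of conductor dividing `𝔮` (helper27)
-/

set_option autoImplicit false
set_option linter.unusedSectionVars false

open NumberField Module

namespace Pool.Agent.T9h27.K

open Pool.Agent.T9h27.D
open Pool.Agent.Y773.IQ (ne_zero_of_cop absNorm_pos' dv divisor_bound)
open Pool.Agent.N784.AD

lemma osc_mul {M : Type} [CommMonoidWithZero M] [NormalizationMonoid M]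
    [UniqueFactorizationMonoid M] [Subsingleton Mˣ] [Nontrivial M] {N : M →*₀ ℕ} {n : ℕ}
    (h : NS N n) (t₁ H : ℝ) {d a b : M} (hd : d ≠ 0) (ha : a ≠ 0) (hb : b ≠ 0) :
    osc N t₁ H (d * a) (d * b) = osc N t₁ H a b := by
  unfold osc
  congr 1
  ext t
  have h1 : ∀ c : M, c ≠ 0 → ph N (d * c) t = ph N d t * ph N c t := by
    intro c hc
    unfold ph
    have h2 : ((N d : ℕ) : ℝ) ≠ 0 := by exact_mod_cast (h.pos hd).ne'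
    have h3 : ((N c : ℕ) : ℝ) ≠ 0 := by exact_mod_cast (h.pos hc).ne'
    rw [← Complex.exp_add, map_mul, Nat.cast_mul, Real.log_mul h2 h3]
    congr 1
    push_cast
    ring
  rw [h1 a ha, h1 b hb, map_mul]
  have h4 : ph N d t * (starRingEnd ℂ) (ph N d t) = 1 := by
    rw [Complex.mul_conj', norm_ph]
    norm_num
  calc _ = (ph N d t * (starRingEnd ℂ) (ph N d t)) * (ph N a t * (starRingEnd ℂ) (ph N b t)) := by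
        ring
    _ = _ := by rw [h4, one_mul]

section

variable {K : Type} [Field K] [NumberField K]

open Classical in
/-- removing the common factor -/
lemma pair_total (𝔪 : Ideal (𝓞 K)) (X : ℕ) (e t₁ H : ℝ) :
    ∑ p ∈ ((SI (nK K) X ×ˢ SI (nK K) X).filter (fun p => nK K p.1 ≠ nK K p.2)).filter
      (fun p => Rl 𝔪 p.1 p.2),
      (nK K p.1 : ℝ) ^ (e - 1 / 2) * (nK K p.2 : ℝ) ^ (e - 1 / 2) *
        ‖osc (nK K) t₁ H p.1 p.2‖ ≤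
    (∑ d ∈ SI (nK K) X, (nK K d : ℝ) ^ (2 * e - 1)) * ∑ p ∈ PP 𝔪 X,
      (nK K p.1 : ℝ) ^ (e - 1 / 2) * (nK K p.2 : ℝ) ^ (e - 1 / 2) *
        ‖osc (nK K) t₁ H p.1 p.2‖ := by
  obtain ⟨S, hS⟩ : ∃ S, S = ((SI (nK K) X ×ˢ SI (nK K) X).filter
    (fun p => nK K p.1 ≠ nK K p.2)).filter (fun p => Rl 𝔪 p.1 p.2) := ⟨_, rfl⟩
  rw [← hS]
  have hSm : ∀ p ∈ S, (1 ≤ nK K p.1 ∧ nK K p.1 ≤ X) ∧ (1 ≤ nK K p.2 ∧ nK K p.2 ≤ X) ∧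
      nK K p.1 ≠ nK K p.2 ∧ Rl 𝔪 p.1 p.2 := by
    intro p hp
    rw [hS, Finset.mem_filter, Finset.mem_filter, Finset.mem_product] at hp
    exact ⟨(ns_K K).mem_SI.mp hp.1.1.1, (ns_K K).mem_SI.mp hp.1.1.2, hp.1.2, hp.2⟩
  have hne : ∀ 𝔞 : Ideal (𝓞 K), 1 ≤ nK K 𝔞 → 𝔞 ≠ ⊥ := by
    rintro 𝔞 h rfl
    have : nK K (⊥ : Ideal (𝓞 K)) = 0 := Ideal.absNorm_bot
    omega
  have hch : ∀ p : Ideal (𝓞 K) × Ideal (𝓞 K), ∃ q : Ideal (𝓞 K) × Ideal (𝓞 K),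
      p.1 = (p.1 ⊔ p.2) * q.1 ∧ p.2 = (p.1 ⊔ p.2) * q.2 := by
    intro p
    obtain ⟨a, ha⟩ : p.1 ⊔ p.2 ∣ p.1 := Ideal.dvd_iff_le.mpr le_sup_left
    obtain ⟨b, hb⟩ : p.1 ⊔ p.2 ∣ p.2 := Ideal.dvd_iff_le.mpr le_sup_right
    exact ⟨(a, b), ha, hb⟩
  choose q hq1 hq2 using hch
  obtain ⟨φ, hφ⟩ : ∃ φ : Ideal (𝓞 K) × Ideal (𝓞 K) →
      Ideal (𝓞 K) × (Ideal (𝓞 K) × Ideal (𝓞 K)), ∀ p, φ p = (p.1 ⊔ p.2, q p) := ⟨_, fun _ => rfl⟩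
  obtain ⟨g, hg⟩ : ∃ g : Ideal (𝓞 K) × (Ideal (𝓞 K) × Ideal (𝓞 K)) → ℝ,
    ∀ x, g x = (nK K x.1 : ℝ) ^ (2 * e - 1) * ((nK K x.2.1 : ℝ) ^ (e - 1 / 2) *
      (nK K x.2.2 : ℝ) ^ (e - 1 / 2) * ‖osc (nK K) t₁ H x.2.1 x.2.2‖) := ⟨_, fun _ => rfl⟩
  have hg0 : ∀ x, 0 ≤ g x := fun x => by rw [hg]; positivity
  have hdat : ∀ p ∈ S, p.1 ⊔ p.2 ≠ ⊥ ∧ (q p).1 ≠ ⊥ ∧ (q p).2 ≠ ⊥ := by
    intro p hp
    obtain ⟨⟨h1, -⟩, ⟨h2, -⟩, -, -⟩ := hSm p hp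
    refine ⟨fun h => hne _ h1 (by rw [hq1 p, h, Ideal.bot_mul]), fun h => hne _ h1 (by
      rw [hq1 p, h, Ideal.mul_bot]), fun h => hne _ h2 (by rw [hq2 p, h, Ideal.mul_bot])⟩
  have hinj : Set.InjOn φ S := by
    intro p _ p' _ h
    rw [hφ, hφ] at h
    obtain ⟨h1, h2⟩ := Prod.ext_iff.mp h
    simp only at h1 h2
    refine Prod.ext ?_ ?_
    · rw [hq1 p, hq1 p', h1, h2]
    · rw [hq2 p, hq2 p', h1, h2]
  have hval : ∀ p ∈ S, (nK K p.1 : ℝ) ^ (e - 1 / 2) * (nK K p.2 : ℝ) ^ (e - 1 / 2) *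
        ‖osc (nK K) t₁ H p.1 p.2‖ = g (φ p) := by
    intro p hp
    obtain ⟨h1, h2, h3⟩ := hdat p hp
    obtain ⟨d, hd⟩ : ∃ d, d = p.1 ⊔ p.2 := ⟨_, rfl⟩
    have e1 := hq1 p
    have e2 := hq2 p
    rw [hg, hφ]
    simp only
    rw [← hd] at e1 e2 h1 ⊢
    rw [e1, e2, osc_mul (ns_K K) t₁ H h1 h2 h3, map_mul, map_mul]
    have n1 : (0 : ℝ) < (nK K d : ℝ) := by exact_mod_cast (ns_K K).pos h1
    rw [Nat.cast_mul, Nat.cast_mul, Real.mul_rpow (by positivity) (by positivity),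
      Real.mul_rpow (by positivity) (by positivity)]
    have e3 : (nK K d : ℝ) ^ (2 * e - 1) = (nK K d : ℝ) ^ (e - 1 / 2) * (nK K d : ℝ) ^ (e - 1 / 2) := by
      rw [← Real.rpow_add n1]
      congr 1
      ring
    rw [e3]
    ring
  rw [Finset.sum_congr rfl hval, ← Finset.sum_image (f := g) hinj]
  have hsub : S.image φ ⊆ SI (nK K) X ×ˢ PP 𝔪 X := by
    intro x hx
    obtain ⟨p, hp, rfl⟩ := Finset.mem_image.mp hx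
    obtain ⟨⟨h1, h1'⟩, ⟨h2, h2'⟩, h3, h4⟩ := hSm p hp
    obtain ⟨d1, d2, d3⟩ := hdat p hp
    have n1 := (ns_K K).pos d1
    have n2 := (ns_K K).pos d2
    have n3 := (ns_K K).pos d3
    have e1 : nK K p.1 = nK K (p.1 ⊔ p.2) * nK K (q p).1 := by
      conv_lhs => rw [hq1 p]
      rw [map_mul]
    have e2 : nK K p.2 = nK K (p.1 ⊔ p.2) * nK K (q p).2 := by
      conv_lhs => rw [hq2 p]
      rw [map_mul]
    rw [hφ, Finset.mem_product]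
    refine ⟨(ns_K K).mem_SI.mpr ⟨n1, ?_⟩, ?_⟩
    · change nK K (p.1 ⊔ p.2) ≤ X
      nlinarith
    · change q p ∈ PP 𝔪 X
      unfold PP
      rw [Finset.mem_filter, Finset.mem_product]
      refine ⟨⟨(ns_K K).mem_SI.mpr ⟨n2, by nlinarith⟩, (ns_K K).mem_SI.mpr ⟨n3, by nlinarith⟩⟩,
        ?_, ?_, ?_⟩
      · rw [Ideal.isCoprime_iff_sup_eq]
        have h5 : (p.1 ⊔ p.2) * ((q p).1 ⊔ (q p).2) = (p.1 ⊔ p.2) * ⊤ := by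
          rw [Ideal.mul_sup, ← hq1 p, ← hq2 p, Ideal.mul_top]
        exact mul_left_cancel₀ (a := p.1 ⊔ p.2) d1 h5
      · rw [hq1 p] at h4
        have h5 : Rl 𝔪 ((p.1 ⊔ p.2) * (q p).1) ((p.1 ⊔ p.2) * (q p).2) := by
          have h6 := (hSm p hp).2.2.2
          have e3 := hq1 p
          have e4 := hq2 p
          rw [← e3, ← e4]
          exact h6
        exact h5.cancel d1
      · intro h5
        apply h3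
        rw [e1, e2, h5]
  refine (Finset.sum_le_sum_of_subset_of_nonneg hsub fun x _ _ => hg0 x).trans (le_of_eq ?_)
  rw [Finset.sum_product, Finset.sum_mul]
  refine Finset.sum_congr rfl fun d _ => ?_
  rw [Finset.mul_sum]
  exact Finset.sum_congr rfl fun p _ => hg _

variable (K)

open Classical in
/-- **the large sieve inequality for the family** -/
theorem lsu_K {e : ℝ} (he : 0 < e) (he2 : e ≤ 1 / 2) : ∃ C : ℝ, 1 ≤ C ∧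
    ∀ (𝔮 : Ideal (𝓞 K)) (_ : 𝔮 ≠ ⊥) (_ : 𝔮 ≠ ⊤) (X : ℕ), 1 ≤ X → ∀ (H E P : ℝ), 0 ≤ H → 0 ≤ E →
    (∀ 𝔪 ∈ DD 𝔮, ∀ t₁ : ℝ, ∀ p ∈ PP 𝔪 X, ‖osc (nK K) t₁ H p.1 p.2‖ * (Ideal.absNorm 𝔪 : ℝ) ≤
      E * Real.sqrt (nK K p.1 * nK K p.2)) →
    (FF 𝔮).card * H ≤ P →
    C * Un 𝔮 * (Ideal.absNorm 𝔮 : ℝ) ^ e * (X : ℝ) ^ (6 * e) * (E + X * H) ≤ P →
    ∀ S ⊆ FF 𝔮, LSU (nK K) S (fun ψ => ψ) H P e X := by
  obtain ⟨C₁, hC₁, hps⟩ := psum K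
  obtain ⟨Z, hZ, hsp⟩ := sum_pow K he
  obtain ⟨C₂, hC₂, hlg⟩ := log_pow he
  obtain ⟨C₃, hC₃, hdv⟩ := divisor_bound K he
  have hhK : (1 : ℝ) ≤ hK K := by
    have h1 : 0 < hK K := by
      unfold hK
      exact Nat.mul_pos Nat.card_pos Nat.card_pos
    exact_mod_cast h1
  obtain ⟨C, hC⟩ : ∃ C : ℝ, C = hK K * Z ^ 2 + 2 * (C₃ * hK K * Z * C₂ * C₁) := ⟨_, rfl⟩
  have hC1 : 1 ≤ C := by
    have h1 : 1 ≤ (hK K : ℝ) * Z ^ 2 := one_le_mul_of_one_le_of_one_le hhK (one_le_pow₀ hZ)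
    have h2 : 0 ≤ 2 * (C₃ * hK K * Z * C₂ * C₁) := by positivity
    rw [hC]; linarith
  refine ⟨C, hC1, ?_⟩
  intro 𝔮 hbot htop X hX H E P hH hE hosc hP1 hP2 S hSF
  have hX1 : (1 : ℝ) ≤ X := by exact_mod_cast hX
  have hNq : (1 : ℝ) ≤ (Ideal.absNorm 𝔮 : ℝ) := by exact_mod_cast absNorm_pos' hbot
  have hUn1 : (1 : ℝ) ≤ Un 𝔮 := by exact_mod_cast one_le_Un hbot
  refine lsu_core (ns_K K) hSF (fun ψ hψ a => ?_) hH (fun t₁ => ?_) hP1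
  · obtain ⟨𝔣, h1, h2, h3⟩ := (mem_FF hbot htop).mp hψ
    exact h3.norm_le_one Pool.Agent.Y772.G.t_sig a
  obtain ⟨T, hT⟩ : ∃ T, T = (SI (nK K) X ×ˢ SI (nK K) X).filter
    (fun p => nK K p.1 ≠ nK K p.2) := ⟨_, rfl⟩
  rw [← hT]
  obtain ⟨w, hw⟩ : ∃ w : Ideal (𝓞 K) × Ideal (𝓞 K) → ℝ, ∀ p, w p =
    (nK K p.1 : ℝ) ^ (e - 1 / 2) * (nK K p.2 : ℝ) ^ (e - 1 / 2) *
      ‖osc (nK K) t₁ H p.1 p.2‖ := ⟨_, fun _ => rfl⟩
  have hw0 : ∀ p, 0 ≤ w p := fun p => by rw [hw]; positivity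
  have h1 : ∀ p ∈ T, (nK K p.1 : ℝ) ^ (e - 1 / 2) * (nK K p.2 : ℝ) ^ (e - 1 / 2) *
        (‖∑ i ∈ FF 𝔮, i p.1 * (starRingEnd ℂ) (i p.2)‖ * ‖osc (nK K) t₁ H p.1 p.2‖) ≤
      hK K * w p + ∑ 𝔪 ∈ DD 𝔮, (hK K : ℝ) * (Ideal.absNorm 𝔪 : ℝ) *
        (if Rl 𝔪 p.1 p.2 then w p else 0) := by
    intro p _
    have h2 := ker_le hbot htop (𝔞 := p.1) (𝔟 := p.2)
    have h3 : (nK K p.1 : ℝ) ^ (e - 1 / 2) * (nK K p.2 : ℝ) ^ (e - 1 / 2) *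
        (‖∑ i ∈ FF 𝔮, i p.1 * (starRingEnd ℂ) (i p.2)‖ * ‖osc (nK K) t₁ H p.1 p.2‖) =
        ‖∑ i ∈ FF 𝔮, i p.1 * (starRingEnd ℂ) (i p.2)‖ * w p := by
      rw [hw]; ring
    rw [h3]
    refine (mul_le_mul_of_nonneg_right h2 (hw0 p)).trans (le_of_eq ?_)
    rw [add_mul, Finset.sum_mul]
    congr 1
    refine Finset.sum_congr rfl fun 𝔪 _ => ?_
    split_ifs <;> ring
  refine (Finset.sum_le_sum h1).trans ?_
  rw [Finset.sum_add_distrib, ← Finset.mul_sum, Finset.sum_comm]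
  -- the first part
  have hA : ∑ p ∈ T, w p ≤ H * (Z * (X : ℝ) ^ (1 / 2 + 2 * e)) ^ 2 := by
    have h2 : ∀ p ∈ T, w p ≤ H * ((nK K p.1 : ℝ) ^ (e - 1 / 2) * (nK K p.2 : ℝ) ^ (e - 1 / 2)) := by
      intro p _
      rw [hw, mul_comm]
      exact mul_le_mul_of_nonneg_right (osc_le_H hH _ _) (by positivity)
    refine (Finset.sum_le_sum h2).trans ?_
    rw [← Finset.mul_sum]
    refine mul_le_mul_of_nonneg_left ?_ hH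
    have h3 : ∑ p ∈ T, ((nK K p.1 : ℝ) ^ (e - 1 / 2) * (nK K p.2 : ℝ) ^ (e - 1 / 2)) ≤
        ∑ p ∈ SI (nK K) X ×ˢ SI (nK K) X,
          ((nK K p.1 : ℝ) ^ (e - 1 / 2) * (nK K p.2 : ℝ) ^ (e - 1 / 2)) := by
      rw [hT]
      exact Finset.sum_le_sum_of_subset_of_nonneg (Finset.filter_subset _ _)
        (fun _ _ _ => by positivity)
    refine h3.trans ?_
    rw [Finset.sum_product]
    simp only
    rw [← Finset.sum_mul_sum, ← sq]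
    have h4 := hsp (e + 1 / 2) X (by linarith)
    have e1 : e + 1 / 2 - 1 = e - 1 / 2 := by ring
    have e2 : e + 1 / 2 + e = 1 / 2 + 2 * e := by ring
    rw [e1, e2] at h4
    exact pow_le_pow_left₀ (Finset.sum_nonneg fun _ _ => by positivity) h4 2
  -- the second part
  have hB : ∀ 𝔪 ∈ DD 𝔮, ∑ p ∈ T, (hK K : ℝ) * (Ideal.absNorm 𝔪 : ℝ) *
      (if Rl 𝔪 p.1 p.2 then w p else 0) ≤
      (hK K : ℝ) * ((Z * (X : ℝ) ^ (3 * e)) * ((C₂ * (X : ℝ) ^ e) *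
        (C₁ * Un 𝔮 * (X : ℝ) ^ (2 * e) * (2 * E + X * H)))) := by
    intro 𝔪 h𝔪
    obtain ⟨m1, m2⟩ := (mem_DD hbot).mp h𝔪
    have h𝔪bot : 𝔪 ≠ ⊥ := by
      rintro rfl
      exact hbot (zero_dvd_iff.mp m1)
    have hNm : (1 : ℝ) ≤ (Ideal.absNorm 𝔪 : ℝ) := by exact_mod_cast absNorm_pos' h𝔪bot
    have hNm0 : (0 : ℝ) < (Ideal.absNorm 𝔪 : ℝ) := by linarith
    rw [← Finset.mul_sum, ← Finset.sum_filter, mul_assoc]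
    refine mul_le_mul_of_nonneg_left ?_ (Nat.cast_nonneg _)
    have h2 := pair_total 𝔪 X e t₁ H
    have h3 := hps 𝔪 h𝔪bot m2 X hX e H (E / (Ideal.absNorm 𝔪 : ℝ)) he.le he2 hH (by positivity)
      (fun p => ‖osc (nK K) t₁ H p.1 p.2‖) (fun p hp => ⟨osc_le_H hH _ _, by
        have h4 := hosc 𝔪 h𝔪 t₁ p hp
        rw [div_mul_eq_mul_div, le_div_iff₀ hNm0]
        exact h4⟩)
    have h4 := hsp (2 * e) X (by linarith)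
    have e1 : 2 * e + e = 3 * e := by ring
    rw [e1] at h4
    rw [← hT] at h2
    have h5 : ∑ p ∈ T.filter (fun p => Rl 𝔪 p.1 p.2), w p ≤ (Z * (X : ℝ) ^ (3 * e)) *
        (((Nat.log 2 X : ℝ) + 1) ^ 2 * (C₁ * Un 𝔪 * (X : ℝ) ^ (2 * e) *
        (2 * (E / (Ideal.absNorm 𝔪 : ℝ)) + X * H / (Ideal.absNorm 𝔪 : ℝ)))) := by
      rw [Finset.sum_congr rfl fun p _ => hw p]
      refine h2.trans ?_
      refine mul_le_mul h4 h3 (Finset.sum_nonneg fun _ _ => by positivity) (by positivity)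
    have h6 : (Un 𝔪 : ℝ) ≤ Un 𝔮 := by exact_mod_cast Un_mono K hbot m1
    have h7 := hlg X hX
    calc (Ideal.absNorm 𝔪 : ℝ) * ∑ p ∈ T.filter (fun p => Rl 𝔪 p.1 p.2), w p ≤
        (Ideal.absNorm 𝔪 : ℝ) * ((Z * (X : ℝ) ^ (3 * e)) *
        (((Nat.log 2 X : ℝ) + 1) ^ 2 * (C₁ * Un 𝔪 * (X : ℝ) ^ (2 * e) *
        (2 * (E / (Ideal.absNorm 𝔪 : ℝ)) + X * H / (Ideal.absNorm 𝔪 : ℝ))))) :=
          mul_le_mul_of_nonneg_left h5 (by positivity)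
      _ = (Z * (X : ℝ) ^ (3 * e)) * (((Nat.log 2 X : ℝ) + 1) ^ 2 * (C₁ * Un 𝔪 *
          (X : ℝ) ^ (2 * e) * (2 * E + X * H))) := by
          field_simp
      _ ≤ _ := by gcongr
  have hB' := Finset.sum_le_sum hB
  rw [Finset.sum_const, nsmul_eq_mul] at hB'
  have hdd : ((DD 𝔮).card : ℝ) ≤ C₃ * (Ideal.absNorm 𝔮 : ℝ) ^ e := (DD_card hbot).trans (hdv 𝔮 hbot)
  refine (add_le_add (mul_le_mul_of_nonneg_left hA (Nat.cast_nonneg _)) (hB'.trans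
    (mul_le_mul_of_nonneg_right hdd (by positivity)))).trans ?_
  have e6 : (X : ℝ) ^ (6 * e) = (X : ℝ) ^ (3 * e) * (X : ℝ) ^ e * (X : ℝ) ^ (2 * e) := by
    rw [← Real.rpow_add (by linarith), ← Real.rpow_add (by linarith)]
    congr 1
    ring
  have e7 : ((X : ℝ) ^ (1 / 2 + 2 * e)) ^ 2 ≤ X * (X : ℝ) ^ (6 * e) := by
    rw [← Real.rpow_natCast, ← Real.rpow_mul (by linarith)]
    have : (X : ℝ) * (X : ℝ) ^ (6 * e) = (X : ℝ) ^ (1 + 6 * e) := by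
      rw [Real.rpow_add (by linarith), Real.rpow_one]
    rw [this]
    refine Real.rpow_le_rpow_of_exponent_le hX1 ?_
    push_cast
    linarith
  have hq1 : 1 ≤ (Ideal.absNorm 𝔮 : ℝ) ^ e := Real.one_le_rpow hNq he.le
  have f1 : (hK K : ℝ) * (H * (Z * (X : ℝ) ^ (1 / 2 + 2 * e)) ^ 2) ≤
      (hK K * Z ^ 2) * Un 𝔮 * (Ideal.absNorm 𝔮 : ℝ) ^ e * (X : ℝ) ^ (6 * e) * (E + X * H) := by
    calc _ = (hK K * Z ^ 2) * 1 * 1 * (H * ((X : ℝ) ^ (1 / 2 + 2 * e)) ^ 2) := by ring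
      _ ≤ (hK K * Z ^ 2) * Un 𝔮 * (Ideal.absNorm 𝔮 : ℝ) ^ e * (H * (X * (X : ℝ) ^ (6 * e))) := by
          gcongr
      _ = (hK K * Z ^ 2) * Un 𝔮 * (Ideal.absNorm 𝔮 : ℝ) ^ e * (X : ℝ) ^ (6 * e) * (0 + X * H) := by
          ring
      _ ≤ _ := by gcongr
  have f2 : C₃ * (Ideal.absNorm 𝔮 : ℝ) ^ e * ((hK K : ℝ) * ((Z * (X : ℝ) ^ (3 * e)) *
      ((C₂ * (X : ℝ) ^ e) * (C₁ * Un 𝔮 * (X : ℝ) ^ (2 * e) * (2 * E + X * H))))) ≤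
      (2 * (C₃ * hK K * Z * C₂ * C₁)) * Un 𝔮 * (Ideal.absNorm 𝔮 : ℝ) ^ e * (X : ℝ) ^ (6 * e) *
        (E + X * H) := by
    rw [e6]
    have h2 : 2 * E + X * H ≤ 2 * (E + X * H) := by
      have : 0 ≤ X * H := by positivity
      linarith
    calc _ = (C₃ * hK K * Z * C₂ * C₁) * Un 𝔮 * (Ideal.absNorm 𝔮 : ℝ) ^ e *
          ((X : ℝ) ^ (3 * e) * (X : ℝ) ^ e * (X : ℝ) ^ (2 * e)) * (2 * E + X * H) := by ring
      _ ≤ (C₃ * hK K * Z * C₂ * C₁) * Un 𝔮 * (Ideal.absNorm 𝔮 : ℝ) ^ e *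
          ((X : ℝ) ^ (3 * e) * (X : ℝ) ^ e * (X : ℝ) ^ (2 * e)) * (2 * (E + X * H)) := by gcongr
      _ = _ := by ring
  refine (add_le_add f1 f2).trans (le_trans (le_of_eq ?_) hP2)
  rw [hC]
  ring

end

end Pool.Agent.T9h27.K
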