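import Pool.Agent.T9h27.D.Pol

/-!
# The mean square of a family, reduced to the pairs of elements of different norms (helper27)
-/

set_option autoImplicit false
set_option linter.unusedSectionVars false

open UniqueFactorizationMonoid MeasureTheory Complex Filter Topology Set

namespace Pool.Agent.T9h27.D

section

variable {M : Type} [CommMonoidWithZero M] [NormalizationMonoid M] [UniqueFactorizationMonoid M]
  [Subsingleton Mˣ] [Nontrivial M] {N : M →*₀ ℕ} {n : ℕ}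

/-- the oscillating integral -/
noncomputable def osc (N : M →*₀ ℕ) (t₁ H : ℝ) (a b : M) : ℂ :=
  ∫ t in t₁..(t₁ + H), ph N a t * (starRingEnd ℂ) (ph N b t)

lemma norm_ph (a : M) (t : ℝ) : ‖ph N a t‖ = 1 := by
  unfold ph
  rw [← neg_mul, ← Complex.ofReal_neg, Complex.norm_exp_ofReal_mul_I]

lemma osc_le_H {t₁ H : ℝ} (hH : 0 ≤ H) (a b : M) : ‖osc N t₁ H a b‖ ≤ H := by
  unfold osc
  have h1 := intervalIntegral.norm_integral_le_of_norm_le_const (a := t₁) (b := t₁ + H)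
    (f := fun t => ph N a t * (starRingEnd ℂ) (ph N b t)) (C := 1) (fun t _ => by
      rw [norm_mul, RCLike.norm_conj, norm_ph, norm_ph, mul_one])
  rw [add_sub_cancel_left, abs_of_nonneg hH, one_mul] at h1
  exact h1

lemma osc_le_div {t₁ H : ℝ} {a b : M} {θ : ℝ} (hθ : θ = Real.log (N a) - Real.log (N b))
    (h0 : θ ≠ 0) : ‖osc N t₁ H a b‖ ≤ 2 / |θ| := by
  unfold osc
  have e1 : ∀ t : ℝ, ph N a t * (starRingEnd ℂ) (ph N b t) = cexp ((-(θ : ℂ) * I) * t) := by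
    intro t
    unfold ph
    rw [← Complex.exp_conj, ← Complex.exp_add]
    congr 1
    rw [map_neg, map_mul, Complex.conj_ofReal, Complex.conj_I, hθ]
    push_cast
    ring
  simp_rw [e1]
  have hc : (-(θ : ℂ) * I) ≠ 0 := by
    refine mul_ne_zero (neg_ne_zero.mpr ?_) Complex.I_ne_zero
    exact_mod_cast h0
  rw [integral_exp_mul_complex hc, norm_div, norm_mul, norm_neg, Complex.norm_I, mul_one,
    Complex.norm_real, Real.norm_eq_abs]
  refine div_le_div_of_nonneg_right ?_ (abs_nonneg _)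
  refine (norm_sub_le _ _).trans ?_
  have e2 : ∀ t : ℝ, ‖cexp ((-(θ : ℂ) * I) * t)‖ = 1 := by
    intro t
    have : (-(θ : ℂ) * I) * t = ((-(θ * t) : ℝ) : ℂ) * I := by push_cast; ring
    rw [this, Complex.norm_exp_ofReal_mul_I]
  rw [e2, e2]
  norm_num

lemma osc_aux {x y : ℕ} (hy : 1 ≤ y) (hxy : y < x) :
    1 / 2 ≤ (Real.log x - Real.log y) * Real.sqrt (x * y) := by
  have hy0 : (1 : ℝ) ≤ y := by exact_mod_cast hy
  have hd : (1 : ℝ) ≤ (x : ℝ) - y := by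
    have : (y : ℝ) + 1 ≤ x := by exact_mod_cast hxy
    linarith
  have hx0 : (0 : ℝ) < x := by linarith
  have h1 : 1 - (y : ℝ) / x ≤ Real.log x - Real.log y := by
    have h2 := Real.one_sub_inv_le_log_of_pos (x := (x : ℝ) / y) (by positivity)
    rw [Real.log_div hx0.ne' (by linarith), inv_div] at h2
    exact h2
  have h3 : 0 ≤ 1 - (y : ℝ) / x := by
    rw [sub_nonneg, div_le_one hx0]; linarith
  refine le_trans ?_ (mul_le_mul_of_nonneg_right h1 (Real.sqrt_nonneg _))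
  have h4 : (1 - (y : ℝ) / x) * Real.sqrt (x * y) =
      Real.sqrt ((1 - (y : ℝ) / x) ^ 2 * (x * y)) := by
    rw [Real.sqrt_mul (sq_nonneg _), Real.sqrt_sq h3]
  rw [h4]
  refine Real.le_sqrt_of_sq_le ?_
  have h5 : (1 - (y : ℝ) / x) ^ 2 * (x * y) = ((x : ℝ) - y) ^ 2 * y / x := by
    field_simp
  rw [h5, le_div_iff₀ hx0]
  obtain ⟨d, hd'⟩ : ∃ d : ℝ, d = (x : ℝ) - y := ⟨_, rfl⟩
  have hx : (x : ℝ) = d + y := by linarith
  rw [← hd', hx]
  rw [← hd'] at hd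
  have h6 : 0 ≤ (d - 1) * (y - 1) := mul_nonneg (by linarith) (by linarith)
  have h7 : d * y ≤ d ^ 2 * y := by
    have : 0 ≤ d * y * (d - 1) := by
      have : 0 ≤ d := by linarith
      have : (0 : ℝ) ≤ y := by linarith
      have : 0 ≤ d - 1 := by linarith
      positivity
    nlinarith
  nlinarith

/-- the oscillation of the quotient of two different norms, after a common factor is removed -/
lemma osc_le {t₁ H : ℝ} {a b : M} {x y : ℕ} (hx : 1 ≤ x) (hy : 1 ≤ y) (hne : x ≠ y)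
    (h : Real.log (N a) - Real.log (N b) = Real.log x - Real.log y) :
    ‖osc N t₁ H a b‖ ≤ 4 * Real.sqrt (x * y) := by
  obtain ⟨θ, hθ⟩ : ∃ θ : ℝ, θ = Real.log (N a) - Real.log (N b) := ⟨_, rfl⟩
  have hx0 : (1 : ℝ) ≤ x := by exact_mod_cast hx
  have hy0 : (1 : ℝ) ≤ y := by exact_mod_cast hy
  have hS : 0 < Real.sqrt (x * y) := Real.sqrt_pos.mpr (by positivity)
  have key : 1 / 2 ≤ |θ| * Real.sqrt (x * y) := by
    rw [hθ, h]
    rcases lt_or_gt_of_ne hne with h1 | h1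
    · have h2 := osc_aux hx h1
      rw [abs_sub_comm, mul_comm (x : ℝ)]
      exact h2.trans (mul_le_mul_of_nonneg_right (le_abs_self _) (Real.sqrt_nonneg _))
    · have h2 := osc_aux hy h1
      exact h2.trans (mul_le_mul_of_nonneg_right (le_abs_self _) (Real.sqrt_nonneg _))
  have hθ0 : 0 < |θ| := by
    by_contra h1
    have h2 : |θ| = 0 := le_antisymm (not_lt.mp h1) (abs_nonneg _)
    rw [h2, zero_mul] at key
    norm_num at key
  refine (osc_le_div hθ (abs_pos.mp hθ0)).trans ?_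
  rw [div_le_iff₀ hθ0]
  nlinarith

/-- the mean square as a sum over pairs -/
theorem ms_pairs {ι : Type} (Fam : Finset ι) (χ : ι → M →*₀ ℂ) (t₁ H : ℝ)
    (X : ℕ) (u : M → ℂ) :
    ∑ i ∈ Fam, ∫ t in t₁..(t₁ + H), ‖∑ a ∈ SI N X, u a * χ i a * ph N a t‖ ^ 2 ≤
      ∑ a ∈ SI N X, ∑ b ∈ SI N X, ‖u a‖ * ‖u b‖ *
        (‖∑ i ∈ Fam, χ i a * (starRingEnd ℂ) (χ i b)‖ * ‖osc N t₁ H a b‖) := by
  have h1 : ∀ i ∈ Fam, ((∫ t in t₁..(t₁ + H), ‖∑ a ∈ SI N X, u a * χ i a * ph N a t‖ ^ 2 : ℝ) : ℂ) =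
      ∑ a ∈ SI N X, ∑ b ∈ SI N X, u a * (starRingEnd ℂ) (u b) *
        (χ i a * (starRingEnd ℂ) (χ i b)) * osc N t₁ H a b := by
    intro i _
    rw [← intervalIntegral.integral_ofReal]
    have e1 : ∀ t : ℝ, ((‖∑ a ∈ SI N X, u a * χ i a * ph N a t‖ ^ 2 : ℝ) : ℂ) =
        ∑ a ∈ SI N X, ∑ b ∈ SI N X, u a * (starRingEnd ℂ) (u b) *
          (χ i a * (starRingEnd ℂ) (χ i b)) * (ph N a t * (starRingEnd ℂ) (ph N b t)) := by
      intro t
      rw [Complex.ofReal_pow, ← Complex.mul_conj', map_sum, Finset.sum_mul_sum]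
      refine Finset.sum_congr rfl fun a _ => Finset.sum_congr rfl fun b _ => ?_
      rw [map_mul, map_mul]
      ring
    simp_rw [e1]
    rw [intervalIntegral.integral_finset_sum]
    · refine Finset.sum_congr rfl fun a _ => ?_
      rw [intervalIntegral.integral_finset_sum]
      · refine Finset.sum_congr rfl fun b _ => ?_
        rw [intervalIntegral.integral_const_mul]
        rfl
      · intro b _
        refine Continuous.intervalIntegrable ?_ _ _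
        have := ph_cont N a
        have := ph_cont N b
        fun_prop
    · intro a _
      refine Continuous.intervalIntegrable ?_ _ _
      refine continuous_finset_sum _ fun b _ => ?_
      have := ph_cont N a
      have := ph_cont N b
      fun_prop
  have h2 : ((∑ i ∈ Fam, ∫ t in t₁..(t₁ + H), ‖∑ a ∈ SI N X, u a * χ i a * ph N a t‖ ^ 2 : ℝ) : ℂ) =
      ∑ a ∈ SI N X, ∑ b ∈ SI N X, u a * (starRingEnd ℂ) (u b) *
        (∑ i ∈ Fam, χ i a * (starRingEnd ℂ) (χ i b)) * osc N t₁ H a b := by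
    rw [Complex.ofReal_sum, Finset.sum_congr rfl h1, Finset.sum_comm]
    refine Finset.sum_congr rfl fun a _ => ?_
    rw [Finset.sum_comm]
    refine Finset.sum_congr rfl fun b _ => ?_
    rw [Finset.mul_sum, Finset.sum_mul]
  have h3 : 0 ≤ ∑ i ∈ Fam, ∫ t in t₁..(t₁ + H), ‖∑ a ∈ SI N X, u a * χ i a * ph N a t‖ ^ 2 ∨
      ∑ i ∈ Fam, ∫ t in t₁..(t₁ + H), ‖∑ a ∈ SI N X, u a * χ i a * ph N a t‖ ^ 2 ≤ 0 :=
    le_total _ _
  have h4 : ∑ i ∈ Fam, ∫ t in t₁..(t₁ + H), ‖∑ a ∈ SI N X, u a * χ i a * ph N a t‖ ^ 2 ≤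
      ‖((∑ i ∈ Fam, ∫ t in t₁..(t₁ + H), ‖∑ a ∈ SI N X, u a * χ i a * ph N a t‖ ^ 2 : ℝ) : ℂ)‖ := by
    rw [Complex.norm_real]
    exact Real.le_norm_self _
  refine h4.trans ?_
  rw [h2]
  refine (norm_sum_le _ _).trans (Finset.sum_le_sum fun a _ => ?_)
  refine (norm_sum_le _ _).trans (Finset.sum_le_sum fun b _ => le_of_eq ?_)
  rw [norm_mul, norm_mul, norm_mul, RCLike.norm_conj]
  ring

open Classical in
/-- **the large sieve inequality** from a bound for the pairs of elements of different norms -/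
theorem lsu_core (hN : NS N n) {ι : Type} {S Fam : Finset ι} (hS : S ⊆ Fam) {χ : ι → M →*₀ ℂ}
    (hχ : ∀ i ∈ Fam, ∀ a, ‖χ i a‖ ≤ 1) {H P e : ℝ} {X : ℕ} (hH : 0 ≤ H)
    (hE : ∀ t₁ : ℝ, ∑ p ∈ (SI N X ×ˢ SI N X).filter (fun p => N p.1 ≠ N p.2),
      (N p.1 : ℝ) ^ (e - 1 / 2) * (N p.2 : ℝ) ^ (e - 1 / 2) *
        (‖∑ i ∈ Fam, χ i p.1 * (starRingEnd ℂ) (χ i p.2)‖ * ‖osc N t₁ H p.1 p.2‖) ≤ P)
    (hP : Fam.card * H ≤ P) : LSU N S χ H P e X := by
  intro u B t₁ hB hu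
  have hP0 : 0 ≤ P := le_trans (by positivity) hP
  have h0 : ∑ i ∈ S, ∫ t in t₁..(t₁ + H), ‖∑ a ∈ SI N X, u a * χ i a * ph N a t‖ ^ 2 ≤
      ∑ i ∈ Fam, ∫ t in t₁..(t₁ + H), ‖∑ a ∈ SI N X, u a * χ i a * ph N a t‖ ^ 2 := by
    refine Finset.sum_le_sum_of_subset_of_nonneg hS fun i _ _ => ?_
    exact intervalIntegral.integral_nonneg (by linarith) fun t _ => sq_nonneg _
  refine h0.trans ((ms_pairs Fam χ t₁ H X u).trans ?_)
  rw [← Finset.sum_product', ← Finset.sum_filter_add_sum_filter_not (SI N X ×ˢ SI N X)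
    (fun p => N p.1 = N p.2), mul_add]
  refine add_le_add ?_ ?_
  · -- the same norm
    have h1 : ∀ p ∈ (SI N X ×ˢ SI N X).filter (fun p => N p.1 = N p.2),
        ‖u p.1‖ * ‖u p.2‖ * (‖∑ i ∈ Fam, χ i p.1 * (starRingEnd ℂ) (χ i p.2)‖ *
          ‖osc N t₁ H p.1 p.2‖) ≤ P * (‖u p.1‖ * ‖u p.2‖) := by
      intro p _
      have h2 : ‖∑ i ∈ Fam, χ i p.1 * (starRingEnd ℂ) (χ i p.2)‖ ≤ Fam.card := by
        refine (norm_sum_le _ _).trans ?_
        rw [← nsmul_one, ← Finset.sum_const]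
        refine Finset.sum_le_sum fun i hi => ?_
        rw [norm_mul, RCLike.norm_conj]
        exact mul_le_one₀ (hχ i hi _) (norm_nonneg _) (hχ i hi _)
      have h3 := osc_le_H (N := N) (t₁ := t₁) hH p.1 p.2
      have h4 : ‖∑ i ∈ Fam, χ i p.1 * (starRingEnd ℂ) (χ i p.2)‖ * ‖osc N t₁ H p.1 p.2‖ ≤ P :=
        (mul_le_mul h2 h3 (norm_nonneg _) (Nat.cast_nonneg _)).trans hP
      calc _ ≤ ‖u p.1‖ * ‖u p.2‖ * P := mul_le_mul_of_nonneg_left h4 (by positivity)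
        _ = _ := mul_comm _ _
    refine (Finset.sum_le_sum h1).trans ?_
    rw [← Finset.mul_sum]
    refine mul_le_mul_of_nonneg_left (le_of_eq ?_) hP0
    rw [Finset.sum_filter, Finset.sum_product]
    have hmaps : ∀ a ∈ SI N X, N a ∈ Finset.Icc 1 X := fun a ha =>
      Finset.mem_Icc.mpr (hN.mem_SI.mp ha)
    rw [← Finset.sum_fiberwise_of_maps_to hmaps (fun a => ∑ b ∈ SI N X,
      if N a = N b then ‖u a‖ * ‖u b‖ else 0)]
    refine Finset.sum_congr rfl fun m _ => ?_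
    rw [sq, Finset.sum_mul_sum]
    refine Finset.sum_congr rfl fun a ha => ?_
    rw [Finset.sum_filter]
    refine Finset.sum_congr rfl fun b _ => ?_
    rw [(Finset.mem_filter.mp ha).2]
    by_cases h5 : N b = m
    · rw [if_pos h5.symm, if_pos h5]
    · rw [if_neg (fun h6 => h5 h6.symm), if_neg h5]
  · -- different norms
    have h1 : ∀ p ∈ (SI N X ×ˢ SI N X).filter (fun p => ¬ N p.1 = N p.2),
        ‖u p.1‖ * ‖u p.2‖ * (‖∑ i ∈ Fam, χ i p.1 * (starRingEnd ℂ) (χ i p.2)‖ *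
          ‖osc N t₁ H p.1 p.2‖) ≤ B ^ 2 * ((N p.1 : ℝ) ^ (e - 1 / 2) * (N p.2 : ℝ) ^ (e - 1 / 2) *
        (‖∑ i ∈ Fam, χ i p.1 * (starRingEnd ℂ) (χ i p.2)‖ * ‖osc N t₁ H p.1 p.2‖)) := by
      intro p hp
      obtain ⟨hp1, -⟩ := Finset.mem_filter.mp hp
      obtain ⟨hp2, hp3⟩ := Finset.mem_product.mp hp1
      have h2 := mul_le_mul (hu _ hp2) (hu _ hp3) (norm_nonneg _) (by positivity)
      calc _ ≤ (B * (N p.1 : ℝ) ^ (e - 1 / 2) * (B * (N p.2 : ℝ) ^ (e - 1 / 2))) *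
            (‖∑ i ∈ Fam, χ i p.1 * (starRingEnd ℂ) (χ i p.2)‖ * ‖osc N t₁ H p.1 p.2‖) :=
            mul_le_mul_of_nonneg_right h2 (by positivity)
        _ = _ := by ring
    refine (Finset.sum_le_sum h1).trans ?_
    rw [← Finset.mul_sum, mul_comm P]
    exact mul_le_mul_of_nonneg_left (hE t₁) (sq_nonneg _)

end

end Pool.Agent.T9h27.D
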