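import Pool.Agent.T9h27.K.Cnt
import Pool.Agent.T9h27.K.Lsu
import Pool.Agent.Y772.DK.Dir

/-!
# The large sieve inequality for the primitive characters of conductor dividing `𝔮` (helper27)
-/

set_option autoImplicit false
set_option linter.unusedSectionVars false

open NumberField Module

namespace Pool.Agent.T9h27.K

open Pool.Agent.T9h27.D
open Pool.Agent.Y773.IQ (ne_zero_of_cop absNorm_pos' dv)
open Pool.Agent.N784.AD

section

variable (K : Type) [Field K] [NumberField K]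

/-- sums of powers of the norms -/
lemma sum_pow {e : ℝ} (he : 0 < e) : ∃ Z : ℝ, 1 ≤ Z ∧ ∀ (σ : ℝ) (X : ℕ), 0 ≤ σ →
    ∑ a ∈ SI (nK K) X, (nK K a : ℝ) ^ (σ - 1) ≤ Z * (X : ℝ) ^ (σ + e) := by
  have hs := Pool.Agent.Y772.DK.nr_summable K (σ := 1 + e) (by linarith)
  refine ⟨1 + ∑' a, Pool.Agent.Y772.DK.nr K (1 + e) a, ?_, fun σ X hσ => ?_⟩
  · have : 0 ≤ ∑' a, Pool.Agent.Y772.DK.nr K (1 + e) a :=
      tsum_nonneg fun a => Pool.Agent.Y772.DK.nr_nonneg K _ a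
    linarith
  have h1 : ∀ a ∈ SI (nK K) X, (nK K a : ℝ) ^ (σ - 1) ≤
      (X : ℝ) ^ (σ + e) * Pool.Agent.Y772.DK.nr K (1 + e) a := by
    intro a ha
    obtain ⟨h2, h3⟩ := (ns_K K).mem_SI.mp ha
    have h2' : (1 : ℝ) ≤ (nK K a : ℝ) := by exact_mod_cast h2
    have h3' : (nK K a : ℝ) ≤ X := by exact_mod_cast h3
    have e1 : (nK K a : ℝ) ^ (σ - 1) = (nK K a : ℝ) ^ (σ + e) * (nK K a : ℝ) ^ (-(1 + e)) := by
      rw [← Real.rpow_add (by linarith)]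
      congr 1
      ring
    rw [e1]
    refine mul_le_mul_of_nonneg_right ?_ (by positivity)
    exact Real.rpow_le_rpow (by linarith) h3' (by linarith)
  refine (Finset.sum_le_sum h1).trans ?_
  rw [← Finset.mul_sum, mul_comm]
  refine mul_le_mul_of_nonneg_right ?_ (by positivity)
  have h4 := hs.sum_le_tsum (SI (nK K) X) fun a _ => Pool.Agent.Y772.DK.nr_nonneg K _ a
  linarith

/-- logarithms against powers -/
lemma log_pow {e : ℝ} (he : 0 < e) : ∃ C : ℝ, 1 ≤ C ∧ ∀ X : ℕ, 1 ≤ X →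
    ((Nat.log 2 X : ℝ) + 1) ^ 2 ≤ C * (X : ℝ) ^ e := by
  refine ⟨(2 / (e / 2) + 1) ^ 2, one_le_pow₀ (by
    have : 0 < 2 / (e / 2) := by positivity
    linarith), fun X hX => ?_⟩
  have hX1 : (1 : ℝ) ≤ X := by exact_mod_cast hX
  have h1 : (Nat.log 2 X : ℝ) ≤ 2 * Real.log X := by
    have h2 : (2 : ℝ) ^ (Nat.log 2 X) ≤ X := by
      exact_mod_cast Nat.pow_log_le_self 2 (by omega)
    have h3 := Real.log_le_log (by positivity) h2
    rw [Real.log_pow] at h3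
    have h4 := Real.log_two_gt_d9
    have h5 : (0 : ℝ) ≤ (Nat.log 2 X : ℝ) := Nat.cast_nonneg _
    nlinarith
  have h2 : Real.log X ≤ (X : ℝ) ^ (e / 2) / (e / 2) :=
    Real.log_le_rpow_div (by linarith) (by linarith)
  have h3 : 1 ≤ (X : ℝ) ^ (e / 2) := Real.one_le_rpow hX1 (by linarith)
  have h4 : (Nat.log 2 X : ℝ) + 1 ≤ (2 / (e / 2) + 1) * (X : ℝ) ^ (e / 2) := by
    have h5 : 2 * ((X : ℝ) ^ (e / 2) / (e / 2)) = 2 / (e / 2) * (X : ℝ) ^ (e / 2) := by ring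
    rw [add_mul, one_mul, ← h5]
    linarith
  calc ((Nat.log 2 X : ℝ) + 1) ^ 2 ≤ ((2 / (e / 2) + 1) * (X : ℝ) ^ (e / 2)) ^ 2 :=
        pow_le_pow_left₀ (by positivity) h4 2
    _ = _ := by
        rw [mul_pow, ← Real.rpow_natCast ((X : ℝ) ^ (e / 2)), ← Real.rpow_mul (by linarith)]
        congr 2
        push_cast
        ring

variable {K}

open Classical in
/-- the coprime pairs -/
noncomputable def PP (𝔪 : Ideal (𝓞 K)) (X : ℕ) : Finset (Ideal (𝓞 K) × Ideal (𝓞 K)) :=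
  (SI (nK K) X ×ˢ SI (nK K) X).filter (fun p => IsCoprime p.1 p.2 ∧ Rl 𝔪 p.1 p.2 ∧
    nK K p.1 ≠ nK K p.2)

variable (K)

open Classical in
/-- the sum over the coprime pairs in the same class -/
lemma psum : ∃ C : ℝ, 1 ≤ C ∧ ∀ (𝔪 : Ideal (𝓞 K)) (_ : 𝔪 ≠ ⊥) (_ : 𝔪 ≠ ⊤) (X : ℕ), 1 ≤ X →
    ∀ (e H D : ℝ), 0 ≤ e → e ≤ 1 / 2 → 0 ≤ H → 0 ≤ D →
    ∀ (O : Ideal (𝓞 K) × Ideal (𝓞 K) → ℝ), (∀ p ∈ PP 𝔪 X, O p ≤ H ∧
      O p ≤ D * Real.sqrt (nK K p.1 * nK K p.2)) →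
    ∑ p ∈ PP 𝔪 X, (nK K p.1 : ℝ) ^ (e - 1 / 2) * (nK K p.2 : ℝ) ^ (e - 1 / 2) * O p ≤
      ((Nat.log 2 X : ℝ) + 1) ^ 2 * (C * Un 𝔪 * (X : ℝ) ^ (2 * e) *
        (2 * D + X * H / (Ideal.absNorm 𝔪 : ℝ))) := by
  obtain ⟨C, hC, hcnt⟩ := cop_count K
  refine ⟨C, hC, ?_⟩
  intro 𝔪 hbot htop X hX e H D he he2 hH hD O hO
  have hNm : (1 : ℝ) ≤ (Ideal.absNorm 𝔪 : ℝ) := by exact_mod_cast absNorm_pos' hbot
  have hX1 : (1 : ℝ) ≤ X := by exact_mod_cast hX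
  have hPPm : ∀ p ∈ PP 𝔪 X, (1 ≤ nK K p.1 ∧ nK K p.1 ≤ X) ∧ (1 ≤ nK K p.2 ∧ nK K p.2 ≤ X) ∧
      IsCoprime p.1 p.2 ∧ Rl 𝔪 p.1 p.2 := by
    intro p hp
    unfold PP at hp
    rw [Finset.mem_filter, Finset.mem_product] at hp
    exact ⟨(ns_K K).mem_SI.mp hp.1.1, (ns_K K).mem_SI.mp hp.1.2, hp.2.1, hp.2.2.1⟩
  obtain ⟨f, hf⟩ : ∃ f : Ideal (𝓞 K) × Ideal (𝓞 K) → ℕ × ℕ,
    ∀ p, f p = (Nat.log 2 (nK K p.1), Nat.log 2 (nK K p.2)) := ⟨_, fun _ => rfl⟩
  have hmaps : ∀ p ∈ PP 𝔪 X, f p ∈ Finset.range (Nat.log 2 X + 1) ×ˢ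
      Finset.range (Nat.log 2 X + 1) := by
    intro p hp
    obtain ⟨⟨-, h1⟩, ⟨-, h2⟩, -, -⟩ := hPPm p hp
    rw [hf, Finset.mem_product, Finset.mem_range, Finset.mem_range]
    constructor
    · change Nat.log 2 (nK K p.1) < _
      exact Nat.lt_succ_of_le (Nat.log_mono_right h1)
    · change Nat.log 2 (nK K p.2) < _
      exact Nat.lt_succ_of_le (Nat.log_mono_right h2)
  rw [← Finset.sum_fiberwise_of_maps_to hmaps]
  have hbox : ∀ ij ∈ Finset.range (Nat.log 2 X + 1) ×ˢ Finset.range (Nat.log 2 X + 1),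
      ∑ p ∈ (PP 𝔪 X).filter (fun p => f p = ij),
        (nK K p.1 : ℝ) ^ (e - 1 / 2) * (nK K p.2 : ℝ) ^ (e - 1 / 2) * O p ≤
      C * Un 𝔪 * (X : ℝ) ^ (2 * e) * (2 * D + X * H / (Ideal.absNorm 𝔪 : ℝ)) := by
    rintro ⟨i, j⟩ hij
    obtain ⟨hi, hj⟩ := Finset.mem_product.mp hij
    rw [Finset.mem_range] at hi hj
    obtain ⟨x, hx⟩ : ∃ x : ℝ, x = 2 ^ i := ⟨_, rfl⟩
    obtain ⟨y, hy⟩ : ∃ y : ℝ, y = 2 ^ j := ⟨_, rfl⟩
    have hx0 : 0 < x := by rw [hx]; positivity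
    have hy0 : 0 < y := by rw [hy]; positivity
    have hxX : x ≤ X := by
      rw [hx]
      have : 2 ^ i ≤ X := (Nat.pow_le_pow_right (by norm_num) (Nat.lt_succ_iff.mp hi)).trans
        (Nat.pow_log_le_self 2 (by omega))
      exact_mod_cast this
    have hyX : y ≤ X := by
      rw [hy]
      have : 2 ^ j ≤ X := (Nat.pow_le_pow_right (by norm_num) (Nat.lt_succ_iff.mp hj)).trans
        (Nat.pow_log_le_self 2 (by omega))
      exact_mod_cast this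
    have hmem : ∀ p ∈ (PP 𝔪 X).filter (fun p => f p = (i, j)), p ∈ PP 𝔪 X ∧
        (x ≤ (nK K p.1 : ℝ) ∧ (nK K p.1 : ℝ) ≤ 2 * x) ∧
        (y ≤ (nK K p.2 : ℝ) ∧ (nK K p.2 : ℝ) ≤ 2 * y) := by
      intro p hp
      obtain ⟨h1, h2⟩ := Finset.mem_filter.mp hp
      rw [hf] at h2
      obtain ⟨h3, h4⟩ := Prod.ext_iff.mp h2
      simp only at h3 h4
      obtain ⟨⟨g1, -⟩, ⟨g2, -⟩, -, -⟩ := hPPm p h1
      refine ⟨h1, ?_, ?_⟩
      · rw [hx, ← h3]
        have a1 := Nat.pow_log_le_self 2 (x := nK K p.1) (by omega)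
        have a2 := (Nat.lt_pow_succ_log_self (b := 2) (by norm_num) (nK K p.1)).le
        rw [pow_succ, mul_comm] at a2
        exact ⟨by exact_mod_cast a1, by exact_mod_cast a2⟩
      · rw [hy, ← h4]
        have a1 := Nat.pow_log_le_self 2 (x := nK K p.2) (by omega)
        have a2 := (Nat.lt_pow_succ_log_self (b := 2) (by norm_num) (nK K p.2)).le
        rw [pow_succ, mul_comm] at a2
        exact ⟨by exact_mod_cast a1, by exact_mod_cast a2⟩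
    have hcard := hcnt 𝔪 hbot htop ((PP 𝔪 X).filter (fun p => f p = (i, j))) x y hx0 hy0 (by
      intro p hp
      obtain ⟨h1, h2, h3⟩ := hmem p hp
      obtain ⟨⟨g1, -⟩, ⟨g2, -⟩, g3, g4⟩ := hPPm p h1
      refine ⟨?_, ?_, g3, g4, h2, h3⟩
      · intro h
        rw [h] at g1
        have : nK K (⊥ : Ideal (𝓞 K)) = 0 := Ideal.absNorm_bot
        omega
      · intro h
        rw [h] at g2
        have : nK K (⊥ : Ideal (𝓞 K)) = 0 := Ideal.absNorm_bot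
        omega)
    obtain ⟨s, hs⟩ : ∃ s : ℝ, s = Real.sqrt (x * y) := ⟨_, rfl⟩
    have hs0 : 0 < s := by rw [hs]; exact Real.sqrt_pos.mpr (by positivity)
    have hss : s * s = x * y := by rw [hs]; exact Real.mul_self_sqrt (by positivity)
    obtain ⟨m, hm⟩ : ∃ m : ℝ, m = min H (2 * D * s) := ⟨_, rfl⟩
    have hm0 : 0 ≤ m := by rw [hm]; exact le_min hH (by positivity)
    have hw : ∀ p ∈ (PP 𝔪 X).filter (fun p => f p = (i, j)),
        (nK K p.1 : ℝ) ^ (e - 1 / 2) * (nK K p.2 : ℝ) ^ (e - 1 / 2) * O p ≤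
        (X : ℝ) ^ (2 * e) * s⁻¹ * m := by
      intro p hp
      obtain ⟨h1, ⟨h2, h2'⟩, ⟨h3, h3'⟩⟩ := hmem p hp
      obtain ⟨⟨g1, g1'⟩, ⟨g2, g2'⟩, g3, g4⟩ := hPPm p h1
      have k1 : (1 : ℝ) ≤ nK K p.1 := by exact_mod_cast g1
      have k2 : (1 : ℝ) ≤ nK K p.2 := by exact_mod_cast g2
      have k1' : (nK K p.1 : ℝ) ≤ X := by exact_mod_cast g1'
      have k2' : (nK K p.2 : ℝ) ≤ X := by exact_mod_cast g2'
      obtain ⟨hO1, hO2⟩ := hO p h1
      have hOm : O p ≤ m := by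
        rw [hm]
        refine le_min hO1 (hO2.trans ?_)
        have : Real.sqrt (nK K p.1 * nK K p.2) ≤ 2 * s := by
          rw [Real.sqrt_le_left (by positivity)]
          have : (2 * s) ^ 2 = (2 * x) * (2 * y) := by
            rw [mul_pow, sq s, hss]; ring
          rw [this]
          exact mul_le_mul h2' h3' (by linarith) (by linarith)
        nlinarith
      have q1 : ∀ z w : ℝ, 1 ≤ z → z ≤ X → 0 < w → w ≤ z →
          z ^ (e - 1 / 2) ≤ (X : ℝ) ^ e * w ^ (-(1 / 2) : ℝ) := by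
        intro z w hz hzX hw hwz
        have e1 : z ^ (e - 1 / 2) = z ^ e * z ^ (-(1 / 2) : ℝ) := by
          rw [← Real.rpow_add (by linarith)]
          congr 1
        rw [e1]
        refine mul_le_mul (Real.rpow_le_rpow (by linarith) hzX he) ?_ (by positivity)
          (by positivity)
        exact Real.rpow_le_rpow_of_nonpos hw hwz (by norm_num)
      have q2 := q1 _ _ k1 k1' hx0 h2
      have q3 := q1 _ _ k2 k2' hy0 h3
      have e2 : (X : ℝ) ^ e * x ^ (-(1 / 2) : ℝ) * ((X : ℝ) ^ e * y ^ (-(1 / 2) : ℝ)) =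
          (X : ℝ) ^ (2 * e) * s⁻¹ := by
        have a1 : (X : ℝ) ^ (2 * e) = (X : ℝ) ^ e * (X : ℝ) ^ e := by
          rw [← Real.rpow_add (by linarith)]
          congr 1
          ring
        have a2 : s⁻¹ = x ^ (-(1 / 2) : ℝ) * y ^ (-(1 / 2) : ℝ) := by
          rw [← Real.mul_rpow hx0.le hy0.le, Real.rpow_neg (by positivity), hs,
            Real.sqrt_eq_rpow]
        rw [a1, a2]
        ring
      calc _ ≤ (nK K p.1 : ℝ) ^ (e - 1 / 2) * (nK K p.2 : ℝ) ^ (e - 1 / 2) * m :=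
            mul_le_mul_of_nonneg_left hOm (by positivity)
        _ ≤ ((X : ℝ) ^ e * x ^ (-(1 / 2) : ℝ) * ((X : ℝ) ^ e * y ^ (-(1 / 2) : ℝ))) * m := by
            refine mul_le_mul_of_nonneg_right ?_ hm0
            exact mul_le_mul q2 q3 (by positivity) (by positivity)
        _ = _ := by rw [e2]
    refine (Finset.sum_le_sum hw).trans ?_
    rw [Finset.sum_const, nsmul_eq_mul]
    have hUn : (0 : ℝ) ≤ Un 𝔪 := Nat.cast_nonneg _
    have hX2 : 0 ≤ (X : ℝ) ^ (2 * e) := by positivity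
    calc _ ≤ C * Un 𝔪 * (1 + x * y / (Ideal.absNorm 𝔪 : ℝ)) * ((X : ℝ) ^ (2 * e) * s⁻¹ * m) :=
          mul_le_mul_of_nonneg_right hcard (by positivity)
      _ = C * Un 𝔪 * (X : ℝ) ^ (2 * e) * (s⁻¹ * m + s * m / (Ideal.absNorm 𝔪 : ℝ)) := by
          rw [← hss]
          field_simp
      _ ≤ _ := by
          refine mul_le_mul_of_nonneg_left (add_le_add ?_ ?_) (by positivity)
          · rw [inv_mul_le_iff₀ hs0, hm]
            refine (min_le_right _ _).trans (le_of_eq ?_)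
            ring
          · refine div_le_div_of_nonneg_right ?_ (by linarith)
            refine mul_le_mul ?_ (by rw [hm]; exact min_le_left _ _) hm0 (by linarith)
            rw [hs, Real.sqrt_le_left (by linarith), sq]
            exact mul_le_mul hxX hyX hy0.le (by linarith)
  refine (Finset.sum_le_sum hbox).trans ?_
  rw [Finset.sum_const, nsmul_eq_mul, Finset.card_product, Finset.card_range]
  refine le_of_eq ?_
  push_cast
  ring

end

end Pool.Agent.T9h27.K
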